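import Pool.Agent.TH997.UP.Stm
import Pool.Agent.H692R2.USS.W1

/-!
# The universal set is computable
-/

set_option autoImplicit false

namespace Pool.Agent.TH997.UP.CMP

open Finset
open Pool.Agent.H692R2.USS (cp_and cp_ex csum ccount dg exists_code cdiv cmod cpow clog)
open Pool.Agent.Helper446.RE (cp_le cp_lt cp_eq cp_comp cite)

/-- The next term (positive and negative parts) from the list of the previous ones. -/
def nx (L e B : ℕ) (h : List (ℕ × ℕ)) (n : ℕ) : ℕ × ℕ :=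
  if n < L then (dg B e (4 * n + 2), dg B e (4 * n + 3))
  else (∑ i ∈ range L, (dg B e (4 * i) * ((h[i]?).getD (0, 0)).1 +
      dg B e (4 * i + 1) * ((h[i]?).getD (0, 0)).2),
    ∑ i ∈ range L, (dg B e (4 * i) * ((h[i]?).getD (0, 0)).2 +
      dg B e (4 * i + 1) * ((h[i]?).getD (0, 0)).1))

/-- The list of the first `n` terms, reversed. -/
def hist (L e B : ℕ) (n : ℕ) : List (ℕ × ℕ) :=
  Nat.rec [] (fun n h => nx L e B h n :: h) n

/-- The terms. -/
def val (L e B : ℕ) (n : ℕ) : ℕ × ℕ := nx L e B (hist L e B n) n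

theorem hist_succ (L e B n : ℕ) : hist L e B (n + 1) = val L e B n :: hist L e B n := rfl

theorem hist_get (L e B : ℕ) : ∀ n i, i < n → (hist L e B n)[i]? = some (val L e B (n - 1 - i)) := by
  intro n
  induction n with
  | zero => intro i hi; omega
  | succ n ih =>
    intro i hi
    rw [hist_succ]
    rcases i with _ | i
    · simp
    · rw [List.getElem?_cons_succ, ih i (by omega)]
      congr 2
      omega

/-- The instance with a given code. -/
def wof (L e B : ℕ) : Z2 := List.ofFn fun i : Fin L =>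
  ((dg B e (4 * i) : ℤ) - dg B e (4 * i + 1), (dg B e (4 * i + 2) : ℤ) - dg B e (4 * i + 3))

theorem wof_length (L e B : ℕ) : (wof L e B).length = L := by
  simp [wof]

theorem wof_getD (L e B i : ℕ) (hi : i < L) : (wof L e B).getD i (0, 0) =
    ((dg B e (4 * i) : ℤ) - dg B e (4 * i + 1), (dg B e (4 * i + 2) : ℤ) - dg B e (4 * i + 3)) := by
  rw [List.getD_eq_getElem _ _ (by rw [wof_length]; exact hi)]
  simp [wof]

theorem iseq_eq (L e B : ℕ) : ∀ n, iseq (wof L e B) n = ((val L e B n).1 : ℤ) - (val L e B n).2 := by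
  intro n
  induction n using Nat.strong_induction_on with
  | _ n ih =>
    rw [iseq, wof_length]
    unfold val nx
    split_ifs with h
    · rw [wof_getD L e B n h]
    · replace h := not_lt.1 h
      have h1 : ∀ i ∈ range L, ((hist L e B n)[i]?).getD (0, 0) = val L e B (n - 1 - i) := by
        intro i hi
        rw [hist_get L e B n i (by have := mem_range.1 hi; omega)]
        rfl
      have h2 : (∑ i : Fin L,
          ((wof L e B).getD i (0, 0)).1 * iseq (wof L e B) (n - 1 - i)) =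
          ∑ i ∈ range L, ((wof L e B).getD i (0, 0)).1 * iseq (wof L e B) (n - 1 - i) :=
        Fin.sum_univ_eq_sum_range
          (fun i => ((wof L e B).getD i (0, 0)).1 * iseq (wof L e B) (n - 1 - i)) L
      rw [h2]
      push_cast
      rw [← Finset.sum_sub_distrib]
      refine Finset.sum_congr rfl fun i hi => ?_
      have hi' := mem_range.1 hi
      rw [h1 i hi, wof_getD L e B i hi', ih (n - 1 - i) (by omega)]
      ring

/-- The size of an integer. -/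
theorem size_eq (k : ℕ) : Nat.size k = Nat.log 2 (2 * k) := by
  rcases Nat.eq_zero_or_pos k with rfl | hk
  · simp
  · refine eq_of_forall_ge_iff fun c => ?_
    rw [Nat.size_le, ← Nat.lt_succ_iff, Nat.log_lt_iff_lt_pow (by norm_num) (by omega),
      Nat.succ_eq_add_one, pow_succ]
    omega

theorem natAbs_sub (a b : ℕ) : ((a : ℤ) - b).natAbs = (a - b) + (b - a) := by
  omega

theorem isz_eq (L e B : ℕ) : isz (wof L e B) = ∑ i ∈ range L,
    (1 + Nat.log 2 (2 * ((dg B e (4 * i) - dg B e (4 * i + 1)) +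
      (dg B e (4 * i + 1) - dg B e (4 * i)))) +
      Nat.log 2 (2 * ((dg B e (4 * i + 2) - dg B e (4 * i + 3)) +
      (dg B e (4 * i + 3) - dg B e (4 * i + 2))))) := by
  unfold isz wof
  rw [List.map_ofFn, List.sum_ofFn, Finset.sum_range]
  refine Finset.sum_congr rfl fun i _ => ?_
  simp only [Function.comp]
  rw [size_eq, size_eq, natAbs_sub, natAbs_sub]

theorem length_le_isz (w : Z2) : w.length ≤ isz w := by
  unfold isz
  induction w with
  | nil => simp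
  | cons q w ih =>
    rw [List.map_cons, List.sum_cons, List.length_cons]
    omega

theorem size_le_isz (w : Z2) : ∀ q ∈ w, Nat.size q.1.natAbs ≤ isz w ∧ Nat.size q.2.natAbs ≤ isz w := by
  unfold isz
  induction w with
  | nil => intro q hq; simp at hq
  | cons r w ih =>
    intro q hq
    rw [List.map_cons, List.sum_cons]
    rcases List.mem_cons.1 hq with rfl | hq
    · omega
    · have := ih q hq
      omega

/-- Every small instance has a code. -/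
theorem exists_wof (w : Z2) (n : ℕ) (hw : isz w ≤ n) : ∃ e < (2 ^ n) ^ (4 * n),
    wof w.length e (2 ^ n) = w := by
  have hlen : w.length ≤ n := (length_le_isz w).trans hw
  have hb : ∀ i, (w.getD i (0, 0)).1.natAbs < 2 ^ n ∧ (w.getD i (0, 0)).2.natAbs < 2 ^ n := by
    intro i
    by_cases hi : i < w.length
    · rw [List.getD_eq_getElem _ _ hi]
      have := size_le_isz w _ (List.getElem_mem hi)
      exact ⟨Nat.size_le.1 (this.1.trans hw), Nat.size_le.1 (this.2.trans hw)⟩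
    · rw [List.getD_eq_default _ _ (by omega)]
      simp
  obtain ⟨e, he, h⟩ := exists_code (2 ^ n) (4 * n)
    (fun j => if j % 4 = 0 then (w.getD (j / 4) (0, 0)).1.toNat
      else if j % 4 = 1 then (-(w.getD (j / 4) (0, 0)).1).toNat
      else if j % 4 = 2 then (w.getD (j / 4) (0, 0)).2.toNat
      else (-(w.getD (j / 4) (0, 0)).2).toNat) (by
    intro j _
    have := hb (j / 4)
    generalize w.getD (j / 4) (0, 0) = q at *
    generalize 2 ^ n = B at *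
    split_ifs <;> omega)
  refine ⟨e, he, ?_⟩
  refine List.ext_getElem (wof_length _ _ _) fun i h1 h2 => ?_
  have h0 := h (4 * i) (by omega)
  have h3 := h (4 * i + 1) (by omega)
  have h4 := h (4 * i + 2) (by omega)
  have h5 := h (4 * i + 3) (by omega)
  have e0 : 4 * i / 4 = i := by omega
  have e1 : (4 * i + 1) / 4 = i := by omega
  have e2 : (4 * i + 2) / 4 = i := by omega
  have e3 : (4 * i + 3) / 4 = i := by omega
  have m0 : 4 * i % 4 = 0 := by omega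
  have m1 : (4 * i + 1) % 4 = 1 := by omega
  have m2 : (4 * i + 2) % 4 = 2 := by omega
  have m3 : (4 * i + 3) % 4 = 3 := by omega
  rw [e0, m0, if_pos rfl] at h0
  rw [e1, m1, if_neg (by norm_num), if_pos rfl] at h3
  rw [e2, m2, if_neg (by norm_num), if_neg (by norm_num), if_pos rfl] at h4
  rw [e3, m3, if_neg (by norm_num), if_neg (by norm_num), if_neg (by norm_num)] at h5
  rw [← List.getD_eq_getElem _ (0, 0) h1, ← List.getD_eq_getElem _ (0, 0) h2, wof_getD _ _ _ _ h2,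
    h0, h3, h4, h5]
  ext
  · simp only
    omega
  · simp only
    omega

/-- The universal set in terms of codes. -/
theorem mem_iff (A D : ℕ) (hA : 1 ≤ A) (n : ℕ) : n ∈ LS A D ↔
    ∃ s < n + 1, ∃ L < n + 1, ∃ e < (2 ^ n) ^ (4 * n),
      (∑ i ∈ range L,
        (1 + Nat.log 2 (2 * ((dg (2 ^ n) e (4 * i) - dg (2 ^ n) e (4 * i + 1)) +
        (dg (2 ^ n) e (4 * i + 1) - dg (2 ^ n) e (4 * i)))) +
        Nat.log 2 (2 * ((dg (2 ^ n) e (4 * i + 2) - dg (2 ^ n) e (4 * i + 3)) +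
        (dg (2 ^ n) e (4 * i + 3) - dg (2 ^ n) e (4 * i + 2)))))) ≤ s ∧
      2 ^ (s ^ A) ≤ n ∧ (val L e (2 ^ n) n).1 ≤ (val L e (2 ^ n) n).2 ∧
      ((range n).filter (fun m => 2 ^ (s ^ A) ≤ m ∧
        (val L e (2 ^ n) m).1 ≤ (val L e (2 ^ n) m).2)).card ≤
        2 ^ (s ^ D) * (Nat.log 2 n + 1) := by
  have key : ∀ (L e B m : ℕ), iseq (wof L e B) m ≤ 0 ↔ (val L e B m).1 ≤ (val L e B m).2 := by
    intro L e B m
    rw [iseq_eq]
    omega
  have key2 : ∀ (L e B T m : ℕ), cnt (wof L e B) T m = ((range m).filter (fun m => T ≤ m ∧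
        (val L e B m).1 ≤ (val L e B m).2)).card := by
    intro L e B T m
    unfold cnt
    congr 1
    refine Finset.filter_congr fun i _ => ?_
    rw [key]
  constructor
  · rintro ⟨s, w, h1, h2, h3, h4⟩
    have hs : s ≤ n := by
      have h5 : s ≤ s ^ A := Nat.le_self_pow (by omega) s
      have h6 : s ^ A < 2 ^ (s ^ A) := Nat.lt_two_pow_self
      omega
    obtain ⟨e, he, hwe⟩ := exists_wof w n (h1.trans hs)
    refine ⟨s, by omega, w.length, ?_, e, he, ?_, h2, ?_, ?_⟩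
    · have := length_le_isz w
      omega
    · rw [← isz_eq, hwe]
      exact h1
    · rw [← key, hwe]
      exact h3
    · rw [← key2, hwe]
      exact h4
  · rintro ⟨s, _, L, _, e, _, h1, h2, h3, h4⟩
    refine ⟨s, wof L e (2 ^ n), ?_, h2, ?_, ?_⟩
    · rw [isz_eq]
      exact h1
    · rw [key]
      exact h3
    · rw [key2]
      exact h4

/-! ### Computability -/

section comp

variable {α : Type} [Primcodable α]

@[fun_prop] theorem cdg {B c j : α → ℕ} (hB : Computable B) (hc : Computable c)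
    (hj : Computable j) : Computable (fun x => dg (B x) (c x) (j x)) := by
  unfold dg
  fun_prop

@[fun_prop] theorem cgetD {f : α → Option (ℕ × ℕ)} (hf : Computable f) :
    Computable (fun x => (f x).getD (0, 0)) :=
  Computable.option_getD hf (Computable.const (0, 0))

theorem cnx : Computable (fun x : (ℕ × ℕ × ℕ) × (List (ℕ × ℕ)) × ℕ =>
    nx x.1.1 x.1.2.1 x.1.2.2 x.2.1 x.2.2) := by
  unfold nx
  refine cite (cp_lt (by fun_prop) (by fun_prop)) (by fun_prop) ?_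
  refine Computable.pair ?_ ?_
  · refine csum (g := fun (x : (ℕ × ℕ × ℕ) × (List (ℕ × ℕ)) × ℕ) i =>
      dg x.1.2.2 x.1.2.1 (4 * i) * ((x.2.1[i]?).getD (0, 0)).1 +
      dg x.1.2.2 x.1.2.1 (4 * i + 1) * ((x.2.1[i]?).getD (0, 0)).2) ?_ ?_ <;> fun_prop
  · refine csum (g := fun (x : (ℕ × ℕ × ℕ) × (List (ℕ × ℕ)) × ℕ) i =>
      dg x.1.2.2 x.1.2.1 (4 * i) * ((x.2.1[i]?).getD (0, 0)).2 +
      dg x.1.2.2 x.1.2.1 (4 * i + 1) * ((x.2.1[i]?).getD (0, 0)).1) ?_ ?_ <;> fun_prop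

theorem chist : Computable (fun x : (ℕ × ℕ × ℕ) × ℕ => hist x.1.1 x.1.2.1 x.1.2.2 x.2) := by
  have h := Computable.nat_rec (f := fun x : (ℕ × ℕ × ℕ) × ℕ => x.2)
    (g := fun _ : (ℕ × ℕ × ℕ) × ℕ => ([] : List (ℕ × ℕ)))
    (h := fun (x : (ℕ × ℕ × ℕ) × ℕ) (y : ℕ × List (ℕ × ℕ)) =>
      nx x.1.1 x.1.2.1 x.1.2.2 y.2 y.1 :: y.2) (by fun_prop) (by fun_prop) (by
      have h1 : Computable (fun z : ((ℕ × ℕ × ℕ) × ℕ) × ℕ × List (ℕ × ℕ) =>
          nx z.1.1.1 z.1.1.2.1 z.1.1.2.2 z.2.2 z.2.1) :=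
        cnx.comp (f := fun x : (ℕ × ℕ × ℕ) × (List (ℕ × ℕ)) × ℕ =>
          nx x.1.1 x.1.2.1 x.1.2.2 x.2.1 x.2.2)
          (g := fun z : ((ℕ × ℕ × ℕ) × ℕ) × ℕ × List (ℕ × ℕ) => (z.1.1, (z.2.2, z.2.1)))
          (by fun_prop)
      unfold Computable₂
      fun_prop)
  exact h

theorem cval0 : Computable (fun x : (ℕ × ℕ × ℕ) × ℕ => val x.1.1 x.1.2.1 x.1.2.2 x.2) := by
  have h := cnx.comp (f := fun x : (ℕ × ℕ × ℕ) × (List (ℕ × ℕ)) × ℕ =>
      nx x.1.1 x.1.2.1 x.1.2.2 x.2.1 x.2.2)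
    (g := fun x : (ℕ × ℕ × ℕ) × ℕ => (x.1, (hist x.1.1 x.1.2.1 x.1.2.2 x.2, x.2)))
    ((by fun_prop : Computable fun x : (ℕ × ℕ × ℕ) × ℕ => x.1).pair (chist.pair (by fun_prop)))
  exact h

@[fun_prop] theorem cval {L e B n : α → ℕ} (hL : Computable L) (he : Computable e)
    (hB : Computable B) (hn : Computable n) :
    Computable (fun x => val (L x) (e x) (B x) (n x)) :=
  cval0.comp (f := fun x : (ℕ × ℕ × ℕ) × ℕ => val x.1.1 x.1.2.1 x.1.2.2 x.2)
    (g := fun x => ((L x, (e x, B x)), n x)) (by fun_prop)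

end comp

end Pool.Agent.TH997.UP.CMP

namespace Pool.Agent.TH997.UP

open Finset Pool.Agent.H612.LR
open scoped Classical
open Pool.Agent.H692R2.USS (cp_and cp_ex csum ccount dg)
open Pool.Agent.Helper446.RE (cp_le cp_lt)

theorem cmp : CMP := by
  intro A D hA
  refine ComputablePred.of_eq (p := fun n => ∃ s < n + 1, ∃ L < n + 1, ∃ e < (2 ^ n) ^ (4 * n),
      (∑ i ∈ range L,
        (1 + Nat.log 2 (2 * ((dg (2 ^ n) e (4 * i) - dg (2 ^ n) e (4 * i + 1)) +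
        (dg (2 ^ n) e (4 * i + 1) - dg (2 ^ n) e (4 * i)))) +
        Nat.log 2 (2 * ((dg (2 ^ n) e (4 * i + 2) - dg (2 ^ n) e (4 * i + 3)) +
        (dg (2 ^ n) e (4 * i + 3) - dg (2 ^ n) e (4 * i + 2)))))) ≤ s ∧
      2 ^ (s ^ A) ≤ n ∧ (CMP.val L e (2 ^ n) n).1 ≤ (CMP.val L e (2 ^ n) n).2 ∧
      ((range n).filter (fun m => 2 ^ (s ^ A) ≤ m ∧
        (CMP.val L e (2 ^ n) m).1 ≤ (CMP.val L e (2 ^ n) m).2)).card ≤
        2 ^ (s ^ D) * (Nat.log 2 n + 1)) ?_ fun n => (CMP.mem_iff A D hA n).symm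
  refine cp_ex (p := fun (n : ℕ) s => ∃ L < n + 1, ∃ e < (2 ^ n) ^ (4 * n),
      (∑ i ∈ range L,
        (1 + Nat.log 2 (2 * ((dg (2 ^ n) e (4 * i) - dg (2 ^ n) e (4 * i + 1)) +
        (dg (2 ^ n) e (4 * i + 1) - dg (2 ^ n) e (4 * i)))) +
        Nat.log 2 (2 * ((dg (2 ^ n) e (4 * i + 2) - dg (2 ^ n) e (4 * i + 3)) +
        (dg (2 ^ n) e (4 * i + 3) - dg (2 ^ n) e (4 * i + 2)))))) ≤ s ∧
      2 ^ (s ^ A) ≤ n ∧ (CMP.val L e (2 ^ n) n).1 ≤ (CMP.val L e (2 ^ n) n).2 ∧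
      ((range n).filter (fun m => 2 ^ (s ^ A) ≤ m ∧
        (CMP.val L e (2 ^ n) m).1 ≤ (CMP.val L e (2 ^ n) m).2)).card ≤
        2 ^ (s ^ D) * (Nat.log 2 n + 1)) ?_ (by fun_prop)
  refine cp_ex (p := fun (x : ℕ × ℕ) L => ∃ e < (2 ^ x.1) ^ (4 * x.1),
      (∑ i ∈ range L,
        (1 + Nat.log 2 (2 * ((dg (2 ^ x.1) e (4 * i) - dg (2 ^ x.1) e (4 * i + 1)) +
        (dg (2 ^ x.1) e (4 * i + 1) - dg (2 ^ x.1) e (4 * i)))) +
        Nat.log 2 (2 * ((dg (2 ^ x.1) e (4 * i + 2) - dg (2 ^ x.1) e (4 * i + 3)) +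
        (dg (2 ^ x.1) e (4 * i + 3) - dg (2 ^ x.1) e (4 * i + 2)))))) ≤ x.2 ∧
      2 ^ (x.2 ^ A) ≤ x.1 ∧ (CMP.val L e (2 ^ x.1) x.1).1 ≤ (CMP.val L e (2 ^ x.1) x.1).2 ∧
      ((range x.1).filter (fun m => 2 ^ (x.2 ^ A) ≤ m ∧
        (CMP.val L e (2 ^ x.1) m).1 ≤ (CMP.val L e (2 ^ x.1) m).2)).card ≤
        2 ^ (x.2 ^ D) * (Nat.log 2 x.1 + 1)) ?_ (by fun_prop)
  refine cp_ex (p := fun (x : (ℕ × ℕ) × ℕ) e =>
      (∑ i ∈ range x.2,
        (1 + Nat.log 2 (2 * ((dg (2 ^ x.1.1) e (4 * i) - dg (2 ^ x.1.1) e (4 * i + 1)) +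
        (dg (2 ^ x.1.1) e (4 * i + 1) - dg (2 ^ x.1.1) e (4 * i)))) +
        Nat.log 2 (2 * ((dg (2 ^ x.1.1) e (4 * i + 2) - dg (2 ^ x.1.1) e (4 * i + 3)) +
        (dg (2 ^ x.1.1) e (4 * i + 3) - dg (2 ^ x.1.1) e (4 * i + 2)))))) ≤ x.1.2 ∧
      2 ^ (x.1.2 ^ A) ≤ x.1.1 ∧ (CMP.val x.2 e (2 ^ x.1.1) x.1.1).1 ≤ (CMP.val x.2 e (2 ^ x.1.1) x.1.1).2 ∧
      ((range x.1.1).filter (fun m => 2 ^ (x.1.2 ^ A) ≤ m ∧
        (CMP.val x.2 e (2 ^ x.1.1) m).1 ≤ (CMP.val x.2 e (2 ^ x.1.1) m).2)).card ≤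
        2 ^ (x.1.2 ^ D) * (Nat.log 2 x.1.1 + 1)) ?_ (by fun_prop)
  refine cp_and (cp_le ?_ (by fun_prop)) (cp_and (cp_le (by fun_prop) (by fun_prop))
    (cp_and (cp_le (by fun_prop) (by fun_prop)) (cp_le ?_ (by fun_prop))))
  · refine csum (g := fun (y : ((ℕ × ℕ) × ℕ) × ℕ) i =>
        (1 + Nat.log 2 (2 * ((dg (2 ^ y.1.1.1) y.2 (4 * i) - dg (2 ^ y.1.1.1) y.2 (4 * i + 1)) +
        (dg (2 ^ y.1.1.1) y.2 (4 * i + 1) - dg (2 ^ y.1.1.1) y.2 (4 * i)))) +
        Nat.log 2 (2 * ((dg (2 ^ y.1.1.1) y.2 (4 * i + 2) - dg (2 ^ y.1.1.1) y.2 (4 * i + 3)) +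
        (dg (2 ^ y.1.1.1) y.2 (4 * i + 3) - dg (2 ^ y.1.1.1) y.2 (4 * i + 2))))))
      (by fun_prop) (by fun_prop)
  · refine ccount (p := fun (y : ((ℕ × ℕ) × ℕ) × ℕ) m => 2 ^ (y.1.1.2 ^ A) ≤ m ∧
        (CMP.val y.1.2 y.2 (2 ^ y.1.1.1) m).1 ≤ (CMP.val y.1.2 y.2 (2 ^ y.1.1.1) m).2)
      (cp_and (cp_le (by fun_prop) (by fun_prop)) (cp_le (by fun_prop) (by fun_prop)))
      (by fun_prop)

end Pool.Agent.TH997.UP
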