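import Pool.Agent.TH997.UP.Stm

/-!
# The universal set is sparse
-/

set_option autoImplicit false

namespace Pool.Agent.TH997.UP

open Finset Pool.Agent.H612.LR
open scoped Classical

namespace CNT

/-- the indices coming from one instance -/
noncomputable def Es (w : Z2) (T M N : ℕ) : Finset ℕ :=
  (range N).filter (fun n => T ≤ n ∧ iseq w n ≤ 0 ∧ cnt w T n ≤ M * (Nat.log 2 n + 1))

theorem Es_card (w : Z2) (T M N : ℕ) : (Es w T M N).card ≤ M * (Nat.log 2 N + 1) + 1 := by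
  by_cases h : (Es w T M N).Nonempty
  · have hm := (Es w T M N).max'_mem h
    set x := (Es w T M N).max' h with hx
    have hm' : x < N ∧ T ≤ x ∧ iseq w x ≤ 0 ∧ cnt w T x ≤ M * (Nat.log 2 x + 1) := by
      simpa [Es] using hm
    have h1 : ((Es w T M N).erase x).card ≤ cnt w T x := by
      unfold cnt
      apply card_le_card
      intro y hy
      rw [mem_erase] at hy
      have hy1 : y ≤ x := (Es w T M N).le_max' y hy.2
      have hy2 : y < N ∧ T ≤ y ∧ iseq w y ≤ 0 ∧ cnt w T y ≤ M * (Nat.log 2 y + 1) := by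
        simpa [Es] using hy.2
      rw [mem_filter, mem_range]
      exact ⟨lt_of_le_of_ne hy1 hy.1, hy2.2.1, hy2.2.2.1⟩
    rw [card_erase_of_mem hm] at h1
    have h2 : Nat.log 2 x ≤ Nat.log 2 N := Nat.log_mono_right hm'.1.le
    have h3 : M * (Nat.log 2 x + 1) ≤ M * (Nat.log 2 N + 1) := Nat.mul_le_mul le_rfl (by omega)
    have := hm'.2.2.2
    omega
  · rw [not_nonempty_iff_eq_empty] at h
    rw [h]
    simp

/-- the instances of size at most `s` -/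
noncomputable def Ws (s : ℕ) : Finset Z2 :=
  ((univ : Finset (Fin (s + 1))) ×ˢ Fintype.piFinset (fun _ : Fin s =>
    Icc (-(2 ^ s : ℤ)) (2 ^ s) ×ˢ Icc (-(2 ^ s : ℤ)) (2 ^ s))).image
    (fun q => (List.ofFn q.2).take q.1)

theorem isz_cons (q : ℤ × ℤ) (w : Z2) :
    isz (q :: w) = (1 + Nat.size q.1.natAbs + Nat.size q.2.natAbs) + isz w := by
  simp [isz]

theorem len_le (w : Z2) : w.length ≤ isz w := by
  induction w with
  | nil => simp
  | cons q w ih =>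
    rw [isz_cons, List.length_cons]
    omega

theorem size_le (w : Z2) : ∀ q ∈ w, Nat.size q.1.natAbs ≤ isz w ∧ Nat.size q.2.natAbs ≤ isz w := by
  induction w with
  | nil => simp
  | cons p w ih =>
    intro q hq
    rw [isz_cons]
    rcases List.mem_cons.1 hq with rfl | h
    · omega
    · have := ih q h
      omega

theorem int_mem {a : ℤ} {s : ℕ} (h : Nat.size a.natAbs ≤ s) :
    a ∈ Icc (-(2 ^ s : ℤ)) (2 ^ s) := by
  have h1 : a.natAbs < 2 ^ s :=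
    (Nat.lt_size_self a.natAbs).trans_le (Nat.pow_le_pow_right (by norm_num) h)
  have h2 : |a| < 2 ^ s := by
    rw [Int.abs_eq_natAbs]
    exact_mod_cast h1
  have h3 := abs_lt.1 h2
  rw [mem_Icc]
  exact ⟨h3.1.le, h3.2.le⟩

theorem mem_Ws {w : Z2} {s : ℕ} (h : isz w ≤ s) : w ∈ Ws s := by
  unfold Ws
  rw [mem_image]
  have hl := (len_le w).trans h
  refine ⟨(⟨w.length, by omega⟩, fun i => w.getD i (0, 0)), ?_, ?_⟩
  · rw [mem_product]
    refine ⟨mem_univ _, ?_⟩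
    rw [Fintype.mem_piFinset]
    intro i
    rw [mem_product]
    by_cases hi : (i : ℕ) < w.length
    · simp only [List.getD_eq_getElem _ _ hi]
      have := size_le w _ (List.getElem_mem hi)
      exact ⟨int_mem (this.1.trans h), int_mem (this.2.trans h)⟩
    · simp only [List.getD_eq_default _ _ (not_lt.1 hi)]
      constructor <;> exact int_mem (by simp)
  · simp only
    apply List.ext_getElem
    · rw [List.length_take, List.length_ofFn]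
      omega
    · intro i h1 h2
      rw [List.getElem_take, List.getElem_ofFn]
      simp only
      rw [List.getD_eq_getElem _ _ h2]

theorem card_Ws (s : ℕ) : (Ws s).card ≤ 2 ^ (2 * s ^ 2 + 5 * s) := by
  unfold Ws
  refine card_image_le.trans ?_
  rw [card_product, Fintype.card_piFinset, card_univ, Fintype.card_fin]
  simp only [card_product, prod_const, card_univ, Fintype.card_fin, Int.card_Icc]
  have h1 : ((2 ^ s + 1 - -2 ^ s : ℤ)).toNat ≤ 2 ^ (s + 2) := by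
    have h2 : (2 ^ s + 1 - -2 ^ s : ℤ) = ((2 ^ s + 1 + 2 ^ s : ℕ) : ℤ) := by
      push_cast
      ring
    rw [h2, Int.toNat_natCast]
    have : 1 ≤ 2 ^ s := Nat.one_le_two_pow
    have e : 2 ^ (s + 2) = 4 * 2 ^ s := by ring
    omega
  have h2 : s + 1 ≤ 2 ^ s := Nat.lt_two_pow_self
  calc (s + 1) * ((2 ^ s + 1 - -2 ^ s : ℤ).toNat * (2 ^ s + 1 - -2 ^ s : ℤ).toNat) ^ s
      ≤ 2 ^ s * (2 ^ (s + 2) * 2 ^ (s + 2)) ^ s := by gcongr
    _ = 2 ^ (2 * s ^ 2 + 5 * s) := by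
      rw [← pow_add, ← pow_mul, ← pow_add]
      congr 1
      ring

/-- the sizes below `N` -/
noncomputable def Ss (A ℓ : ℕ) : Finset ℕ := (range (ℓ + 1)).filter (fun s => s ^ A ≤ ℓ)

theorem LS_card {A D : ℕ} (hA : 1 ≤ A) (N : ℕ) : (LS A D ∩ Set.Iio N).ncard ≤
    ∑ s ∈ Ss A (Nat.log 2 N), 2 ^ (2 * s ^ 2 + 5 * s) *
      (2 ^ (s ^ D) * (Nat.log 2 N + 1) + 1) := by
  have hsub : (LS A D ∩ Set.Iio N) ⊆ (((Ss A (Nat.log 2 N)).biUnion fun s =>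
      (Ws s).biUnion fun w => Es w (2 ^ (s ^ A)) (2 ^ (s ^ D)) N : Finset ℕ) : Set ℕ) := by
    rintro n ⟨⟨s, w, h1, h2, h3, h4⟩, hn⟩
    rw [Set.mem_Iio] at hn
    rw [mem_coe, mem_biUnion]
    have hs : s ^ A ≤ Nat.log 2 N := by
      have h5 : s ^ A ≤ Nat.log 2 n := Nat.le_log_of_pow_le (by norm_num) h2
      exact h5.trans (Nat.log_mono_right hn.le)
    refine ⟨s, ?_, ?_⟩
    · unfold Ss
      rw [mem_filter, mem_range]
      have : s ≤ s ^ A := Nat.le_self_pow (by omega) s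
      exact ⟨by omega, hs⟩
    · rw [mem_biUnion]
      refine ⟨w, mem_Ws h1, ?_⟩
      unfold Es
      rw [mem_filter, mem_range]
      exact ⟨hn, h2, h3, h4⟩
  refine (Set.ncard_le_ncard hsub (finite_toSet _)).trans ?_
  rw [Set.ncard_coe_finset]
  refine card_biUnion_le.trans (sum_le_sum fun s _ => ?_)
  refine card_biUnion_le.trans ?_
  refine (sum_le_sum fun w _ => Es_card w _ _ N).trans ?_
  rw [sum_const, smul_eq_mul]
  exact Nat.mul_le_mul (card_Ws s) le_rfl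

theorem term_le {A D ℓ s : ℕ} {η z : ℝ} (hη : 0 < η) (hz : 1 ≤ z) (hzl : z = (ℓ : ℝ) ^ (η / 2))
    (hA : ((D + 2 : ℕ) : ℝ) ≤ A * (η / 2)) (hs : s ^ A ≤ ℓ) :
    ((2 ^ (2 * s ^ 2 + 5 * s) * (2 ^ (s ^ D) * (ℓ + 1) + 1) : ℕ) : ℝ) ≤
      (ℓ + 1) * Real.exp (9 * z) := by
  have h1 : 2 ^ (2 * s ^ 2 + 5 * s) * (2 ^ (s ^ D) * (ℓ + 1) + 1) ≤
      (ℓ + 1) * 2 ^ (2 * s ^ 2 + 5 * s + 1 + s ^ D) := by
    have h2 : 2 ^ (s ^ D) * (ℓ + 1) + 1 ≤ 2 * (2 ^ (s ^ D) * (ℓ + 1)) := by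
      have h3 : 1 ≤ 2 ^ (s ^ D) := Nat.one_le_two_pow
      have h4 : 1 ≤ 2 ^ (s ^ D) * (ℓ + 1) := Nat.one_le_iff_ne_zero.2 (by positivity)
      omega
    calc 2 ^ (2 * s ^ 2 + 5 * s) * (2 ^ (s ^ D) * (ℓ + 1) + 1) ≤
        2 ^ (2 * s ^ 2 + 5 * s) * (2 * (2 ^ (s ^ D) * (ℓ + 1))) := Nat.mul_le_mul le_rfl h2
      _ = _ := by
        rw [pow_add _ (2 * s ^ 2 + 5 * s + 1), pow_add _ (2 * s ^ 2 + 5 * s)]
        ring
  have h2 : ((2 * s ^ 2 + 5 * s + 1 + s ^ D : ℕ) : ℝ) ≤ 9 * z := by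
    rcases Nat.eq_zero_or_pos s with h0 | h0
    · subst h0
      have h3 : (0 : ℕ) ^ D ≤ 1 := pow_le_one₀ (by norm_num) (by norm_num)
      have h4 : (2 * 0 ^ 2 + 5 * 0 + 1 + 0 ^ D : ℕ) ≤ 2 := by omega
      have h5 : ((2 * 0 ^ 2 + 5 * 0 + 1 + 0 ^ D : ℕ) : ℝ) ≤ 2 := by exact_mod_cast h4
      linarith
    · have h3 : 2 * s ^ 2 + 5 * s + 1 + s ^ D ≤ 9 * s ^ (D + 2) := by
        have a1 : s ^ 2 ≤ s ^ (D + 2) := Nat.pow_le_pow_right h0 (by omega)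
        have a2 : s ^ 1 ≤ s ^ (D + 2) := Nat.pow_le_pow_right h0 (by omega)
        have a3 : 1 ≤ s ^ (D + 2) := Nat.one_le_pow _ _ h0
        have a4 : s ^ D ≤ s ^ (D + 2) := Nat.pow_le_pow_right h0 (by omega)
        rw [pow_one] at a2
        omega
      have h4 : ((2 * s ^ 2 + 5 * s + 1 + s ^ D : ℕ) : ℝ) ≤ 9 * (s : ℝ) ^ (D + 2) := by
        exact_mod_cast h3
      refine h4.trans (mul_le_mul_of_nonneg_left ?_ (by norm_num))
      have hs1 : (1 : ℝ) ≤ s := by exact_mod_cast h0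
      calc (s : ℝ) ^ (D + 2) = (s : ℝ) ^ (((D + 2 : ℕ)) : ℝ) := (Real.rpow_natCast _ _).symm
        _ ≤ (s : ℝ) ^ ((A : ℝ) * (η / 2)) := Real.rpow_le_rpow_of_exponent_le hs1 hA
        _ = ((s : ℝ) ^ A) ^ (η / 2) := by
          rw [Real.rpow_mul (by linarith), Real.rpow_natCast]
        _ ≤ (ℓ : ℝ) ^ (η / 2) := by
          apply Real.rpow_le_rpow (by positivity) _ (by positivity)
          exact_mod_cast hs
        _ = z := hzl.symm
  have h3 : ((2 : ℝ)) ^ (2 * s ^ 2 + 5 * s + 1 + s ^ D) ≤ Real.exp (9 * z) := by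
    have h4 : (2 : ℝ) ≤ Real.exp 1 := by
      have := Real.add_one_le_exp 1
      linarith
    calc ((2 : ℝ)) ^ (2 * s ^ 2 + 5 * s + 1 + s ^ D) ≤
        (Real.exp 1) ^ (2 * s ^ 2 + 5 * s + 1 + s ^ D) := by gcongr
      _ = Real.exp (((2 * s ^ 2 + 5 * s + 1 + s ^ D : ℕ) : ℝ)) := by
        rw [← Real.exp_nat_mul, mul_one]
      _ ≤ _ := Real.exp_le_exp.2 h2
  calc ((2 ^ (2 * s ^ 2 + 5 * s) * (2 ^ (s ^ D) * (ℓ + 1) + 1) : ℕ) : ℝ) ≤
      (((ℓ + 1) * 2 ^ (2 * s ^ 2 + 5 * s + 1 + s ^ D) : ℕ) : ℝ) := by exact_mod_cast h1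
    _ = (ℓ + 1) * (2 : ℝ) ^ (2 * s ^ 2 + 5 * s + 1 + s ^ D) := by push_cast; ring
    _ ≤ _ := by gcongr

theorem final_ineq {η : ℝ} (hη : 0 < η) : ∃ Z : ℝ, 1 ≤ Z ∧ ∀ ℓ z x : ℝ, Z ≤ z → 1 ≤ ℓ →
    z = ℓ ^ (η / 2) → ℓ * Real.log 2 ≤ x →
    (ℓ + 1) * ((ℓ + 1) * Real.exp (9 * z)) ≤ Real.exp (x ^ η) := by
  have hl2 : 0 < Real.log 2 := Real.log_pos (by norm_num)
  obtain ⟨c, hc⟩ : ∃ c : ℝ, c = (Real.log 2) ^ η := ⟨_, rfl⟩
  have hc0 : 0 < c := by rw [hc]; positivity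
  refine ⟨max 1 ((11 + 4 / η) / c), le_max_left _ _, ?_⟩
  intro ℓ z x hz hl hzl hx
  have hz1 : 1 ≤ z := (le_max_left _ _).trans hz
  have hz2 : (11 + 4 / η) / c ≤ z := (le_max_right _ _).trans hz
  rw [div_le_iff₀ hc0] at hz2
  have h1 : ℓ + 1 = Real.exp (Real.log (ℓ + 1)) := (Real.exp_log (by linarith)).symm
  have h2 : Real.log (ℓ + 1) ≤ 1 + z * (2 / η) := by
    have h3 : Real.log (ℓ + 1) ≤ Real.log (2 * ℓ) := Real.log_le_log (by linarith) (by linarith)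
    rw [Real.log_mul (by norm_num) (by linarith)] at h3
    have h4 : Real.log 2 ≤ 1 := by
      have := Real.log_two_lt_d9
      linarith
    have h5 := Real.log_le_rpow_div (x := ℓ) (ε := η / 2) (by linarith) (by positivity)
    rw [← hzl] at h5
    have e : z / (η / 2) = z * (2 / η) := by field_simp
    rw [e] at h5
    linarith
  have h3 : c * z ^ 2 ≤ x ^ η := by
    have e : c * z ^ 2 = (ℓ * Real.log 2) ^ η := by
      rw [Real.mul_rpow (by linarith) hl2.le, ← hc, hzl, ← Real.rpow_natCast, ← Real.rpow_mul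
        (by linarith)]
      push_cast
      rw [div_mul_cancel₀ _ (by norm_num)]
      ring
    rw [e]
    exact Real.rpow_le_rpow (by positivity) hx hη.le
  have e : (ℓ + 1) * ((ℓ + 1) * Real.exp (9 * z)) =
      Real.exp (Real.log (ℓ + 1) + (Real.log (ℓ + 1) + 9 * z)) := by
    rw [Real.exp_add, Real.exp_add, ← h1]
  rw [e, Real.exp_le_exp]
  refine le_trans ?_ h3
  have h4 : (11 + 4 / η) * z ≤ c * z ^ 2 := by nlinarith
  have h5 : z * (2 / η) * 2 = 4 / η * z := by ring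
  nlinarith

end CNT

theorem cntS : CNT := by
  intro η D hη
  obtain ⟨Z, hZ1, hZ⟩ := CNT.final_ineq hη
  refine ⟨⌈((D + 2 : ℕ) : ℝ) / (η / 2)⌉₊ + 1, fun A hA => ?_⟩
  have hA1 : 1 ≤ A := by omega
  have hAD : ((D + 2 : ℕ) : ℝ) ≤ A * (η / 2) := by
    rw [← div_le_iff₀ (by positivity)]
    refine (Nat.le_ceil _).trans ?_
    exact_mod_cast (by omega : ⌈((D + 2 : ℕ) : ℝ) / (η / 2)⌉₊ ≤ A)
  have ht := tendsto_rpow_atTop (y := η / 2) (by positivity)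
  obtain ⟨X0, hX0⟩ := (Filter.tendsto_atTop_atTop.1 ht) Z
  refine ⟨2 ^ (⌈X0⌉₊ + 1), fun N hN => ?_⟩
  obtain ⟨ℓ, hℓ⟩ : ∃ ℓ : ℕ, ℓ = Nat.log 2 N := ⟨_, rfl⟩
  have hNpos : 0 < N := lt_of_lt_of_le (by positivity) hN
  have hl1 : ⌈X0⌉₊ + 1 ≤ ℓ := by
    rw [hℓ]
    exact Nat.le_log_of_pow_le (by norm_num) hN
  have hl2 : (1 : ℝ) ≤ ℓ := by exact_mod_cast (by omega : 1 ≤ ℓ)
  have hl3 : X0 ≤ ℓ := by
    refine (Nat.le_ceil _).trans ?_
    exact_mod_cast (by omega : ⌈X0⌉₊ ≤ ℓ)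
  have hz := hX0 (ℓ : ℝ) hl3
  have hx : (ℓ : ℝ) * Real.log 2 ≤ Real.log N := by
    rw [← Real.log_pow]
    apply Real.log_le_log (by positivity)
    have : 2 ^ ℓ ≤ N := by
      rw [hℓ]
      exact Nat.pow_log_le_self 2 hNpos.ne'
    exact_mod_cast this
  have h1 := CNT.LS_card (A := A) (D := D) hA1 N
  rw [← hℓ] at h1
  have h2 : ((LS A D ∩ Set.Iio N).ncard : ℝ) ≤
      ((∑ s ∈ CNT.Ss A ℓ, 2 ^ (2 * s ^ 2 + 5 * s) * (2 ^ (s ^ D) * (ℓ + 1) + 1) : ℕ) : ℝ) := by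
    exact_mod_cast h1
  refine h2.trans (le_trans ?_ (hZ ℓ ((ℓ : ℝ) ^ (η / 2)) (Real.log N) hz hl2 rfl hx))
  rw [Nat.cast_sum]
  have h3 : ∀ s ∈ CNT.Ss A ℓ,
      ((2 ^ (2 * s ^ 2 + 5 * s) * (2 ^ (s ^ D) * (ℓ + 1) + 1) : ℕ) : ℝ) ≤
      (ℓ + 1) * Real.exp (9 * (ℓ : ℝ) ^ (η / 2)) := by
    intro s hs
    have hs' : s ^ A ≤ ℓ := by
      unfold CNT.Ss at hs
      exact (mem_filter.1 hs).2
    exact CNT.term_le hη (hZ1.trans hz) rfl hAD hs'
  refine (sum_le_sum h3).trans ?_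
  rw [sum_const, nsmul_eq_mul]
  apply mul_le_mul_of_nonneg_right _ (by positivity)
  have h4 : (CNT.Ss A ℓ).card ≤ ℓ + 1 := by
    unfold CNT.Ss
    refine (card_filter_le _ _).trans ?_
    rw [card_range]
  exact_mod_cast h4

end Pool.Agent.TH997.UP
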