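import Pool.Agent.TH997.UP.Stm

/-! Clearing the denominators of a linear recurrence. -/

set_option autoImplicit false

namespace Pool.Agent.TH997.UP

open Finset Pool.Agent.H612.LR
open scoped Classical

namespace SCL

/-- the product of all denominators -/
def den (l : Rec) : ℕ := (l.map fun p => p.1.den * p.2.den).prod

lemma sz_cons (p : ℚ × ℚ) (l : Rec) : sz (p :: l) = 1 + (Nat.size p.1.num.natAbs +
    (Nat.size p.1.den + (Nat.size p.2.num.natAbs + Nat.size p.2.den))) + sz l := by
  unfold sz szList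
  simp only [List.flatMap_cons, List.length_append, List.length_cons, Nat.size_eq_bits_len]
  omega

lemma len_le (l : Rec) : l.length ≤ sz l := by
  induction l with
  | nil => simp
  | cons p l ih =>
    rw [sz_cons, List.length_cons]
    omega

lemma den_pos (l : Rec) : 0 < den l := by
  induction l with
  | nil => simp [den]
  | cons p l ih =>
    unfold den at ih ⊢
    rw [List.map_cons, List.prod_cons]
    have := p.1.den_pos
    have := p.2.den_pos
    positivity

lemma den_le (l : Rec) : den l ≤ 2 ^ sz l := by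
  induction l with
  | nil => exact Nat.one_le_two_pow
  | cons p l ih =>
    rw [sz_cons]
    unfold den at ih ⊢
    rw [List.map_cons, List.prod_cons]
    have h1 : p.1.den ≤ 2 ^ Nat.size p.1.den := (Nat.lt_size_self _).le
    have h2 : p.2.den ≤ 2 ^ Nat.size p.2.den := (Nat.lt_size_self _).le
    calc p.1.den * p.2.den * (l.map fun p => p.1.den * p.2.den).prod ≤
        2 ^ Nat.size p.1.den * 2 ^ Nat.size p.2.den * 2 ^ sz l :=
          Nat.mul_le_mul (Nat.mul_le_mul h1 h2) ih
      _ = 2 ^ (Nat.size p.1.den + Nat.size p.2.den + sz l) := by rw [← pow_add, ← pow_add]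
      _ ≤ _ := Nat.pow_le_pow_right (by norm_num) (by omega)

lemma size_le {p : ℚ × ℚ} {l : Rec} (h : p ∈ l) : Nat.size p.1.num.natAbs ≤ sz l ∧
    Nat.size p.2.num.natAbs ≤ sz l := by
  induction l with
  | nil => simp at h
  | cons q l ih =>
    rw [sz_cons]
    rw [List.mem_cons] at h
    rcases h with rfl | h
    · omega
    · have := ih h
      omega

lemma den_dvd {p : ℚ × ℚ} {l : Rec} (h : p ∈ l) : p.1.den ∣ den l ∧ p.2.den ∣ den l := by
  have h1 : p.1.den * p.2.den ∣ den l := by
    unfold den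
    exact List.dvd_prod (List.mem_map.2 ⟨p, h, rfl⟩)
  exact ⟨(Dvd.intro _ rfl).trans h1, (Dvd.intro_left _ rfl).trans h1⟩

/-- the integer `q * D ^ (i + 1)` -/
def clr (D : ℕ) (q : ℚ) (i : ℕ) : ℤ := q.num * (D / q.den : ℕ) * (D : ℤ) ^ i

lemma clr_eq {D : ℕ} {q : ℚ} (h : q.den ∣ D) (i : ℕ) :
    ((clr D q i : ℤ) : ℚ) = q * (D : ℚ) ^ (i + 1) := by
  obtain ⟨c, rfl⟩ := h
  have h0 : 0 < q.den := q.den_pos
  have h1 : (q.den : ℚ) ≠ 0 := by exact_mod_cast h0.ne'
  unfold clr
  rw [Nat.mul_div_cancel_left _ h0]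
  have h2 : (q.num : ℚ) = q * q.den := (Rat.mul_den_eq_num q).symm
  push_cast
  rw [h2]
  ring

lemma clr_size {D s : ℕ} {q : ℚ} (hD : D ≤ 2 ^ s) (hq : Nat.size q.num.natAbs ≤ s) (i : ℕ) :
    Nat.size (clr D q i).natAbs ≤ s * (i + 2) := by
  rw [Nat.size_le]
  unfold clr
  rw [Int.natAbs_mul, Int.natAbs_mul, Int.natAbs_pow, Int.natAbs_natCast, Int.natAbs_natCast]
  have h1 : q.num.natAbs < 2 ^ s := Nat.size_le.1 hq
  have h2 : D / q.den ≤ 2 ^ s := (Nat.div_le_self _ _).trans hD
  have h3 : D ^ i ≤ (2 ^ s) ^ i := Nat.pow_le_pow_left hD i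
  calc q.num.natAbs * (D / q.den) * D ^ i ≤ q.num.natAbs * 2 ^ s * (2 ^ s) ^ i :=
        Nat.mul_le_mul (Nat.mul_le_mul_left _ h2) h3
    _ < 2 ^ s * 2 ^ s * (2 ^ s) ^ i := by
        apply Nat.mul_lt_mul_of_pos_right _ (by positivity)
        exact Nat.mul_lt_mul_of_pos_right h1 (by positivity)
    _ = 2 ^ (s * (i + 2)) := by rw [pow_mul, pow_add, sq]; ring

/-- the integer instance -/
def ins (l : Rec) : Z2 := (List.range l.length).map fun i =>
  (clr (den l) (coef l i) i, clr (den l) (ini l i) i)

lemma ins_length (l : Rec) : (ins l).length = l.length := by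
  simp [ins]

lemma ins_getD (l : Rec) {i : ℕ} (hi : i < l.length) : (ins l).getD i (0, 0) =
    (clr (den l) (coef l i) i, clr (den l) (ini l i) i) := by
  rw [List.getD_eq_getElem _ _ (by rw [ins_length]; exact hi)]
  simp [ins]

lemma getD_mem (l : Rec) {i : ℕ} (hi : i < l.length) : l.getD i (0, 0) ∈ l := by
  rw [List.getD_eq_getElem _ _ hi]
  exact List.getElem_mem hi

lemma seq_eq (l : Rec) (n : ℕ) :
    ((iseq (ins l) n : ℤ) : ℚ) = (den l : ℚ) ^ (n + 1) * seq l n := by
  induction n using Nat.strong_induction_on with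
  | _ n ih =>
    rw [iseq, seq, ins_length]
    split_ifs with h
    · rw [ins_getD l h]
      change ((clr (den l) (ini l n) n : ℤ) : ℚ) = _
      rw [clr_eq (q := ini l n) (den_dvd (getD_mem l h)).2, mul_comm]
    · rw [← Finset.sum_range (fun i => ((ins l).getD i (0, 0)).1 * iseq (ins l) (n - 1 - i)),
        ← Finset.sum_range (fun i => coef l i * seq l (n - 1 - i)), Finset.mul_sum,
        Int.cast_sum]
      refine Finset.sum_congr rfl fun i hi => ?_
      rw [Finset.mem_range] at hi
      rw [Int.cast_mul, ih (n - 1 - i) (by omega), ins_getD l hi]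
      change ((clr (den l) (coef l i) i : ℤ) : ℚ) * _ = _
      rw [clr_eq (q := coef l i) (den_dvd (getD_mem l hi)).1]
      have e : n + 1 = (i + 1) + (n - 1 - i + 1) := by omega
      conv_rhs => rw [e, pow_add]
      ring

end SCL

theorem scl : SCL := by
  intro l hl
  refine ⟨SCL.ins l, SCL.ins_length l, ?_, fun n => ?_⟩
  · have hk1 : 1 ≤ l.length := by
      rcases l with _ | ⟨p, l⟩
      · exact absurd rfl hl
      · simp
    have hks : l.length ≤ sz l := SCL.len_le l
    set s := sz l with hs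
    set k := l.length with hk
    have h1 : isz (SCL.ins l) ≤ k * (1 + s * (k + 1) + s * (k + 1)) := by
      unfold isz
      have h2 := List.sum_le_card_nsmul ((SCL.ins l).map fun q => 1 + Nat.size q.1.natAbs +
        Nat.size q.2.natAbs) (1 + s * (k + 1) + s * (k + 1)) ?_
      · rw [List.length_map, SCL.ins_length, smul_eq_mul] at h2
        exact h2
      · intro x hx
        rw [List.mem_map] at hx
        obtain ⟨q, hq, rfl⟩ := hx
        unfold SCL.ins at hq
        rw [List.mem_map] at hq
        obtain ⟨i, hi, rfl⟩ := hq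
        rw [List.mem_range] at hi
        have hm := SCL.size_le (SCL.getD_mem l hi)
        have h3 := SCL.clr_size (q := coef l i) (SCL.den_le l) hm.1 i
        have h4 := SCL.clr_size (q := ini l i) (SCL.den_le l) hm.2 i
        have h5 : s * (i + 2) ≤ s * (k + 1) := Nat.mul_le_mul_left _ (by omega)
        rw [← hs] at h3 h4
        have h6 := h3.trans h5
        have h7 := h4.trans h5
        simp only
        omega
    refine h1.trans ?_
    have hs1 : 1 ≤ s := hk1.trans hks
    calc k * (1 + s * (k + 1) + s * (k + 1)) ≤ s * (1 + s * (s + 1) + s * (s + 1)) := by gcongr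
      _ ≤ 10 * s ^ 3 := by
          have : s ≤ s ^ 3 := Nat.le_self_pow (by norm_num) s
          have h6 : s ^ 2 ≤ s ^ 3 := Nat.pow_le_pow_right hs1 (by norm_num)
          nlinarith
  · have h1 := SCL.seq_eq l n
    have h2 : (0 : ℚ) < (SCL.den l : ℚ) ^ (n + 1) := by
      have : (0 : ℚ) < SCL.den l := by exact_mod_cast SCL.den_pos l
      positivity
    constructor
    · intro h
      have h3 : ((iseq (SCL.ins l) n : ℤ) : ℚ) ≤ 0 := by exact_mod_cast h
      rw [h1] at h3
      by_contra hcon
      rw [not_le] at hcon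
      have := mul_pos h2 hcon
      linarith
    · intro h
      have h3 : ((iseq (SCL.ins l) n : ℤ) : ℚ) ≤ 0 := by
        rw [h1]
        exact mul_nonpos_of_nonneg_of_nonpos h2.le h
      exact_mod_cast h3

end Pool.Agent.TH997.UP
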