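import Pool.Agent.TH997.UP.Stm

/-!
# Assembly of the abstract counting theorem (helper979 for helper997)
-/

set_option autoImplicit false

namespace Pool.Agent.TH997.UP

open Finset Pool.Agent.H612.LR
open scoped Classical

/-- The basic parameter is at least two. -/
theorem Q_two {K : Type} [Field K] [NumberField K] {φ : K →+* ℂ} {I : Finset K} {γ : K → K}
    {v : NumberField.FinitePlace K} {p N' k B : ℕ} {f : ℕ → ℝ}
    (h : Data K φ I γ v p N' k B f) : 2 ≤ B * (k + 1).factorial := by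
  have hk : 1 ≤ k := (Finset.card_pos.2 h.ne).trans_le h.card
  have h1 : 2 ≤ (k + 1).factorial := by
    have h2 := Nat.self_le_factorial (k + 1)
    omega
  calc 2 ≤ 1 * (k + 1).factorial := by omega
    _ ≤ B * (k + 1).factorial := Nat.mul_le_mul_right _ h.B1

theorem act : WND → WIN → ACT := by
  intro hW hI K _ _ φ I γ v p N' k B f hD N
  have hQ : 2 ≤ B * (k + 1).factorial := Q_two hD
  have hW' := hW K φ I γ v p N' k B f hD
  generalize B * (k + 1).factorial = Q at hQ hW' ⊢
  have hpos : ∀ n : ℕ, 1 ≤ Q ^ n := fun n => Nat.one_le_pow _ _ (by omega)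
  have h1 := hI (fun t => f t ≤ 0) (Q ^ 6) (Q ^ 4) (Q ^ 8) (hpos 4) (hpos 6)
    (fun X hX => by convert hW' X hX) N
  have h2 : 2 * Q ^ 8 * Q ^ 4 ≤ Q ^ 13 := by
    have h3 : Q ^ 13 = Q * Q ^ 8 * Q ^ 4 := by ring
    rw [h3]
    exact Nat.mul_le_mul_right _ (Nat.mul_le_mul_right _ hQ)
  refine le_trans ?_ (h1.trans (Nat.mul_le_mul_right _ h2))
  apply le_of_eq
  congr 1

end Pool.Agent.TH997.UP
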