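import Pool.Agent.TH997.UP.Stm

/-!
# Many zeros of a `p`-adic exponential sum force smallness (number fields) (helper81)
-/

set_option autoImplicit false

namespace Pool.Agent.TH997.UP

open Finset Pool.Agent.H612.LR
open scoped Classical

namespace C9K

open Polynomial

/-- `p`-adic valuation of `i!` for odd `p`. -/
theorem fact_le {p : ℕ} (hp : p.Prime) (h3 : 3 ≤ p) (i : ℕ) :
    2 * i.factorial.factorization p ≤ i := by
  have := Fact.mk hp
  have h := sub_one_mul_padicValNat_factorial (p := p) i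
  rw [Nat.factorization_def _ hp]
  have h2 : 2 * padicValNat p i.factorial ≤ (p - 1) * padicValNat p i.factorial :=
    Nat.mul_le_mul_right _ (by omega)
  omega

variable {K : Type} [Field K] [NumberField K] (v : NumberField.FinitePlace K)

lemma int_le (n : ℤ) : v (n : K) ≤ 1 :=
  IsNonarchimedean.apply_intCast_le_one (NumberField.FinitePlace.add_le v)

lemma sum_le {ι : Type*} (s : Finset ι) (f : ι → K) {A : ℝ} (hA : 0 ≤ A)
    (h : ∀ i ∈ s, v (f i) ≤ A) : v (∑ i ∈ s, f i) ≤ A := by
  induction s using Finset.induction_on with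
  | empty => simpa using hA
  | insert a s ha ih =>
    rw [Finset.sum_insert ha]
    exact (v.add_le _ _).trans (max_le (h a (mem_insert_self a s))
      (ih fun i hi => h i (mem_insert_of_mem hi)))

lemma coprime_one {p m : ℕ} (hp : p.Prime) (hv : v (p : K) < 1) (hm : ¬ p ∣ m) :
    v (m : K) = 1 := by
  have hc : IsCoprime (p : ℤ) (m : ℤ) :=
    Nat.isCoprime_iff_coprime.2 ((Nat.Prime.coprime_iff_not_dvd hp).2 hm)
  obtain ⟨a, b, hab⟩ := hc
  have h1 : (a : K) * (p : K) + (b : K) * (m : K) = 1 := by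
    have := congrArg (Int.cast : ℤ → K) hab
    push_cast at this
    exact this
  have h2 := v.add_le ((a : K) * p) ((b : K) * m)
  rw [h1, map_one, map_mul, map_mul] at h2
  have ha := int_le v a
  have hb := int_le v b
  have hm1 : v (m : K) ≤ 1 := by simpa using int_le v (m : ℤ)
  have hp0 : 0 ≤ v (p : K) := apply_nonneg v _
  have hm0 : 0 ≤ v (m : K) := apply_nonneg v _
  have h3 : v (a : K) * v (p : K) < 1 := by
    have : v (a : K) * v (p : K) ≤ 1 * v (p : K) := mul_le_mul_of_nonneg_right ha hp0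
    linarith
  have h4 : 1 ≤ v (b : K) * v (m : K) := (le_max_iff.1 h2).resolve_left (not_le.2 h3)
  have h5 : v (b : K) * v (m : K) ≤ 1 * v (m : K) := mul_le_mul_of_nonneg_right hb hm0
  linarith

lemma fact_val {p : ℕ} (hp : p.Prime) (hv : v (p : K) < 1) (i : ℕ) :
    v ((i.factorial : ℕ) : K) = v (p : K) ^ i.factorial.factorization p := by
  have h1 : p ^ i.factorial.factorization p * (i.factorial / p ^ i.factorial.factorization p) =
      i.factorial := Nat.ordProj_mul_ordCompl_eq_self i.factorial p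
  have h2 := coprime_one v hp hv (Nat.not_dvd_ordCompl hp (Nat.factorial_ne_zero i))
  have h3 : ((i.factorial : ℕ) : K) = (p : K) ^ i.factorial.factorization p *
      ((i.factorial / p ^ i.factorial.factorization p : ℕ) : K) := by
    exact_mod_cast congrArg (Nat.cast : ℕ → K) h1.symm
  rw [h3, map_mul, map_pow, h2, mul_one]

/-- the binomial expansion -/
lemma expand (I : Finset K) (c x : K → K) {y N : ℕ} (hy : y ≤ N) :
    ∑ μ ∈ I, c μ * (1 + x μ) ^ y = ∑ i ∈ range (N + 1), (∑ μ ∈ I, c μ * x μ ^ i) /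
      ((i.factorial : ℕ) : K) * (((descPochhammer ℤ i).eval (y : ℤ) : ℤ) : K) := by
  have h1 : ∀ i, (∑ μ ∈ I, c μ * x μ ^ i) / ((i.factorial : ℕ) : K) *
      (((descPochhammer ℤ i).eval (y : ℤ) : ℤ) : K) =
      (∑ μ ∈ I, c μ * x μ ^ i) * (y.choose i : K) := by
    intro i
    rw [descPochhammer_eval_eq_descFactorial, Nat.descFactorial_eq_factorial_mul_choose]
    have h2 : ((i.factorial : ℕ) : K) ≠ 0 := by exact_mod_cast Nat.factorial_ne_zero i
    push_cast
    field_simp
  rw [Finset.sum_congr rfl fun i _ => h1 i]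
  have h2 : ∑ i ∈ range (N + 1), (∑ μ ∈ I, c μ * x μ ^ i) * (y.choose i : K) =
      ∑ i ∈ range (y + 1), (∑ μ ∈ I, c μ * x μ ^ i) * (y.choose i : K) := by
    symm
    refine Finset.sum_subset (Finset.range_subset_range.2 (by omega)) fun i _ hi => ?_
    rw [Finset.mem_range] at hi
    rw [Nat.choose_eq_zero_of_lt (by omega), Nat.cast_zero, mul_zero]
  rw [h2]
  simp only [Finset.sum_mul]
  rw [Finset.sum_comm]
  refine Finset.sum_congr rfl fun μ _ => ?_
  rw [add_comm, add_pow, Finset.mul_sum]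
  refine Finset.sum_congr rfl fun i _ => ?_
  rw [one_pow]
  ring

end C9K

open Polynomial C9K in
theorem c9k : C9K := by
  intro K _ _ v p I c x L A hp h3 hv hA hI hL l
  have hp0 : 0 < v (p : K) :=
    NumberField.FinitePlace.pos_iff.2 (by exact_mod_cast hp.ne_zero)
  obtain ⟨N, hN⟩ : ∃ N, N = l + L.sup id := ⟨_, rfl⟩
  have hLN : ∀ y ∈ L, y ≤ N := fun y hy =>
    (Finset.le_sup (f := id) hy).trans (by omega)
  set b : ℕ → K := fun i => (∑ μ ∈ I, c μ * x μ ^ i) / ((i.factorial : ℕ) : K) with hb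
  have hβ : ∀ i, v (∑ μ ∈ I, c μ * x μ ^ i) ≤ A * v (p : K) ^ i := by
    intro i
    refine sum_le v I _ (by positivity) fun μ hμ => ?_
    rw [map_mul, map_pow]
    exact mul_le_mul (hI μ hμ).1 (pow_le_pow_left₀ (apply_nonneg v _) (hI μ hμ).2 i)
      (pow_nonneg (apply_nonneg v _) _) hA
  have hbv : ∀ i, L.card ≤ i → v (b i) ≤ A * v (p : K) ^ (L.card / 2) := by
    intro i hi
    have h4 := fact_le hp h3 i
    have h5 : v (b i) = v (∑ μ ∈ I, c μ * x μ ^ i) / v (p : K) ^ i.factorial.factorization p := by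
      rw [hb]
      simp only
      rw [map_div₀, fact_val v hp hv]
    rw [h5, div_le_iff₀ (by positivity)]
    refine (hβ i).trans ?_
    rw [mul_assoc, ← pow_add]
    exact mul_le_mul_of_nonneg_left (pow_le_pow_of_le_one hp0.le hv.le (by omega)) hA
  -- division
  set Q : ℤ[X] := ∏ y ∈ L, (X - C (y : ℤ)) with hQ
  have hQm : Q.Monic := monic_prod_of_monic _ _ fun y _ => monic_X_sub_C _
  have hQd : Q.natDegree = L.card := by
    rw [hQ, natDegree_prod_of_monic _ _ fun y _ => monic_X_sub_C _,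
      Finset.sum_congr rfl fun (y : ℕ) _ => natDegree_X_sub_C (y : ℤ), Finset.sum_const,
      smul_eq_mul, mul_one]
  have hQd' : Q.degree = (L.card : WithBot ℕ) := by
    rw [degree_eq_natDegree hQm.ne_zero, hQd]
  have hQ0 : ∀ y ∈ L, Q.eval (y : ℤ) = 0 := by
    intro y hy
    rw [hQ, eval_prod]
    exact Finset.prod_eq_zero hy (by simp)
  set R : K[X] := ∑ i ∈ range (N + 1), C (b i) *
    ((descPochhammer ℤ i) %ₘ Q).map (Int.castRingHom K) with hR
  have hRe : ∀ y : ℕ, R.eval (y : K) = ∑ i ∈ range (N + 1), b i *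
      ((((descPochhammer ℤ i) %ₘ Q).eval (y : ℤ) : ℤ) : K) := by
    intro y
    rw [hR, eval_finsetSum]
    refine Finset.sum_congr rfl fun i _ => ?_
    rw [eval_mul, eval_C, eval_natCast_map]
    rfl
  have hdec : ∀ y : ℕ, y ≤ N → ∑ μ ∈ I, c μ * (1 + x μ) ^ y = R.eval (y : K) +
      ((Q.eval (y : ℤ) : ℤ) : K) * ∑ i ∈ range (N + 1), b i *
        ((((descPochhammer ℤ i) /ₘ Q).eval (y : ℤ) : ℤ) : K) := by
    intro y hy
    rw [expand I c x hy, hRe, Finset.mul_sum, ← Finset.sum_add_distrib]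
    refine Finset.sum_congr rfl fun i _ => ?_
    have h4 : (descPochhammer ℤ i).eval (y : ℤ) = ((descPochhammer ℤ i) %ₘ Q).eval (y : ℤ) +
        Q.eval (y : ℤ) * ((descPochhammer ℤ i) /ₘ Q).eval (y : ℤ) := by
      rw [← eval_mul, ← eval_add, modByMonic_add_div]
    rw [h4]
    push_cast
    ring
  have hR0 : R = 0 := by
    refine eq_zero_of_degree_lt_of_eval_index_eq_zero (s := L) (v := fun y : ℕ => (y : K))
      (fun a _ b _ hab => Nat.cast_injective hab) ?_ (fun y hy => ?_)
    · rw [degree_lt_iff_coeff_zero]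
      intro m hm
      rw [hR, finsetSum_coeff]
      refine Finset.sum_eq_zero fun i _ => ?_
      rw [coeff_C_mul, coeff_map]
      have h5 : ((descPochhammer ℤ i) %ₘ Q).coeff m = 0 := by
        apply coeff_eq_zero_of_degree_lt
        refine (degree_modByMonic_lt _ hQm).trans_le ?_
        rw [hQd']
        exact_mod_cast hm
      rw [h5, map_zero, mul_zero]
    · have h4 := hdec y (hLN y hy)
      rw [hL y hy, hQ0 y hy, Int.cast_zero, zero_mul, add_zero] at h4
      exact h4.symm
  rw [hdec l (by omega), hR0, eval_zero, zero_add, map_mul]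
  have h6 : v (∑ i ∈ range (N + 1), b i * ((((descPochhammer ℤ i) /ₘ Q).eval (l : ℤ) : ℤ) : K)) ≤
      A * v (p : K) ^ (L.card / 2) := by
    refine sum_le v _ _ (by positivity) fun i _ => ?_
    by_cases hi : i < L.card
    · have h7 : (descPochhammer ℤ i) /ₘ Q = 0 := by
        rw [divByMonic_eq_zero_iff hQm, hQd', degree_eq_natDegree (monic_descPochhammer ℤ i).ne_zero,
          descPochhammer_natDegree]
        exact_mod_cast hi
      rw [h7, eval_zero, Int.cast_zero, mul_zero, map_zero]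
      positivity
    · rw [map_mul]
      calc v (b i) * v ((((descPochhammer ℤ i) /ₘ Q).eval (l : ℤ) : ℤ) : K)
          ≤ v (b i) * 1 := mul_le_mul_of_nonneg_left (int_le v _) (apply_nonneg v _)
        _ = v (b i) := mul_one _
        _ ≤ _ := hbv i (not_lt.1 hi)
  calc v ((Q.eval (l : ℤ) : ℤ) : K) * v (∑ i ∈ range (N + 1), b i *
        ((((descPochhammer ℤ i) /ₘ Q).eval (l : ℤ) : ℤ) : K))
      ≤ 1 * v (∑ i ∈ range (N + 1), b i *
        ((((descPochhammer ℤ i) /ₘ Q).eval (l : ℤ) : ℤ) : K)) :=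
        mul_le_mul_of_nonneg_right (int_le v _) (apply_nonneg v _)
    _ ≤ _ := by rw [one_mul]; exact h6

end Pool.Agent.TH997.UP
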