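import Pool.Agent.TH997.UP.Stm
import Pool.Agent.H612.LR.T_FLD
import Pool.Agent.H612.LR.T_TOR
import Pool.Agent.H612.LR.T_TORK
import Pool.Agent.H612.LR.T_GAPM
import Pool.Agent.H612.LR.T_HROOT

/-!
# Counting theorem for recurrences: assembly over residue classes
-/

set_option autoImplicit false

namespace Pool.Agent.TH997.UP.CL

open Finset Pool.Agent.H612.LR
open scoped Classical

/-- `x ^ q - 1` is a multiple of `x - 1` -/
theorem v_pow_sub_one {K : Type} [Field K] [NumberField K] (v : NumberField.FinitePlace K) (x : K)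
    (hx : v x = 1) (q : ℕ) : v (x ^ q - 1) ≤ v (x - 1) := by
  induction q with
  | zero => simp
  | succ q ih =>
    have e : x ^ (q + 1) - 1 = x * (x ^ q - 1) + (x - 1) := by ring
    rw [e]
    refine (NumberField.FinitePlace.add_le v _ _).trans (max_le ?_ le_rfl)
    rw [map_mul, hx, one_mul]
    exact ih

theorem isRoot_of_rootK {K : Type} [Field K] [NumberField K] (φ : K →+* ℂ) (l : Rec) (α : K)
    (h : RootK K l α) : IsRoot l (φ α) := by
  unfold RootK at h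
  unfold IsRoot
  rw [← map_pow, h, map_sum]
  refine Finset.sum_congr rfl fun i _ => ?_
  rw [map_mul, map_pow]
  congr 1
  simp

/-- the coefficients of the class of `μ` -/
noncomputable def Cf {K : Type} [Field K] (Λ : Finset K) (γ : K → K) (q0 r : ℕ) (μ : K) : K :=
  ∑ α ∈ Λ.filter (fun α => α ^ q0 = μ), γ α * α ^ r

theorem sum_Cf {K : Type} [Field K] (Λ : Finset K) (γ : K → K) (q0 r t : ℕ) :
    ∑ μ ∈ (Λ.image (fun α => α ^ q0)).filter (fun μ => Cf Λ γ q0 r μ ≠ 0), Cf Λ γ q0 r μ * μ ^ t =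
      ∑ α ∈ Λ, γ α * α ^ (r + q0 * t) := by
  rw [Finset.sum_filter_of_ne (fun μ _ h => left_ne_zero_of_mul h)]
  have := Finset.sum_fiberwise_of_maps_to (s := Λ) (t := Λ.image (fun α => α ^ q0))
    (g := fun α => α ^ q0) (fun α h => Finset.mem_image_of_mem _ h)
    (fun α => γ α * α ^ (r + q0 * t))
  rw [← this]
  refine Finset.sum_congr rfl fun μ _ => ?_
  unfold Cf
  rw [Finset.sum_mul]
  refine Finset.sum_congr rfl fun α hα => ?_
  rw [Finset.mem_filter] at hα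
  rw [← hα.2, pow_add, pow_mul]
  ring

theorem mkData (l : Rec) (_hl : 1 ≤ l.length) (hpos : UltPositive l) (K : Type) [Field K]
    [NumberField K] (φ : K →+* ℂ) (M : ℕ) (hM : 4 ≤ M) (hkM : l.length ≤ M)
    (hdeg : Module.finrank ℚ K ≤ M) (q0 : ℕ) (hq1 : 1 ≤ q0) (hqM : q0 ≤ M)
    (hq : ∀ z w : ℂ, IsRoot l z → IsRoot l w → z ≠ 0 → w ≠ 0 → ∀ t : ℕ, 1 ≤ t → z ^ t = w ^ t →
      z ^ q0 = w ^ q0)
    (v : NumberField.FinitePlace K) (p N' : ℕ) (hp : p.Prime) (hp3 : 3 ≤ p) (hvp : v (p : K) < 1)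
    (hN1 : 1 ≤ N') (hNM : N' ≤ M)
    (hv : ∀ α : K, α ≠ 0 → RootK K l α → v α = 1 ∧ v (α ^ N' - 1) ≤ v (p : K))
    (Λ : Finset K) (γ : K → K) (hΛ : Λ.card ≤ l.length) (hΛr : ∀ α ∈ Λ, α ≠ 0 ∧ RootK K l α)
    (hrep : ∀ n, l.length ≤ n → ((seq l n : ℚ) : K) = ∑ α ∈ Λ, γ α * α ^ n)
    (hh : ∀ α ∈ Λ, Height.logHeight₁ α ≤ (M : ℝ) ∧ Height.logHeight₁ (γ α) ≤ (M : ℝ))
    (hgap : ∀ z w : ℂ, IsRoot l z → IsRoot l w → ‖z‖ < ‖w‖ → ‖z‖ ≤ ‖w‖ * (1 - 1 / (M : ℝ)))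
    (r : ℕ) (hr : l.length ≤ r) (hr2 : r ≤ 2 * M) :
    Data K φ ((Λ.image (fun α => α ^ q0)).filter (fun μ => Cf Λ γ q0 r μ ≠ 0)) (Cf Λ γ q0 r) v p N'
      l.length (M ^ 4) (fun t => (seq l (r + q0 * t) : ℝ)) := by
  have hMr : (4 : ℝ) ≤ M := by exact_mod_cast hM
  have hM4 : M ≤ M ^ 4 := Nat.le_self_pow (by norm_num) M
  have hM4r : (M : ℝ) ≤ (M : ℝ) ^ 4 := by exact_mod_cast hM4
  have hrepr : ∀ t, ((seq l (r + q0 * t) : ℝ) : ℂ) =
      φ (∑ μ ∈ (Λ.image (fun α => α ^ q0)).filter (fun μ => Cf Λ γ q0 r μ ≠ 0),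
        Cf Λ γ q0 r μ * μ ^ t) := by
    intro t
    rw [sum_Cf, ← hrep _ (le_trans hr (Nat.le_add_right _ _))]
    simp
  obtain ⟨T0, hT0⟩ := hpos
  have hpos' : ∃ T, ∀ t, T ≤ t → (0 : ℝ) < (seq l (r + q0 * t) : ℝ) := by
    refine ⟨T0, fun t ht => ?_⟩
    have : T0 ≤ r + q0 * t := le_trans ht (le_trans (Nat.le_mul_of_pos_left t hq1)
      (Nat.le_add_left _ _))
    exact_mod_cast hT0 _ this
  refine ⟨?_, ?_, ?_, ?_, hN1, ?_, hp, hp3, hvp, ?_, ?_, ?_, ?_, ?_, ?_, hrepr, hpos'⟩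
  · -- nonempty
    by_contra hne
    rw [Finset.not_nonempty_iff_eq_empty] at hne
    obtain ⟨T, hT⟩ := hpos'
    have h1 := hT T le_rfl
    have h2 := hrepr T
    rw [hne, Finset.sum_empty, map_zero] at h2
    have h3 : (seq l (r + q0 * T) : ℝ) = 0 := by exact_mod_cast h2
    exact absurd h3 h1.ne'
  · exact (Finset.card_filter_le _ _).trans (Finset.card_image_le.trans hΛ)
  · exact Nat.one_le_pow _ _ (by omega)
  · exact hdeg.trans hM4
  · exact hNM.trans hM4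
  · intro μ hμ
    rw [Finset.mem_filter, Finset.mem_image] at hμ
    obtain ⟨⟨α, hα, rfl⟩, hc⟩ := hμ
    exact ⟨pow_ne_zero _ (hΛr α hα).1, hc⟩
  · intro μ hμ
    rw [Finset.mem_filter, Finset.mem_image] at hμ
    obtain ⟨⟨α, hα, rfl⟩, hc⟩ := hμ
    rw [Height.logHeight₁_pow]
    have h1 := (hh α hα).1
    have h2 : (q0 : ℝ) ≤ M := by exact_mod_cast hqM
    push_cast
    calc (q0 : ℝ) * Height.logHeight₁ α ≤ M * M := by
          refine mul_le_mul h2 h1 (Height.zero_le_logHeight₁ _) (by positivity)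
      _ ≤ (M : ℝ) ^ 4 := by nlinarith [sq_nonneg ((M : ℝ) ^ 2), sq_nonneg (M : ℝ)]
  · intro μ hμ
    unfold Cf
    refine (Height.logHeight₁_sum_le _ _).trans ?_
    rw [NumberField.totalWeight_eq_finrank]
    set S := Λ.filter (fun α => α ^ q0 = μ) with hS
    have hSc : (S.card : ℝ) ≤ M := by
      exact_mod_cast (Finset.card_filter_le _ _).trans (hΛ.trans hkM)
    have hlog : Real.log (S.card : ℝ) ≤ M := by
      rcases Nat.eq_zero_or_pos S.card with h | h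
      · rw [h]; simp
      · have := Real.log_le_sub_one_of_pos (show (0 : ℝ) < S.card by exact_mod_cast h)
        linarith
    have hd : (Module.finrank ℚ K : ℝ) ≤ M := by exact_mod_cast hdeg
    have hrr : (r : ℝ) ≤ 2 * M := by exact_mod_cast hr2
    have h1 : (Module.finrank ℚ K : ℝ) * Real.log (S.card : ℝ) ≤ M * M := by
      refine mul_le_mul hd hlog ?_ (by positivity)
      exact Real.log_natCast_nonneg _
    have h2 : ∑ α ∈ S, Height.logHeight₁ (γ α * α ^ r) ≤ S.card • ((M : ℝ) + 2 * M * M) := by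
      refine Finset.sum_le_card_nsmul _ _ _ ?_
      intro α hα
      have hα' : α ∈ Λ := (Finset.mem_filter.1 hα).1
      refine (Height.logHeight₁_mul_le _ _).trans ?_
      rw [Height.logHeight₁_pow]
      have g1 := (hh α hα').1
      have g2 := (hh α hα').2
      have g3 : (r : ℝ) * Height.logHeight₁ α ≤ 2 * M * M :=
        mul_le_mul hrr g1 (Height.zero_le_logHeight₁ _) (by positivity)
      linarith
    rw [nsmul_eq_mul] at h2
    have h3 : (S.card : ℝ) * ((M : ℝ) + 2 * M * M) ≤ M * ((M : ℝ) + 2 * M * M) := by gcongr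
    push_cast
    have h4 : (M : ℝ) * M + M * ((M : ℝ) + 2 * M * M) ≤ (M : ℝ) ^ 4 := by
      have a1 : (0 : ℝ) ≤ (M : ℝ) ^ 2 := by positivity
      have a2 : (0 : ℝ) ≤ (M : ℝ) ^ 3 := by positivity
      nlinarith [mul_le_mul_of_nonneg_left hMr a1, mul_le_mul_of_nonneg_left hMr a2]
    linarith
  · intro μ hμ
    rw [Finset.mem_filter, Finset.mem_image] at hμ
    obtain ⟨⟨α, hα, rfl⟩, hc⟩ := hμ
    obtain ⟨h1, h2⟩ := hv α (hΛr α hα).1 (hΛr α hα).2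
    refine ⟨by rw [map_pow, h1, one_pow], ?_⟩
    have e : (α ^ q0) ^ N' - 1 = (α ^ N') ^ q0 - 1 := by
      rw [← pow_mul, ← pow_mul, mul_comm]
    rw [e]
    exact (v_pow_sub_one v (α ^ N') (by rw [map_pow, h1, one_pow]) q0).trans h2
  · intro μ hμ ν hν hne t ht he
    rw [Finset.mem_filter, Finset.mem_image] at hμ hν
    obtain ⟨⟨α, hα, rfl⟩, -⟩ := hμ
    obtain ⟨⟨β, hβ, rfl⟩, -⟩ := hν
    apply hne
    apply φ.injective
    rw [map_pow, map_pow]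
    refine hq (φ α) (φ β) (isRoot_of_rootK φ l α (hΛr α hα).2) (isRoot_of_rootK φ l β (hΛr β hβ).2)
      (by rw [Ne, map_eq_zero]; exact (hΛr α hα).1) (by rw [Ne, map_eq_zero]; exact (hΛr β hβ).1)
      (q0 * t) (Nat.mul_pos hq1 ht) ?_
    rw [← map_pow, ← map_pow, pow_mul, pow_mul, he]
  · intro μ hμ ν hν hlt
    rw [Finset.mem_filter, Finset.mem_image] at hμ hν
    obtain ⟨⟨α, hα, rfl⟩, -⟩ := hμ
    obtain ⟨⟨β, hβ, rfl⟩, -⟩ := hν
    rw [map_pow, map_pow, norm_pow, norm_pow] at hlt ⊢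
    have h1 : ‖φ α‖ < ‖φ β‖ := lt_of_pow_lt_pow_left₀ q0 (norm_nonneg _) hlt
    have h2 := hgap (φ α) (φ β) (isRoot_of_rootK φ l α (hΛr α hα).2)
      (isRoot_of_rootK φ l β (hΛr β hβ).2) h1
    have h5 : (0 : ℝ) ≤ 1 - 1 / (M : ℝ) := by
      rw [sub_nonneg, div_le_one (by positivity)]
      linarith
    have h6 : (1 - 1 / (M : ℝ)) ^ q0 ≤ 1 - 1 / (M : ℝ) := by
      refine pow_le_of_le_one h5 ?_ (by omega)
      rw [sub_le_self_iff]
      positivity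
    have h7 : 1 - 1 / (M : ℝ) ≤ 1 - 1 / ((M ^ 4 : ℕ) : ℝ) := by
      push_cast
      have : (1 : ℝ) / (M : ℝ) ^ 4 ≤ 1 / M := one_div_le_one_div_of_le (by positivity) hM4r
      linarith
    calc ‖φ α‖ ^ q0 ≤ (‖φ β‖ * (1 - 1 / (M : ℝ))) ^ q0 := by gcongr
      _ = ‖φ β‖ ^ q0 * (1 - 1 / (M : ℝ)) ^ q0 := by rw [mul_pow]
      _ ≤ ‖φ β‖ ^ q0 * (1 - 1 / ((M ^ 4 : ℕ) : ℝ)) := by
        gcongr
        exact h6.trans h7

theorem count (l : Rec) (k q0 Q6 T Z N : ℕ) (hq1 : 1 ≤ q0) (hT : k + q0 + q0 * Q6 ≤ T)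
    (h : ∀ r, k ≤ r → r < k + q0 →
      ((range N).filter (fun t => Q6 ≤ t ∧ (seq l (r + q0 * t) : ℝ) ≤ 0)).card ≤ Z) :
    ((range N).filter (fun n => T ≤ n ∧ seq l n ≤ 0)).card ≤ q0 * Z := by
  have hsub : (range N).filter (fun n => T ≤ n ∧ seq l n ≤ 0) ⊆
      (range q0).biUnion (fun j => ((range N).filter
        (fun t => Q6 ≤ t ∧ (seq l (k + j + q0 * t) : ℝ) ≤ 0)).image (fun t => k + j + q0 * t)) := by
    intro n hn
    rw [Finset.mem_filter, Finset.mem_range] at hn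
    obtain ⟨h1, h2, h3⟩ := hn
    have hmod := Nat.mod_lt (n - k) hq1
    have hdm := Nat.div_add_mod (n - k) q0
    have hkn : k ≤ n := by
      have : k ≤ k + q0 + q0 * Q6 := by rw [add_assoc]; exact Nat.le_add_right _ _
      omega
    have hn' : k + (n - k) % q0 + q0 * ((n - k) / q0) = n := by omega
    rw [Finset.mem_biUnion]
    refine ⟨(n - k) % q0, Finset.mem_range.2 hmod, ?_⟩
    rw [Finset.mem_image]
    refine ⟨(n - k) / q0, ?_, hn'⟩
    rw [Finset.mem_filter, Finset.mem_range]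
    refine ⟨?_, ?_, ?_⟩
    · exact lt_of_le_of_lt ((Nat.div_le_self _ _).trans (Nat.sub_le _ _)) h1
    · rw [Nat.le_div_iff_mul_le hq1]
      rw [mul_comm]
      omega
    · rw [hn']
      exact_mod_cast h3
  refine (Finset.card_le_card hsub).trans (Finset.card_biUnion_le.trans ?_)
  have : ∀ j ∈ range q0, (((range N).filter
        (fun t => Q6 ≤ t ∧ (seq l (k + j + q0 * t) : ℝ) ≤ 0)).image
          (fun t => k + j + q0 * t)).card ≤ Z := by
    intro j hj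
    rw [Finset.mem_range] at hj
    exact Finset.card_image_le.trans (h (k + j) (Nat.le_add_right _ _) (by omega))
  refine (Finset.sum_le_card_nsmul _ _ _ this).trans ?_
  rw [Finset.card_range, smul_eq_mul]

theorem pow_mono_sz (C E s : ℕ) (hs : 1 ≤ s) (hCE : C ≤ E) : 2 ^ (C * s ^ C) ≤ 2 ^ (E * s ^ E) := by
  apply Nat.pow_le_pow_right (by norm_num)
  exact Nat.mul_le_mul hCE (Nat.pow_le_pow_right hs hCE)

end Pool.Agent.TH997.UP.CL

namespace Pool.Agent.TH997.UP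

open Finset Pool.Agent.H612.LR
open scoped Classical

theorem cl : ACT → PD → HB → CLs := by
  intro hACT hPD hHB
  obtain ⟨Cp, hPD⟩ := hPD
  obtain ⟨Ch, hHB⟩ := hHB
  obtain ⟨Ct, hTOR⟩ := t_TOR t_TORK
  obtain ⟨Cg, hGAP⟩ := t_GAPM t_HROOT
  set E := Ct + Cp + Ch + Cg + 2 with hE
  refine ⟨80 * E, ?_⟩
  intro l hl hsim hup N
  have hk : 1 ≤ l.length := List.length_pos_iff.2 hl
  have hks : l.length ≤ sz l := TOR.len_le_sz l
  have hs : 1 ≤ sz l := hk.trans hks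
  set s := sz l with hsdef
  set k := l.length with hkdef
  set M := 2 ^ (E * s ^ E) with hMdef
  have hss : 2 * s ^ 2 ≤ E * s ^ E := Nat.mul_le_mul (by omega) (Nat.pow_le_pow_right hs (by omega))
  have hs2 : s ≤ s ^ 2 := Nat.le_self_pow (by norm_num) s
  have hM4 : 4 ≤ M := by
    have h1 : 2 ≤ E * s ^ E := by nlinarith
    calc 4 = 2 ^ 2 := by norm_num
      _ ≤ M := Nat.pow_le_pow_right (by norm_num) h1
  have hk2 : k ^ k ≤ 2 ^ (s ^ 2) := by
    calc k ^ k ≤ (2 ^ s) ^ k := Nat.pow_le_pow_left (hks.trans Nat.lt_two_pow_self.le) k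
      _ ≤ (2 ^ s) ^ s := Nat.pow_le_pow_right (Nat.one_le_two_pow) hks
      _ = 2 ^ (s ^ 2) := by rw [← pow_mul, sq]
  have hkk : k ^ k ≤ M := hk2.trans (Nat.pow_le_pow_right (by norm_num) (by omega))
  have hkM : k ≤ M := (Nat.le_self_pow (by omega) k).trans hkk
  have hfac : (k + 1).factorial ≤ M := by
    rw [Nat.factorial_succ]
    calc (k + 1) * k.factorial ≤ 2 ^ s * 2 ^ (s ^ 2) := by
          refine Nat.mul_le_mul ?_ ((Nat.factorial_le_pow k).trans hk2)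
          exact Nat.succ_le_of_lt (lt_of_le_of_lt hks Nat.lt_two_pow_self)
      _ = 2 ^ (s + s ^ 2) := by rw [pow_add]
      _ ≤ M := Nat.pow_le_pow_right (by norm_num) (by omega)
  obtain ⟨K, iF, iN, φ, hdeg, hroots⟩ := t_FLD l hk
  obtain ⟨q0, hq1, hqM, hq⟩ := hTOR l hk
  obtain ⟨v, p, N', hp, hp3, hvp, hN1, hNM, hv⟩ := hPD l K hk
  obtain ⟨Λ, γ, hΛ, hΛr, hrep, hh⟩ := hHB l K φ hk hsim hdeg hroots
  have hqM' : q0 ≤ M := hqM.trans (CL.pow_mono_sz _ _ _ hs (by omega))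
  have hNM' : N' ≤ M := hNM.trans (CL.pow_mono_sz _ _ _ hs (by omega))
  have hhM : 2 ^ (Ch * s ^ Ch) ≤ M := CL.pow_mono_sz _ _ _ hs (by omega)
  have hgM : 2 ^ (Cg * s ^ Cg) ≤ M := CL.pow_mono_sz _ _ _ hs (by omega)
  have hM0 : (0 : ℝ) < M := by positivity
  have hgap' : ∀ z w : ℂ, IsRoot l z → IsRoot l w → ‖z‖ < ‖w‖ →
      ‖z‖ ≤ ‖w‖ * (1 - 1 / (M : ℝ)) := by
    intro z w hz hw hzw
    refine (hGAP l z w hk hz hw hzw).trans ?_
    apply mul_le_mul_of_nonneg_left _ (norm_nonneg _)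
    have : (1 : ℝ) / M ≤ 1 / 2 ^ (Cg * sz l ^ Cg) := by
      apply one_div_le_one_div_of_le (by positivity)
      exact_mod_cast hgM
    linarith
  have hhM' : ((2 ^ (Ch * s ^ Ch) : ℕ) : ℝ) ≤ M := by exact_mod_cast hhM
  have hdata := fun r hr hr2 => CL.mkData l hk hup K φ M hM4 hkM (hdeg.trans hkk) q0 hq1 hqM' hq v p
    N' hp hp3 hvp hN1 hNM' hv Λ γ hΛ hΛr hrep
    (fun α hα => ⟨(hh α hα).1.trans hhM', (hh α hα).2.trans hhM'⟩) hgap' r hr hr2
  set Q := M ^ 4 * (k + 1).factorial with hQ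
  have hQ5 : Q ≤ M ^ 5 := by
    rw [hQ, pow_succ M 4]
    exact Nat.mul_le_mul le_rfl hfac
  have hM1 : 1 ≤ M := by omega
  have hexp : M ^ 80 ≤ 2 ^ (80 * E * s ^ (80 * E)) := by
    rw [hMdef, ← pow_mul]
    apply Nat.pow_le_pow_right (by norm_num)
    calc E * s ^ E * 80 = 80 * E * s ^ E := by ring
      _ ≤ 80 * E * s ^ (80 * E) := Nat.mul_le_mul le_rfl (Nat.pow_le_pow_right hs (by omega))
  have hT : k + q0 + q0 * Q ^ 6 ≤ 2 ^ (80 * E * s ^ (80 * E)) := by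
    refine le_trans ?_ hexp
    have e1 : Q ^ 6 ≤ M ^ 30 := by
      calc Q ^ 6 ≤ (M ^ 5) ^ 6 := Nat.pow_le_pow_left hQ5 6
        _ = M ^ 30 := by rw [← pow_mul]
    have e2 : q0 * Q ^ 6 ≤ M ^ 31 := by
      calc q0 * Q ^ 6 ≤ M * M ^ 30 := Nat.mul_le_mul hqM' e1
        _ = M ^ 31 := by ring
    have e3 : M ≤ M ^ 31 := Nat.le_self_pow (by norm_num) M
    calc k + q0 + q0 * Q ^ 6 ≤ 4 * M ^ 31 := by omega
      _ ≤ M * M ^ 31 := Nat.mul_le_mul hM4 le_rfl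
      _ = M ^ 32 := by ring
      _ ≤ M ^ 80 := Nat.pow_le_pow_right hM1 (by norm_num)
  have hcount := CL.count l k q0 (Q ^ 6) (2 ^ (80 * E * s ^ (80 * E))) (Q ^ 13 * (Nat.log 2 N + 1)) N
    hq1 hT (fun r hr1 hr2 => hACT K φ _ _ v p N' k (M ^ 4) _ (hdata r hr1 (by omega)) N)
  refine hcount.trans ?_
  rw [← mul_assoc]
  refine Nat.mul_le_mul ?_ le_rfl
  refine le_trans ?_ hexp
  calc q0 * Q ^ 13 ≤ M * (M ^ 5) ^ 13 := Nat.mul_le_mul hqM' (Nat.pow_le_pow_left hQ5 13)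
    _ = M ^ 66 := by ring
    _ ≤ M ^ 80 := Nat.pow_le_pow_right hM1 (by norm_num)

end Pool.Agent.TH997.UP
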