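import Pool.Agent.TH997.UP.Stm

set_option autoImplicit false

namespace Pool.Agent.TH997.UP

open Finset Pool.Agent.H612.LR
open scoped Classical

namespace CRM

/-- entries of the adjugate of a matrix with entries of norm at most one -/
lemma adj_le {n : ℕ} (A : Matrix (Fin n) (Fin n) ℂ) (hA : ∀ i j, ‖A i j‖ ≤ 1) (i j : Fin n) :
    ‖A.adjugate i j‖ ≤ n.factorial := by
  rw [Matrix.adjugate_apply]
  have h := Matrix.det_le (A := A.updateRow j (Pi.single i 1))
    (abv := NormedField.toAbsoluteValue ℂ) (x := 1) (fun a b => by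
      change ‖(A.updateRow j (Pi.single i 1)) a b‖ ≤ 1
      rw [Matrix.updateRow_apply]
      split_ifs with h
      · rw [Pi.single_apply]
        split_ifs <;> simp
      · exact hA a b)
  rw [one_pow, Fintype.card_fin, nsmul_eq_mul, mul_one] at h
  exact h

end CRM

theorem crm : CRM := by
  intro n u c t δ hu hδ i
  set A : Matrix (Fin n) (Fin n) ℂ := Matrix.of fun j i : Fin n => u i ^ t j with hA
  have hA1 : ∀ a b, ‖A a b‖ ≤ 1 := by
    intro a b
    rw [hA, Matrix.of_apply, norm_pow, hu, one_pow]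
  have h1 : A.det * c i = ∑ j, A.adjugate i j * ∑ l, c l * u l ^ t j := by
    have h2 : (A.adjugate * A).mulVec c i = (A.adjugate.mulVec (A.mulVec c)) i := by
      rw [Matrix.mulVec_mulVec]
    rw [Matrix.adjugate_mul, Matrix.smul_mulVec, Matrix.one_mulVec, Pi.smul_apply, smul_eq_mul] at h2
    rw [h2]
    change ∑ j, A.adjugate i j * (A.mulVec c) j = _
    refine Finset.sum_congr rfl fun j _ => ?_
    congr 1
    change ∑ l, A j l * c l = _
    exact Finset.sum_congr rfl fun l _ => mul_comm _ _
  rw [← norm_mul, mul_comm, h1]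
  refine (norm_sum_le _ _).trans ?_
  calc ∑ j, ‖A.adjugate i j * ∑ l, c l * u l ^ t j‖ ≤ ∑ _j : Fin n, (n.factorial : ℝ) * δ := by
        refine Finset.sum_le_sum fun j _ => ?_
        rw [norm_mul]
        exact mul_le_mul (CRM.adj_le A hA1 i j) (hδ j) (norm_nonneg _) (Nat.cast_nonneg _)
    _ = _ := by
        rw [Finset.sum_const, Finset.card_univ, Fintype.card_fin, nsmul_eq_mul, mul_assoc]

end Pool.Agent.TH997.UP
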