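import Pool.Agent.TH997.UP.Stm

/-!
# UP-DETH: height of a generalised Vandermonde determinant (job 3590)
-/

set_option autoImplicit false

namespace Pool.Agent.TH997.UP

open Finset Pool.Agent.H612.LR
open scoped Classical

theorem deth : DETH := by
  intro K _ _ n B Y e t hB he ht
  rw [Matrix.det_apply]
  have h1 : ∀ σ : Equiv.Perm (Fin n), Height.logHeight₁ (Equiv.Perm.sign σ •
      ∏ i, (Matrix.of fun j i : Fin n => e i ^ t j) (σ i) i) ≤ n * Y * B := by
    intro σ
    have h2 : Height.logHeight₁ (∏ i, (Matrix.of fun j i : Fin n => e i ^ t j) (σ i) i) ≤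
        n * Y * B := by
      refine (Height.logHeight₁_prod_le _ _).trans ?_
      have h3 : ∀ i ∈ (univ : Finset (Fin n)), Height.logHeight₁
          ((Matrix.of fun j i : Fin n => e i ^ t j) (σ i) i) ≤ (Y : ℝ) * B := by
        intro i _
        rw [Matrix.of_apply, Height.logHeight₁_pow]
        have h4 : ((t (σ i) : ℕ) : ℝ) ≤ Y := by exact_mod_cast ht (σ i)
        have h5 := he i
        have h6 := Height.zero_le_logHeight₁ (e i)
        gcongr
      refine (sum_le_sum h3).trans (le_of_eq ?_)
      rw [sum_const, card_univ, Fintype.card_fin, nsmul_eq_mul]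
      ring
    rcases Int.units_eq_one_or (Equiv.Perm.sign σ) with h3 | h3
    · rw [h3, one_smul]
      exact h2
    · rw [h3, Units.neg_smul, one_smul, Height.logHeight₁_neg]
      exact h2
  refine (Height.logHeight₁_sum_le _ _).trans ?_
  rw [NumberField.totalWeight_eq_finrank, card_univ, Fintype.card_perm, Fintype.card_fin]
  have h2 : Real.log (n.factorial : ℝ) ≤ n.factorial := by
    have := Real.log_le_sub_one_of_pos (show (0 : ℝ) < n.factorial by exact_mod_cast n.factorial_pos)
    linarith
  have h3 : ((Module.finrank ℚ K : ℕ) : ℝ) ≤ B := by exact_mod_cast hB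
  have h0 : 0 ≤ Real.log (n.factorial : ℝ) := Real.log_natCast_nonneg _
  have h4 : ∑ σ : Equiv.Perm (Fin n), Height.logHeight₁ (Equiv.Perm.sign σ •
      ∏ i, (Matrix.of fun j i : Fin n => e i ^ t j) (σ i) i) ≤ n.factorial * (n * Y * B) := by
    refine (sum_le_sum fun σ _ => h1 σ).trans (le_of_eq ?_)
    rw [sum_const, card_univ, Fintype.card_perm, Fintype.card_fin, nsmul_eq_mul]
  have h5 : ((Module.finrank ℚ K : ℕ) : ℝ) * Real.log (n.factorial : ℝ) ≤ B * n.factorial := by
    gcongr
  calc _ ≤ (B : ℝ) * n.factorial + n.factorial * (n * Y * B) := add_le_add h5 h4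
    _ = _ := by ring

end Pool.Agent.TH997.UP
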