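import Pool.Agent.TH997.UP.Stm
import Pool.Agent.H612.LR.T_RPE
import Pool.Agent.H612.LR.T_HROOT
import Pool.Agent.H612.LR.T_ROOT
import Pool.Agent.H612.LR.T_TOR

set_option autoImplicit false

/-!
# Heights of the coefficients of the closed form
-/

namespace Pool.Agent.TH997.UP

open Finset Pool.Agent.H612.LR

namespace HB

open Height

/-- height of a determinant -/
theorem det_height {K : Type} [Field K] [NumberField K] (n : ℕ) (M : Matrix (Fin n) (Fin n) K)
    (H : ℝ) (hM : ∀ i j, logHeight₁ (M i j) ≤ H) :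
    logHeight₁ M.det ≤ Module.finrank ℚ K * (n.factorial : ℝ) + n.factorial * (n * H) := by
  have htw : (totalWeight K : ℝ) = Module.finrank ℚ K := by
    exact_mod_cast NumberField.totalWeight_eq_finrank K
  rw [Matrix.det_apply]
  refine (logHeight₁_sum_le _ _).trans ?_
  rw [Finset.card_univ, Fintype.card_perm, Fintype.card_fin, htw]
  have h1 : Real.log (n.factorial : ℝ) ≤ n.factorial := by
    have h0 : (0 : ℝ) < n.factorial := by exact_mod_cast n.factorial_pos
    have := Real.log_le_sub_one_of_pos h0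
    linarith
  have h2 : ∀ σ : Equiv.Perm (Fin n),
      logHeight₁ (Equiv.Perm.sign σ • ∏ i, M (σ i) i) ≤ n * H := by
    intro σ
    have h3 : logHeight₁ (∏ i, M (σ i) i) ≤ n * H := by
      refine (logHeight₁_prod_le _ _).trans ?_
      refine (Finset.sum_le_sum fun i _ => hM (σ i) i).trans ?_
      rw [Finset.sum_const, Finset.card_univ, Fintype.card_fin, nsmul_eq_mul]
    rcases Int.units_eq_one_or (Equiv.Perm.sign σ) with h4 | h4
    · rw [h4, one_smul]
      exact h3
    · rw [h4, Units.neg_smul, one_smul, logHeight₁_neg]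
      exact h3
  refine add_le_add (mul_le_mul_of_nonneg_left h1 (by positivity)) ?_
  refine (Finset.sum_le_sum fun σ _ => h2 σ).trans ?_
  rw [Finset.sum_const, Finset.card_univ, Fintype.card_perm, Fintype.card_fin, nsmul_eq_mul]

/-- the size of the initial values -/
theorem sz2 (l : Rec) : (l.map fun p : ℚ × ℚ =>
      ((p.2.num.natAbs.bits.length + p.2.den.bits.length : ℕ) : ℝ)).sum ≤ sz l := by
  unfold sz szList
  induction l with
  | nil => simp
  | cons p l ih =>
    rw [List.flatMap_cons, List.length_append, List.map_cons, List.sum_cons]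
    simp only [List.length_cons, List.length_append]
    push_cast
    push_cast at ih
    have h1 : (0 : ℝ) ≤ (p.1.num.natAbs.bits.length : ℝ) := by positivity
    have h2 : (0 : ℝ) ≤ (p.1.den.bits.length : ℝ) := by positivity
    linarith

/-- heights of the terms -/
theorem seq_height {K : Type} [Field K] [NumberField K] (l : Rec) (hl : 1 ≤ l.length) (n : ℕ) :
    logHeight₁ ((seq l n : ℚ) : K) ≤
      Module.finrank ℚ K * (sz l : ℝ) * ((l.length : ℝ) + 2) ^ n := by
  have htw : (totalWeight K : ℝ) = Module.finrank ℚ K := by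
    exact_mod_cast NumberField.totalWeight_eq_finrank K
  have hk : (1 : ℝ) ≤ l.length := by exact_mod_cast hl
  have hrat : ∀ r : ℚ, logHeight₁ ((r : ℚ) : K) ≤ Module.finrank ℚ K *
      ((r.num.natAbs.bits.length + r.den.bits.length : ℕ) : ℝ) := by
    intro r
    have h1 := HROOT_rat (K := K) r
    rw [htw, eq_ratCast] at h1
    exact h1
  induction n using Nat.strong_induction_on with
  | _ n ih =>
    rw [seq]
    split_ifs with hn
    · refine (hrat _).trans ?_
      have h1 := HROOT_sumlist l (0, 0) (fun p : ℚ × ℚ =>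
        ((p.2.num.natAbs.bits.length + p.2.den.bits.length : ℕ) : ℝ))
      have h2 : (((ini l n).num.natAbs.bits.length + (ini l n).den.bits.length : ℕ) : ℝ) ≤
          sz l := by
        refine le_trans ?_ (sz2 l)
        rw [← h1]
        exact Finset.single_le_sum (f := fun i => (((l.getD i (0, 0)).2.num.natAbs.bits.length +
          (l.getD i (0, 0)).2.den.bits.length : ℕ) : ℝ)) (fun i _ => by positivity)
          (Finset.mem_range.2 hn)
      have h3 : (1 : ℝ) ≤ ((l.length : ℝ) + 2) ^ n := one_le_pow₀ (by linarith)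
      calc (Module.finrank ℚ K : ℝ) *
            (((ini l n).num.natAbs.bits.length + (ini l n).den.bits.length : ℕ) : ℝ)
          ≤ Module.finrank ℚ K * (sz l : ℝ) := mul_le_mul_of_nonneg_left h2 (by positivity)
        _ ≤ Module.finrank ℚ K * (sz l : ℝ) * ((l.length : ℝ) + 2) ^ n :=
            le_mul_of_one_le_right (by positivity) h3
    · push Not at hn
      push_cast
      refine (logHeight₁_sum_le _ _).trans ?_
      rw [Finset.card_univ, Fintype.card_fin, htw]
      have h1 : ∀ i : Fin l.length, logHeight₁ (((coef l i : ℚ) : K) *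
          ((seq l (n - 1 - i) : ℚ) : K)) ≤ Module.finrank ℚ K *
            (((coef l i).num.natAbs.bits.length + (coef l i).den.bits.length : ℕ) : ℝ) +
          Module.finrank ℚ K * (sz l : ℝ) * ((l.length : ℝ) + 2) ^ (n - 1) := by
        intro i
        refine (logHeight₁_mul_le _ _).trans (add_le_add (hrat _) ?_)
        refine (ih (n - 1 - i) (by omega)).trans ?_
        refine mul_le_mul_of_nonneg_left ?_ (by positivity)
        exact pow_le_pow_right₀ (by linarith) (by omega)
      have h2 : ∑ i : Fin l.length, (((coef l i).num.natAbs.bits.length +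
          (coef l i).den.bits.length : ℕ) : ℝ) = (l.map fun p : ℚ × ℚ =>
          ((p.1.num.natAbs.bits.length + p.1.den.bits.length : ℕ) : ℝ)).sum := by
        rw [← HROOT_sumlist l (0, 0), Finset.sum_range]
        rfl
      have h3 := HROOT_sz l
      have h4 : Real.log (l.length : ℝ) ≤ l.length := by
        have := Real.log_le_sub_one_of_pos (x := (l.length : ℝ)) (by linarith)
        linarith
      have h5 : (1 : ℝ) ≤ ((l.length : ℝ) + 2) ^ (n - 1) := one_le_pow₀ (by linarith)
      have h6 : ((l.length : ℝ) + 2) ^ n = ((l.length : ℝ) + 2) ^ (n - 1) * ((l.length : ℝ) + 2) := by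
        rw [← pow_succ]
        congr 1
        omega
      have hf0 : (0 : ℝ) ≤ Module.finrank ℚ K := by positivity
      have hs0 : (0 : ℝ) ≤ sz l := by positivity
      refine (add_le_add (mul_le_mul_of_nonneg_left h4 hf0)
        (Finset.sum_le_sum fun i _ => h1 i)).trans ?_
      rw [Finset.sum_add_distrib, ← Finset.mul_sum, h2, Finset.sum_const, Finset.card_univ,
        Fintype.card_fin, nsmul_eq_mul, h6]
      set S1 := (l.map fun p : ℚ × ℚ =>
          ((p.1.num.natAbs.bits.length + p.1.den.bits.length : ℕ) : ℝ)).sum with hS1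
      set Q := ((l.length : ℝ) + 2) ^ (n - 1) with hQ
      set F : ℝ := (Module.finrank ℚ K : ℝ) with hF
      set s : ℝ := (sz l : ℝ) with hs
      have h7 : F * (l.length : ℝ) + F * S1 ≤ F * s := by
        rw [← mul_add]
        exact mul_le_mul_of_nonneg_left h3 hf0
      have h8 : F * s ≤ F * s * Q := le_mul_of_one_le_right (by positivity) h5
      nlinarith [mul_nonneg (mul_nonneg hf0 hs0) (le_trans zero_le_one h5)]

/-- the final estimate -/
theorem num (C s : ℕ) (hs : 1 ≤ s) :
    2 * (s ^ s * s ^ s + s ^ s * (s * (2 * s * s ^ s * (C * s ^ C) +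
      s ^ s * s * (s + 2) ^ (2 * s)))) ≤ 2 ^ ((C + 13) * s ^ (C + 13)) := by
  set m := s ^ (C + 2) with hm
  have hm1 : 1 ≤ m := Nat.one_le_pow _ _ hs
  have hss : s * s ≤ m := by
    rw [hm, ← sq]
    exact Nat.pow_le_pow_right hs (by omega)
  have hs1 : s ≤ m := le_trans (Nat.le_mul_self s) hss
  have hsC : s ^ C ≤ m := Nat.pow_le_pow_right hs (by omega)
  set x := 2 ^ m with hx
  have hx2 : 2 ≤ x := by
    calc 2 = 2 ^ 1 := rfl
      _ ≤ 2 ^ m := Nat.pow_le_pow_right (by norm_num) hm1
  have hx0 : 0 < x := by omega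
  have a1 : s ≤ x := Nat.lt_two_pow_self.le.trans (Nat.pow_le_pow_right (by norm_num) hs1)
  have a2 : s ^ s ≤ x := by
    calc s ^ s ≤ (2 ^ s) ^ s := Nat.pow_le_pow_left Nat.lt_two_pow_self.le _
      _ = 2 ^ (s * s) := by rw [← pow_mul]
      _ ≤ x := Nat.pow_le_pow_right (by norm_num) hss
  have a3 : C * s ^ C ≤ x ^ C := by
    calc C * s ^ C ≤ 2 ^ (C * s ^ C) := Nat.lt_two_pow_self.le
      _ ≤ 2 ^ (m * C) := Nat.pow_le_pow_right (by norm_num) (by nlinarith)
      _ = x ^ C := by rw [pow_mul]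
  have a4 : (s + 2) ^ (2 * s) ≤ x ^ 4 := by
    have h1 : s + 2 ≤ 2 ^ (s + 1) := by
      have := Nat.lt_two_pow_self (n := s)
      rw [pow_succ]
      omega
    calc (s + 2) ^ (2 * s) ≤ (2 ^ (s + 1)) ^ (2 * s) := Nat.pow_le_pow_left h1 _
      _ = 2 ^ ((s + 1) * (2 * s)) := by rw [← pow_mul]
      _ ≤ 2 ^ (m * 4) := Nat.pow_le_pow_right (by norm_num) (by nlinarith)
      _ = x ^ 4 := by rw [pow_mul]
  have b1 : 2 * s * s ^ s * (C * s ^ C) ≤ x ^ (C + 6) := by
    calc 2 * s * s ^ s * (C * s ^ C) ≤ x * x * x * x ^ C := by gcongr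
      _ = x ^ (C + 3) := by ring
      _ ≤ x ^ (C + 6) := Nat.pow_le_pow_right hx0 (by omega)
  have b2 : s ^ s * s * (s + 2) ^ (2 * s) ≤ x ^ (C + 6) := by
    calc s ^ s * s * (s + 2) ^ (2 * s) ≤ x * x * x ^ 4 := by gcongr
      _ = x ^ 6 := by ring
      _ ≤ x ^ (C + 6) := Nat.pow_le_pow_right hx0 (by omega)
  have b3 : 2 * s * s ^ s * (C * s ^ C) + s ^ s * s * (s + 2) ^ (2 * s) ≤ x ^ (C + 7) := by
    calc _ ≤ x ^ (C + 6) + x ^ (C + 6) := add_le_add b1 b2
      _ = 2 * x ^ (C + 6) := by ring
      _ ≤ x * x ^ (C + 6) := Nat.mul_le_mul_right _ hx2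
      _ = x ^ (C + 7) := by ring
  calc _ ≤ x * (x * x + x * (x * x ^ (C + 7))) := by gcongr
    _ ≤ x * (x ^ (C + 9) + x ^ (C + 9)) := by
        gcongr
        · calc x * x = x ^ 2 := by ring
            _ ≤ x ^ (C + 9) := Nat.pow_le_pow_right hx0 (by omega)
        · exact le_of_eq (by ring)
    _ = x * (2 * x ^ (C + 9)) := by ring
    _ ≤ x * (x * x ^ (C + 9)) := by gcongr
    _ = x ^ (C + 11) := by ring
    _ = 2 ^ (m * (C + 11)) := by rw [hx, ← pow_mul]
    _ ≤ 2 ^ ((C + 13) * s ^ (C + 13)) := by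
        refine Nat.pow_le_pow_right (by norm_num) ?_
        rw [mul_comm m]
        exact Nat.mul_le_mul (by omega) (Nat.pow_le_pow_right hs (by omega))

end HB

open HB Height in
open scoped Classical in
theorem hb : HB := by
  obtain ⟨C1, hC1⟩ := t_HROOT
  refine ⟨C1 + 13, ?_⟩
  intro l K _ _ φ hl hsim hfin hφ
  set k := l.length with hk
  obtain ⟨lam, c, hrep, hmul, -⟩ := t_RPE l hl
  have hφinj : Function.Injective φ := φ.injective
  have hlam0 : ∀ i < k, lam i ≠ 0 := (hrep 0).1
  have hroot : ∀ i < k, c i 0 ≠ 0 → IsRoot l (lam i) := by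
    intro i hi hne
    rw [t_ROOT l _ hl]
    by_contra hcon
    exact hne (hmul i hi 0 (by omega) (by rw [Multiset.count_eq_zero.2 hcon]))
  have hs0 : ∀ i < k, ∀ j < k, 0 < j → c i j = 0 := by
    intro i hi j hj hj0
    apply hmul i hi j hj
    have := Multiset.nodup_iff_count_le_one.1 hsim (lam i)
    omega
  have hseqC : ∀ n, k ≤ n → ((seq l n : ℚ) : ℂ) = ∑ i ∈ range k, c i 0 * lam i ^ n := by
    intro n hn
    rw [(hrep (n + 1)).2.2 n hn (Nat.lt_succ_self n)]
    unfold expo
    refine Finset.sum_congr rfl fun i hi => ?_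
    rw [Finset.sum_eq_single 0]
    · simp
    · intro j hj hj0
      rw [hs0 i (Finset.mem_range.1 hi) j (Finset.mem_range.1 hj) (Nat.pos_of_ne_zero hj0)]
      ring
    · intro h
      exact absurd (Finset.mem_range.2 (by omega)) h
  set I := (range k).filter (fun i => c i 0 ≠ 0) with hI
  have hal : ∀ i, ∃ α : K, i ∈ I → φ α = lam i := by
    intro i
    by_cases hi : i ∈ I
    · obtain ⟨h1, h2⟩ := Finset.mem_filter.1 hi
      obtain ⟨α, hα⟩ := hφ (lam i) (hroot i (Finset.mem_range.1 h1) h2)
      exact ⟨α, fun _ => hα⟩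
    · exact ⟨0, fun h => absurd h hi⟩
  choose al hal using hal
  set Λ := I.image al with hΛ
  set cc : K → ℂ := fun α => ∑ i ∈ I.filter (fun i => al i = α), c i 0 with hcc
  have hseq2 : ∀ n, k ≤ n → ((seq l n : ℚ) : ℂ) = ∑ α ∈ Λ, cc α * φ α ^ n := by
    intro n hn
    rw [hseqC n hn]
    have h1 : ∑ i ∈ range k, c i 0 * lam i ^ n = ∑ i ∈ I, c i 0 * lam i ^ n := by
      rw [hI, Finset.sum_filter]
      refine Finset.sum_congr rfl fun i _ => ?_
      split_ifs with h
      · rfl
      · push Not at h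
        rw [h, zero_mul]
    rw [h1, ← Finset.sum_fiberwise_of_maps_to (g := al) (t := Λ)
      (fun i hi => Finset.mem_image_of_mem al hi)]
    refine Finset.sum_congr rfl fun α _ => ?_
    simp only [hcc]
    rw [Finset.sum_mul]
    refine Finset.sum_congr rfl fun i hi => ?_
    obtain ⟨h2, h3⟩ := Finset.mem_filter.1 hi
    rw [← h3, hal i h2]
  have hΛcard : Λ.card ≤ k := by
    refine Finset.card_image_le.trans ((Finset.card_filter_le _ _).trans ?_)
    rw [Finset.card_range]
  have hΛroot : ∀ α ∈ Λ, α ≠ 0 ∧ RootK K l α := by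
    intro α hα
    obtain ⟨i, hi, rfl⟩ := Finset.mem_image.1 hα
    obtain ⟨h1, h2⟩ := Finset.mem_filter.1 hi
    constructor
    · intro h
      have h3 := hal i hi
      rw [h, map_zero] at h3
      exact hlam0 i (Finset.mem_range.1 h1) h3.symm
    · have h3 := hroot i (Finset.mem_range.1 h1) h2
      unfold IsRoot at h3
      unfold RootK
      apply hφinj
      rw [map_pow, map_sum, hal i hi, h3]
      refine Finset.sum_congr rfl fun j _ => ?_
      rw [map_mul, map_pow, map_ratCast, hal i hi]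
  -- the linear system
  set n0 := Λ.card with hn0
  set en : Fin n0 → K := fun i => ((Λ.equivFin.symm i : Λ) : K) with hen
  have henmem : ∀ i, en i ∈ Λ := fun i => (Λ.equivFin.symm i).2
  have heninj : Function.Injective en := fun i j h => Λ.equivFin.symm.injective (Subtype.ext h)
  have hsumen : ∀ {M : Type} [AddCommMonoid M] (F : K → M), ∑ α ∈ Λ, F α = ∑ i, F (en i) := by
    intro M _ F
    rw [← Finset.sum_coe_sort]
    exact (Equiv.sum_comp Λ.equivFin.symm (fun α : Λ => F α)).symm
  set V : Matrix (Fin n0) (Fin n0) K := Matrix.of fun j i => en i ^ (k + (j : ℕ)) with hV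
  have hVdet : V.det ≠ 0 := by
    have h1 : V = (Matrix.vandermonde en).transpose * Matrix.diagonal (fun i => en i ^ k) := by
      ext j i
      rw [Matrix.mul_diagonal, Matrix.transpose_apply, Matrix.vandermonde_apply, hV,
        Matrix.of_apply, pow_add, mul_comm]
    rw [h1, Matrix.det_mul, Matrix.det_transpose, Matrix.det_diagonal]
    refine mul_ne_zero (Matrix.det_vandermonde_ne_zero_iff.2 heninj) ?_
    exact Finset.prod_ne_zero_iff.2 fun i _ => pow_ne_zero _ (hΛroot _ (henmem i)).1
  set b : Fin n0 → K := fun j => ((seq l (k + (j : ℕ)) : ℚ) : K) with hb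
  set γ' : Fin n0 → K := fun i => (V.updateCol i b).det / V.det with hγ'
  have hsolve : V.mulVec γ' = b := by
    have h1 : γ' = V.det⁻¹ • Matrix.cramer V b := by
      funext i
      rw [Pi.smul_apply, Matrix.cramer_apply, smul_eq_mul, hγ']
      field_simp
    rw [h1, Matrix.mulVec_smul, Matrix.mulVec_cramer, smul_smul, inv_mul_cancel₀ hVdet, one_smul]
  have huniq : ∀ i, φ (γ' i) = cc (en i) := by
    have hdet : (V.map φ).det ≠ 0 := by
      have h1 : (V.map φ).det = φ V.det := (RingHom.map_det φ V).symm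
      rw [h1]
      exact (map_ne_zero φ).2 hVdet
    have h2 : (V.map φ).mulVec (fun i => φ (γ' i) - cc (en i)) = 0 := by
      funext j
      have h3 := congrFun hsolve j
      simp only [Matrix.mulVec, dotProduct] at h3 ⊢
      simp only [Matrix.map_apply, mul_sub, Finset.sum_sub_distrib, Pi.zero_apply]
      have h4 : ∑ i, φ (V j i) * φ (γ' i) = φ (b j) := by
        rw [← h3, map_sum]
        exact Finset.sum_congr rfl fun i _ => (map_mul φ _ _).symm
      have h5 : ∑ i, φ (V j i) * cc (en i) = φ (b j) := by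
        have h6 := hseq2 (k + (j : ℕ)) (by omega)
        rw [hsumen] at h6
        simp only [hb]
        rw [map_ratCast, h6]
        refine Finset.sum_congr rfl fun i _ => ?_
        rw [hV, Matrix.of_apply, map_pow, mul_comm]
      rw [h4, h5, sub_self]
    have h3 := Matrix.eq_zero_of_mulVec_eq_zero hdet h2
    intro i
    have h4 := congrFun h3 i
    exact sub_eq_zero.1 h4
  set γ : K → K := fun α => if h : α ∈ Λ then γ' (Λ.equivFin ⟨α, h⟩) else 0 with hγ
  have hγeq : ∀ α ∈ Λ, ∃ i, α = en i ∧ γ α = γ' i := by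
    intro α hα
    refine ⟨Λ.equivFin ⟨α, hα⟩, ?_, ?_⟩
    · simp only [hen, Equiv.symm_apply_apply]
    · simp only [hγ]
      rw [dif_pos hα]
  have hγφ : ∀ α ∈ Λ, φ (γ α) = cc α := by
    intro α hα
    obtain ⟨i, h1, h2⟩ := hγeq α hα
    rw [h2, huniq i, h1]
  refine ⟨Λ, γ, hΛcard, hΛroot, ?_, ?_⟩
  · intro n hn
    apply hφinj
    rw [map_ratCast, hseq2 n hn, map_sum]
    refine Finset.sum_congr rfl fun α hα => ?_
    rw [map_mul, map_pow, hγφ α hα]
  · -- the heights
    have hks : k ≤ sz l := TOR.len_le_sz l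
    set s := sz l with hs
    have hs1 : 1 ≤ s := hl.trans hks
    have hfr : Module.finrank ℚ K ≤ s ^ s := by
      refine hfin.trans ?_
      calc k ^ k ≤ s ^ k := Nat.pow_le_pow_left hks _
        _ ≤ s ^ s := Nat.pow_le_pow_right hs1 hks
    have hfrR : (Module.finrank ℚ K : ℝ) ≤ ((s ^ s : ℕ) : ℝ) := by exact_mod_cast hfr
    have hhα : ∀ α ∈ Λ, logHeight₁ α ≤ ((s ^ s * (C1 * s ^ C1) : ℕ) : ℝ) := by
      intro α hα
      have h1 := (hΛroot α hα).2
      unfold RootK at h1
      have h2 := hC1 K l α hl (by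
        rw [h1]
        refine Finset.sum_congr rfl fun i _ => ?_
        rw [eq_ratCast])
      refine h2.trans ?_
      rw [Nat.cast_mul (s ^ s)]
      exact mul_le_mul_of_nonneg_right hfrR (by positivity)
    set A : ℕ := 2 * s * s ^ s * (C1 * s ^ C1) with hA
    set B : ℕ := s ^ s * s * (s + 2) ^ (2 * s) with hB
    have hn0s : n0 ≤ s := hΛcard.trans hks
    have hVh : ∀ j i, logHeight₁ (V j i) ≤ ((A + B : ℕ) : ℝ) := by
      intro j i
      rw [hV, Matrix.of_apply, logHeight₁_pow]
      have h1 := hhα _ (henmem i)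
      have h2 : ((k + (j : ℕ) : ℕ) : ℝ) ≤ ((2 * s : ℕ) : ℝ) := by
        have := j.2
        exact_mod_cast (by omega : k + (j : ℕ) ≤ 2 * s)
      calc ((k + (j : ℕ) : ℕ) : ℝ) * logHeight₁ (en i)
          ≤ ((2 * s : ℕ) : ℝ) * ((s ^ s * (C1 * s ^ C1) : ℕ) : ℝ) :=
            mul_le_mul h2 h1 (zero_le_logHeight₁ _) (by positivity)
        _ = ((A : ℕ) : ℝ) := by
            rw [← Nat.cast_mul, hA]
            congr 1
            ring
        _ ≤ _ := by exact_mod_cast Nat.le_add_right A B
    have hbh : ∀ j, logHeight₁ (b j) ≤ ((A + B : ℕ) : ℝ) := by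
      intro j
      simp only [hb]
      refine (seq_height l hl _).trans ?_
      have h1 : ((l.length : ℝ) + 2) ^ (k + (j : ℕ)) ≤ (((s + 2) ^ (2 * s) : ℕ) : ℝ) := by
        have h2 : ((l.length : ℝ) + 2) ≤ (s : ℝ) + 2 := by
          have : (l.length : ℝ) ≤ s := by exact_mod_cast hks
          linarith
        have h3 := j.2
        calc ((l.length : ℝ) + 2) ^ (k + (j : ℕ)) ≤ ((s : ℝ) + 2) ^ (k + (j : ℕ)) :=
              pow_le_pow_left₀ (by positivity) h2 _
          _ ≤ ((s : ℝ) + 2) ^ (2 * s) := by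
              refine pow_le_pow_right₀ ?_ (by omega)
              have : (0 : ℝ) ≤ s := by positivity
              linarith
          _ = _ := by push_cast; rfl
      calc (Module.finrank ℚ K : ℝ) * (sz l : ℝ) * ((l.length : ℝ) + 2) ^ (k + (j : ℕ))
          ≤ ((s ^ s : ℕ) : ℝ) * (s : ℝ) * (((s + 2) ^ (2 * s) : ℕ) : ℝ) := by
            refine mul_le_mul (mul_le_mul_of_nonneg_right hfrR (by positivity)) h1
              (by positivity) (by positivity)
        _ = ((B : ℕ) : ℝ) := by
            rw [hB]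
            push_cast
            ring
        _ ≤ _ := by exact_mod_cast Nat.le_add_left B A
    have hfact : n0.factorial ≤ s ^ s := by
      calc n0.factorial ≤ n0 ^ n0 := Nat.factorial_le_pow n0
        _ ≤ s ^ n0 := Nat.pow_le_pow_left hn0s _
        _ ≤ s ^ s := Nat.pow_le_pow_right hs1 hn0s
    have hdetb : ∀ M : Matrix (Fin n0) (Fin n0) K, (∀ i j, logHeight₁ (M i j) ≤
        ((A + B : ℕ) : ℝ)) → logHeight₁ M.det ≤
        ((s ^ s * s ^ s + s ^ s * (s * (A + B)) : ℕ) : ℝ) := by
      intro M hM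
      refine (det_height n0 M _ hM).trans ?_
      have h1 : (n0.factorial : ℝ) ≤ ((s ^ s : ℕ) : ℝ) := by exact_mod_cast hfact
      have h2 : (n0 : ℝ) ≤ (s : ℝ) := by exact_mod_cast hn0s
      calc (Module.finrank ℚ K : ℝ) * (n0.factorial : ℝ) +
            n0.factorial * (n0 * ((A + B : ℕ) : ℝ))
          ≤ ((s ^ s : ℕ) : ℝ) * ((s ^ s : ℕ) : ℝ) +
            ((s ^ s : ℕ) : ℝ) * ((s : ℝ) * ((A + B : ℕ) : ℝ)) := by
            refine add_le_add (mul_le_mul hfrR h1 (by positivity) (by positivity)) ?_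
            refine mul_le_mul h1 (mul_le_mul_of_nonneg_right h2 (by positivity))
              (by positivity) (by positivity)
        _ = _ := by push_cast; ring
    have hnum := num C1 s hs1
    intro α hα
    constructor
    · refine (hhα α hα).trans ?_
      have h1 : s ^ s * (C1 * s ^ C1) ≤ 2 * (s ^ s * s ^ s + s ^ s * (s * (A + B))) := by
        have h2 : s ^ s * (C1 * s ^ C1) ≤ A := by
          rw [hA]
          calc s ^ s * (C1 * s ^ C1) = 1 * (s ^ s * (C1 * s ^ C1)) := (one_mul _).symm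
            _ ≤ (2 * s) * (s ^ s * (C1 * s ^ C1)) := Nat.mul_le_mul_right _ (by omega)
            _ = _ := by ring
        have h3 : 1 ≤ s ^ s := Nat.one_le_pow _ _ hs1
        calc s ^ s * (C1 * s ^ C1) ≤ A := h2
          _ ≤ A + B := Nat.le_add_right _ _
          _ ≤ s * (A + B) := Nat.le_mul_of_pos_left _ hs1
          _ ≤ s ^ s * (s * (A + B)) := Nat.le_mul_of_pos_left _ h3
          _ ≤ s ^ s * s ^ s + s ^ s * (s * (A + B)) := Nat.le_add_left _ _
          _ ≤ _ := Nat.le_mul_of_pos_left _ (by norm_num)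
      exact_mod_cast h1.trans hnum
    · obtain ⟨i, -, h2⟩ := hγeq α hα
      rw [h2]
      simp only [hγ']
      rw [div_eq_mul_inv]
      refine (logHeight₁_mul_le _ _).trans ?_
      rw [logHeight₁_inv]
      have h3 : logHeight₁ (V.updateCol i b).det ≤
          ((s ^ s * s ^ s + s ^ s * (s * (A + B)) : ℕ) : ℝ) := by
        refine hdetb _ fun j i' => ?_
        rw [Matrix.updateCol_apply]
        split_ifs
        · exact hbh j
        · exact hVh j i'
      refine (add_le_add h3 (hdetb V hVh)).trans ?_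
      have h4 : ((s ^ s * s ^ s + s ^ s * (s * (A + B)) : ℕ) : ℝ) +
          ((s ^ s * s ^ s + s ^ s * (s * (A + B)) : ℕ) : ℝ) =
          ((2 * (s ^ s * s ^ s + s ^ s * (s * (A + B))) : ℕ) : ℝ) := by
        push_cast
        ring
      rw [h4]
      exact_mod_cast hnum

end Pool.Agent.TH997.UP
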