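import Pool.Agent.TH997.UP.Stm

/-!
# PD: a prime of good reduction with a small common exponent
-/

set_option autoImplicit false

namespace Pool.Agent.TH997.UP

open Finset Pool.Agent.H612.LR
open scoped Classical

namespace PD

open Polynomial NumberField

/-! ### Sizes -/

lemma len_le_sz (l : Rec) : l.length ≤ sz l := by
  unfold sz szList
  induction l with
  | nil => simp
  | cons p l ih =>
    simp only [List.flatMap_cons, List.length_append, List.length_cons] at ih ⊢
    omega

lemma size_le {l : Rec} {x : ℚ × ℚ} (hx : x ∈ l) :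
    x.1.num.natAbs.size ≤ sz l ∧ x.1.den.size ≤ sz l := by
  obtain ⟨s, t, rfl⟩ := List.append_of_mem hx
  unfold sz szList
  simp only [List.flatMap_append, List.flatMap_cons, List.length_append, List.length_cons,
    Nat.size_eq_bits_len]
  constructor <;> omega

lemma coef_bound (l : Rec) (i : ℕ) (hi : i < l.length) :
    (coef l i).num.natAbs < 2 ^ sz l ∧ (coef l i).den < 2 ^ sz l := by
  have h1 : l.getD i (0, 0) = l[i] := by
    rw [List.getD_eq_getElem _ _ hi]
  have hm : l[i] ∈ l := List.getElem_mem hi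
  obtain ⟨h2, h3⟩ := size_le hm
  unfold coef
  rw [h1]
  exact ⟨(Nat.lt_size_self _).trans_le (Nat.pow_le_pow_right (by norm_num) h2),
    (Nat.lt_size_self _).trans_le (Nat.pow_le_pow_right (by norm_num) h3)⟩

/-! ### The place -/

section place

variable {K : Type} [Field K] [NumberField K]

lemma exists_place (p : ℕ) (hp : p.Prime) : ∃ v : FinitePlace K, v (p : K) < 1 := by
  have hnu : ¬ IsUnit ((p : ℕ) : 𝓞 K) := by
    intro h
    have h1 : IsUnit (algebraMap ℤ (𝓞 K) (p : ℤ)) := by simpa using h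
    have h2 : IsUnit (p : ℤ) := isUnit_of_map_unit (algebraMap ℤ (𝓞 K)) _ h1
    rw [Int.isUnit_iff] at h2
    have := hp.two_le
    omega
  obtain ⟨M, hM, hpM⟩ := exists_max_ideal_of_mem_nonunits hnu
  have hM0 : M ≠ ⊥ := by
    rintro rfl
    rw [Ideal.mem_bot] at hpM
    exact hp.ne_zero (by exact_mod_cast hpM)
  let w : IsDedekindDomain.HeightOneSpectrum (𝓞 K) := ⟨M, hM.isPrime, hM0⟩
  refine ⟨FinitePlace.mk w, ?_⟩
  rw [FinitePlace.mk_apply]
  have := (FinitePlace.norm_lt_one_iff_mem K w ((p : ℕ) : 𝓞 K)).2 hpM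
  simpa using this

variable (v : FinitePlace K)

lemma add_le (x y : K) : v (x + y) ≤ max (v x) (v y) := by
  rw [← FinitePlace.norm_embedding_eq v, ← FinitePlace.norm_embedding_eq v x,
    ← FinitePlace.norm_embedding_eq v y]
  rw [FinitePlace.norm_embedding, FinitePlace.norm_embedding, FinitePlace.norm_embedding]
  exact HeightOneSpectrum.adicAbv_add_le_max K _ x y

lemma neg_eq (x : K) : v (-x) = v x := map_neg_eq_map v x

lemma sub_le (x y : K) : v (x - y) ≤ max (v x) (v y) := by
  rw [sub_eq_add_neg, ← neg_eq v y]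
  exact add_le v x (-y)

lemma sum_le {ι : Type*} (s : Finset ι) (f : ι → K) (M : ℝ) (hM : 0 ≤ M)
    (h : ∀ i ∈ s, v (f i) ≤ M) : v (∑ i ∈ s, f i) ≤ M := by
  induction s using Finset.induction_on with
  | empty => simpa using hM
  | insert a s ha ih =>
    rw [Finset.sum_insert ha]
    exact (add_le v _ _).trans (max_le (h a (by simp)) (ih fun i hi => h i (by simp [hi])))

lemma int_le (z : ℤ) : v (z : K) ≤ 1 := by
  rw [← FinitePlace.norm_embedding_eq v, FinitePlace.norm_embedding]
  exact HeightOneSpectrum.adicAbv_intCast_le_one K _ z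

lemma int_eq {p : ℕ} (hp : p.Prime) (hv : v (p : K) < 1) (z : ℤ) (hz : ¬ (p : ℤ) ∣ z) :
    v (z : K) = 1 := by
  refine le_antisymm (int_le v z) ?_
  by_contra hlt
  push Not at hlt
  have hc : IsCoprime (p : ℤ) z := by
    rw [Prime.coprime_iff_not_dvd (Nat.prime_iff_prime_int.1 hp)]
    exact hz
  obtain ⟨a, b, hab⟩ := hc
  have h1 : (1 : K) = (a : K) * (p : K) + (b : K) * (z : K) := by
    exact_mod_cast hab.symm
  have h2 : v (1 : K) ≤ max (v ((a : K) * (p : K))) (v ((b : K) * (z : K))) := by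
    conv_lhs => rw [h1]
    exact add_le v _ _
  rw [map_one, map_mul, map_mul] at h2
  have ha := int_le v a
  have hb := int_le v b
  have hp0 : 0 ≤ v (p : K) := apply_nonneg v _
  have hz0 : 0 ≤ v (z : K) := apply_nonneg v _
  have h3 : v (a : K) * v (p : K) < 1 := by nlinarith
  have h4 : v (b : K) * v (z : K) < 1 := by nlinarith
  have := max_lt h3 h4
  linarith

/-- a rational number with numerator and denominator prime to `p` -/
lemma rat_den {p : ℕ} (hp : p.Prime) (hv : v (p : K) < 1) (a : ℚ) (hd : ¬ p ∣ a.den) :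
    v (a : K) = v (a.num : K) ∧ ∃ b : ℤ, v ((a : K) - (b : K)) ≤ v (p : K) := by
  have h1 : v (a.den : K) = 1 := by
    have := int_eq v hp hv (a.den : ℤ) (by exact_mod_cast hd)
    exact_mod_cast this
  have hden : (a.den : K) ≠ 0 := by
    have := a.den_nz
    exact_mod_cast this
  have ha : (a : K) = (a.num : K) / (a.den : K) := Rat.cast_def a
  refine ⟨by rw [ha, map_div₀, h1, div_one], ?_⟩
  have hc : IsCoprime (a.den : ℤ) (p : ℤ) := by
    rw [Nat.isCoprime_iff_coprime]
    exact ((Nat.Prime.coprime_iff_not_dvd hp).2 hd).symm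
  obtain ⟨u, m, hum⟩ := hc
  refine ⟨a.num * u, ?_⟩
  have h2 : (a : K) - ((a.num * u : ℤ) : K) = (a.num : K) * (m : K) * (p : K) / (a.den : K) := by
    have h3 : (u : K) * (a.den : K) + (m : K) * (p : K) = 1 := by exact_mod_cast hum
    rw [ha]
    push_cast
    field_simp
    linear_combination (-(a.num : K)) * h3
  rw [h2, map_div₀, map_mul, map_mul, h1, div_one]
  have hn := int_le v a.num
  have hm := int_le v m
  have hp0 : 0 ≤ v (p : K) := apply_nonneg v _
  have hm0 : 0 ≤ v (m : K) := apply_nonneg v _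
  have hn0 : 0 ≤ v (a.num : K) := apply_nonneg v _
  have : v (a.num : K) * v (m : K) ≤ 1 := mul_le_one₀ hn hm0 hm
  nlinarith

lemma aeval_le {α : K} (hα : v α ≤ 1) (P : ℤ[X]) : v (aeval α P) ≤ 1 := by
  rw [aeval_eq_sum_range]
  refine sum_le v _ _ 1 zero_le_one fun i _ => ?_
  rw [zsmul_eq_mul, map_mul, map_pow]
  have h0 : 0 ≤ v α := apply_nonneg v _
  exact mul_le_one₀ (int_le v _) (by positivity) (pow_le_one₀ h0 hα)

/-- the common exponent -/
lemma exists_exp {p : ℕ} (hp : p.Prime) (f : ℤ[X]) (hf : f.Monic) :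
    ∃ n1 n2 : ℕ, n1 < n2 ∧ n2 ≤ p ^ f.natDegree ∧ ∃ Q R : ℤ[X],
      X ^ n2 - X ^ n1 = f * Q + C (p : ℤ) * R := by
  have : Fact p.Prime := ⟨hp⟩
  set g : (ZMod p)[X] := f.map (Int.castRingHom (ZMod p)) with hg
  have hgm : g.Monic := hf.map _
  have hgd : g.natDegree = f.natDegree := hf.natDegree_map _
  have hfin : Module.Finite (ZMod p) (AdjoinRoot g) := (AdjoinRoot.powerBasis' hgm).finite
  have hfree : Module.Free (ZMod p) (AdjoinRoot g) :=
    Module.Free.of_basis (AdjoinRoot.powerBasis' hgm).basis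
  have hFin : Finite (AdjoinRoot g) := Module.finite_of_finite (ZMod p)
  have := Fintype.ofFinite (AdjoinRoot g)
  have hcard : Fintype.card (AdjoinRoot g) = p ^ f.natDegree := by
    rw [Module.card_eq_pow_finrank (K := ZMod p), ZMod.card,
      (AdjoinRoot.powerBasis' hgm).finrank, AdjoinRoot.powerBasis'_dim, hgd]
  have hni : ¬ Function.Injective (fun n : Fin (p ^ f.natDegree + 1) =>
      (AdjoinRoot.root g) ^ (n : ℕ)) := by
    intro h
    have := Fintype.card_le_of_injective _ h
    rw [Fintype.card_fin, hcard] at this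
    omega
  have hex : ∃ n1 n2 : ℕ, n1 < n2 ∧ n2 ≤ p ^ f.natDegree ∧
      (AdjoinRoot.root g) ^ n1 = (AdjoinRoot.root g) ^ n2 := by
    simp only [Function.Injective, not_forall] at hni
    obtain ⟨a, b, hab, hne⟩ := hni
    rcases lt_or_gt_of_ne (fun h : (a : ℕ) = b => hne (Fin.ext h)) with h | h
    · exact ⟨a, b, h, by omega, hab⟩
    · exact ⟨b, a, h, by omega, hab.symm⟩
  obtain ⟨n1, n2, h12, h2, he⟩ := hex
  refine ⟨n1, n2, h12, h2, ?_⟩
  have h3 : AdjoinRoot.mk g (X ^ n2 - X ^ n1) = 0 := by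
    rw [map_sub, map_pow, map_pow, AdjoinRoot.mk_X, he, sub_self]
  rw [AdjoinRoot.mk_eq_zero] at h3
  obtain ⟨q, hq⟩ := h3
  obtain ⟨Q, hQ⟩ := Polynomial.map_surjective (Int.castRingHom (ZMod p))
    (ZMod.intCast_surjective) q
  have h4 : (X ^ n2 - X ^ n1 - f * Q).map (Int.castRingHom (ZMod p)) = 0 := by
    rw [Polynomial.map_sub, Polynomial.map_sub, Polynomial.map_pow, Polynomial.map_pow,
      Polynomial.map_X, Polynomial.map_mul, hQ, hq, ← hg, sub_self]
  have h5 : C (p : ℤ) ∣ X ^ n2 - X ^ n1 - f * Q := by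
    rw [Polynomial.C_dvd_iff_dvd_coeff]
    intro i
    have := congrArg (fun r => Polynomial.coeff r i) h4
    simp only [Polynomial.coeff_map, Polynomial.coeff_zero] at this
    exact (ZMod.intCast_zmod_eq_zero_iff_dvd _ _).1 this
  obtain ⟨R, hR⟩ := h5
  exact ⟨Q, R, by rw [← hR]; ring⟩

/-! ### Roots -/

lemma root_le {l : Rec} (hc : ∀ i < l.length, v ((coef l i : ℚ) : K) ≤ 1) {α : K}
    (hl : 1 ≤ l.length) (hα : RootK K l α) : v α ≤ 1 := by
  by_contra h
  push Not at h
  unfold RootK at hα
  have h1 : v (α ^ l.length) ≤ v α ^ (l.length - 1) := by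
    rw [hα]
    refine sum_le v _ _ _ (by positivity) fun i hi => ?_
    rw [map_mul, map_pow]
    have hi' := Finset.mem_range.1 hi
    have h2 : v α ^ (l.length - 1 - i) ≤ v α ^ (l.length - 1) :=
      pow_le_pow_right₀ h.le (by omega)
    have h3 := hc i hi'
    have h4 : 0 ≤ v α ^ (l.length - 1 - i) := by positivity
    calc v ((coef l i : ℚ) : K) * v α ^ (l.length - 1 - i) ≤ 1 * v α ^ (l.length - 1 - i) := by
          gcongr
      _ ≤ v α ^ (l.length - 1) := by rw [one_mul]; exact h2
  rw [map_pow] at h1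
  have h5 : v α ^ (l.length - 1) < v α ^ l.length := pow_lt_pow_right₀ h (by omega)
  linarith

lemma root_ge {l : Rec} (hc : ∀ i < l.length, v ((coef l i : ℚ) : K) ≤ 1)
    (hc1 : ∀ i < l.length, coef l i ≠ 0 → v ((coef l i : ℚ) : K) = 1) {α : K} (h0 : α ≠ 0)
    (hα : RootK K l α) (hle : v α ≤ 1) : 1 ≤ v α := by
  have hpos : 0 < v α := FinitePlace.pos_iff.2 h0
  set S := (range l.length).filter (fun i => coef l i ≠ 0) with hS
  have hne : S.Nonempty := by
    by_contra h
    rw [Finset.not_nonempty_iff_eq_empty] at h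
    have h1 : α ^ l.length = 0 := by
      unfold RootK at hα
      rw [hα]
      refine Finset.sum_eq_zero fun i hi => ?_
      have h2 : coef l i = 0 := by
        by_contra h3
        have : i ∈ S := Finset.mem_filter.2 ⟨hi, h3⟩
        rw [h] at this
        exact absurd this (Finset.notMem_empty i)
      rw [h2, Rat.cast_zero, zero_mul]
    exact pow_ne_zero _ h0 h1
  obtain ⟨j, hj, hmax⟩ := S.exists_max_image id hne
  obtain ⟨hjr, hj0⟩ := Finset.mem_filter.1 hj
  have hjl := Finset.mem_range.1 hjr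
  -- isolate the last term
  have h1 : ((coef l j : ℚ) : K) * α ^ (l.length - 1 - j) =
      α ^ l.length - ∑ i ∈ range j, ((coef l i : ℚ) : K) * α ^ (l.length - 1 - i) := by
    unfold RootK at hα
    rw [hα, eq_sub_iff_add_eq, add_comm, ← Finset.sum_range_succ]
    refine Finset.sum_subset (Finset.range_subset_range.2 hjl) fun i hi hi2 => ?_
    have h2 : coef l i = 0 := by
      by_contra h3
      have h4 := hmax i (Finset.mem_filter.2 ⟨hi, h3⟩)
      simp only [id_eq] at h4
      exact hi2 (Finset.mem_range.2 (by omega))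
    rw [h2, Rat.cast_zero, zero_mul]
  have h2 : v (((coef l j : ℚ) : K) * α ^ (l.length - 1 - j)) ≤ v α ^ (l.length - j) := by
    rw [h1]
    refine (sub_le v _ _).trans (max_le ?_ ?_)
    · rw [map_pow]
      exact pow_le_pow_of_le_one hpos.le hle (by omega)
    · refine sum_le v _ _ _ (by positivity) fun i hi => ?_
      have hi' := Finset.mem_range.1 hi
      rw [map_mul, map_pow]
      have h3 := hc i (by omega)
      have h4 : 0 ≤ v α ^ (l.length - 1 - i) := by positivity
      calc v ((coef l i : ℚ) : K) * v α ^ (l.length - 1 - i) ≤ 1 * v α ^ (l.length - 1 - i) := by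
            gcongr
        _ = v α ^ (l.length - 1 - i) := one_mul _
        _ ≤ v α ^ (l.length - j) := pow_le_pow_of_le_one hpos.le hle (by omega)
  rw [map_mul, map_pow, hc1 j hjl hj0, one_mul] at h2
  have h3 : l.length - j = (l.length - 1 - j) + 1 := by omega
  rw [h3, pow_succ] at h2
  have h4 : 0 < v α ^ (l.length - 1 - j) := by positivity
  by_contra h5
  push Not at h5
  nlinarith

end place

end PD

open PD Polynomial NumberField in
theorem pd : PD := by
  refine ⟨4, ?_⟩
  intro l K _ _ hl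
  have hsz : l.length ≤ sz l := len_le_sz l
  obtain ⟨p, hp, hp1, hp2⟩ := Nat.exists_prime_lt_and_le_two_mul (2 ^ (sz l + 2)) (by positivity)
  obtain ⟨v, hv⟩ := exists_place (K := K) p hp
  have h4 : 2 ^ (sz l) * 4 = 2 ^ (sz l + 2) := by rw [pow_add]; norm_num
  have hbig : 2 ^ (sz l) < p := by
    have : 0 < 2 ^ (sz l) := by positivity
    omega
  have hden : ∀ i < l.length, ¬ p ∣ (coef l i).den := by
    intro i hi hd
    have h1 := Nat.le_of_dvd (coef l i).den_pos hd
    have h2 := (coef_bound l i hi).2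
    omega
  have hnum : ∀ i < l.length, coef l i ≠ 0 → v ((coef l i : ℚ) : K) = 1 := by
    intro i hi h0
    rw [(rat_den v hp hv (coef l i) (hden i hi)).1]
    refine int_eq v hp hv _ ?_
    intro hd
    have h1 : p ∣ (coef l i).num.natAbs := by
      have := Int.natAbs_dvd_natAbs.2 hd
      simpa using this
    have h3 : 0 < (coef l i).num.natAbs := Int.natAbs_pos.2 (Rat.num_ne_zero.2 h0)
    have h2 := Nat.le_of_dvd h3 h1
    have h5 := (coef_bound l i hi).1
    omega
  have hle : ∀ i < l.length, v ((coef l i : ℚ) : K) ≤ 1 := by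
    intro i hi
    rw [(rat_den v hp hv (coef l i) (hden i hi)).1]
    exact int_le v _
  -- the integer polynomial
  have hb : ∀ i, ∃ b : ℤ, i < l.length → v (((coef l i : ℚ) : K) - (b : K)) ≤ v (p : K) := by
    intro i
    by_cases hi : i < l.length
    · obtain ⟨b, hb⟩ := (rat_den v hp hv (coef l i) (hden i hi)).2
      exact ⟨b, fun _ => hb⟩
    · exact ⟨0, fun h => absurd h hi⟩
  choose b hb using hb
  set f : ℤ[X] := X ^ l.length - ∑ i ∈ range l.length, C (b i) * X ^ (l.length - 1 - i) with hf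
  have hdeg : (∑ i ∈ range l.length, C (b i) * X ^ (l.length - 1 - i) : ℤ[X]).degree
      < (l.length : WithBot ℕ) := by
    refine (Polynomial.degree_sum_le _ _).trans_lt ?_
    rw [Finset.sup_lt_iff (by exact WithBot.bot_lt_coe _)]
    intro i hi
    refine (Polynomial.degree_C_mul_X_pow_le _ _).trans_lt ?_
    have := Finset.mem_range.mp hi
    exact_mod_cast (by omega : l.length - 1 - i < l.length)
  have hfm : f.Monic := (monic_X_pow _).sub_of_left (by rw [degree_X_pow]; exact hdeg)
  have hfd : f.natDegree = l.length := by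
    have : f.degree = l.length := by
      rw [hf, Polynomial.degree_sub_eq_left_of_degree_lt (by rw [degree_X_pow]; exact hdeg),
        degree_X_pow]
    exact Polynomial.natDegree_eq_of_degree_eq_some this
  obtain ⟨n1, n2, h12, hn2, Q, R, hQR⟩ := exists_exp hp f hfm
  rw [hfd] at hn2
  refine ⟨v, p, n2 - n1, hp, ?_, hv, by omega, ?_, ?_⟩
  · have : 1 ≤ 2 ^ (sz l) := Nat.one_le_pow _ _ (by norm_num)
    omega
  · -- the size of the exponent
    have hs1 : 1 ≤ sz l := hl.trans hsz
    calc n2 - n1 ≤ p ^ l.length := (Nat.sub_le _ _).trans hn2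
      _ ≤ (2 ^ (sz l + 3)) ^ l.length := by
          refine Nat.pow_le_pow_left ?_ _
          calc p ≤ 2 * 2 ^ (sz l + 2) := hp2
            _ = 2 ^ (sz l + 3) := by ring
      _ = 2 ^ ((sz l + 3) * l.length) := by rw [← pow_mul]
      _ ≤ 2 ^ (4 * sz l ^ 4) := by
          refine Nat.pow_le_pow_right (by norm_num) ?_
          calc (sz l + 3) * l.length ≤ (4 * sz l) * sz l := Nat.mul_le_mul (by omega) hsz
            _ = 4 * sz l ^ 2 := by ring
            _ ≤ 4 * sz l ^ 4 := Nat.mul_le_mul_left _ (Nat.pow_le_pow_right hs1 (by norm_num))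
  · intro α hα0 hα
    have h1 : v α ≤ 1 := root_le v hle hl hα
    have h2 : v α = 1 := le_antisymm h1 (root_ge v hle hnum hα0 hα h1)
    refine ⟨h2, ?_⟩
    have hp0 : 0 ≤ v (p : K) := apply_nonneg v _
    -- the value of f at α
    have h3 : v (aeval α f) ≤ v (p : K) := by
      have h5 : aeval α f = ∑ i ∈ range l.length,
          (((coef l i : ℚ) : K) - (b i : K)) * α ^ (l.length - 1 - i) := by
        rw [hf]
        simp only [map_sub, map_pow, aeval_X, map_sum, map_mul, aeval_C]
        unfold RootK at hα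
        rw [hα, ← Finset.sum_sub_distrib]
        refine Finset.sum_congr rfl fun i _ => ?_
        simp only [algebraMap_int_eq, eq_intCast]
        ring
      rw [h5]
      refine sum_le v _ _ _ hp0 fun i hi => ?_
      rw [map_mul, map_pow, h2, one_pow, mul_one]
      exact hb i (Finset.mem_range.1 hi)
    have h6 : α ^ n2 - α ^ n1 = aeval α f * aeval α Q + (p : K) * aeval α R := by
      have := congrArg (aeval α) hQR
      simpa using this
    have h7 : v (α ^ n2 - α ^ n1) ≤ v (p : K) := by
      rw [h6]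
      refine (add_le v _ _).trans (max_le ?_ ?_)
      · rw [map_mul]
        have h8 := aeval_le v h1 Q
        have h9 : 0 ≤ v (aeval α Q) := apply_nonneg v _
        have h10 : 0 ≤ v (aeval α f) := apply_nonneg v _
        nlinarith
      · rw [map_mul]
        have h8 := aeval_le v h1 R
        nlinarith
    have h8 : α ^ n2 - α ^ n1 = α ^ n1 * (α ^ (n2 - n1) - 1) := by
      rw [mul_sub, mul_one, ← pow_add]
      congr 2
      omega
    rw [h8, map_mul, map_pow, h2, one_pow, one_mul] at h7
    exact h7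

end Pool.Agent.TH997.UP
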