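import Pool.Agent.H612.LR.Defs

/-!
# Positivity of simple linear recurrences up to a universal sparse set of indices: statements

`CLs` is the central statement: the number of `n < N` with `u_n ≤ 0` and `n ≥ 2 ^ poly(size)` is at
most `2 ^ poly(size) * (log N + 1)` for every simple ultimately positive recurrence.
-/

set_option autoImplicit false

namespace Pool.Agent.TH997.UP

open Finset Pool.Agent.H612.LR
open scoped Classical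

/-! ### A. Number fields and linear algebra -/

/-- C9K: a `p`-adically analytic exponential sum with many zeros is small. -/
def C9K : Prop := ∀ (K : Type) [Field K] [NumberField K] (v : NumberField.FinitePlace K)
  (p : ℕ) (I : Finset K) (c x : K → K) (L : Finset ℕ) (A : ℝ),
  p.Prime → 3 ≤ p → v (p : K) < 1 → 0 ≤ A →
  (∀ μ ∈ I, v (c μ) ≤ A ∧ v (x μ) ≤ v (p : K)) →
  (∀ l ∈ L, ∑ μ ∈ I, c μ * (1 + x μ) ^ l = 0) →
  ∀ l : ℕ, v (∑ μ ∈ I, c μ * (1 + x μ) ^ l) ≤ A * v (p : K) ^ (L.card / 2)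

/-- DETH: height of a generalised Vandermonde determinant. -/
def DETH : Prop := ∀ (K : Type) [Field K] [NumberField K] (n B Y : ℕ) (e : Fin n → K)
  (t : Fin n → ℕ), Module.finrank ℚ K ≤ B → (∀ i, Height.logHeight₁ (e i) ≤ B) →
  (∀ j, t j ≤ Y) →
  Height.logHeight₁ (Matrix.of fun j i : Fin n => e i ^ t j).det ≤ n.factorial * (n * Y * B + B)

/-- ZBK: number of zeros of an exponential sum with arbitrary coefficients. -/
def ZBK : Prop := ∀ (K : Type) [Field K] [NumberField K] (v : NumberField.FinitePlace K)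
  (p N' m B : ℕ) (I : Finset K) (b : K → K) (S : Finset ℕ),
  p.Prime → 3 ≤ p → v (p : K) < 1 → 1 ≤ N' → 1 ≤ B → I.card ≤ m → Module.finrank ℚ K ≤ B →
  (∀ μ ∈ I, v μ = 1 ∧ v (μ ^ N' - 1) ≤ v (p : K) ∧ Height.logHeight₁ μ ≤ B) →
  (∀ μ ∈ I, ∀ ν ∈ I, μ ≠ ν → ∀ t : ℕ, 1 ≤ t → μ ^ t ≠ ν ^ t) →
  (∃ μ ∈ I, b μ ≠ 0) → (∀ t ∈ S, ∑ μ ∈ I, b μ * μ ^ t = 0) →
  S.card ≤ N' * (8 * m.factorial * (m ^ 2 * N' * B + B) + 4)

/-- RKK: a nonzero minor. -/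
def RKK : Prop := ∀ (K : Type) [Field K] (n : ℕ) (e : Fin n → K) (S : Finset ℕ),
  (∀ b : Fin n → K, (∀ t ∈ S, ∑ i, b i * e i ^ t = 0) → b = 0) →
  ∃ t : Fin n → ℕ, (∀ j, t j ∈ S) ∧ (Matrix.of fun j i : Fin n => e i ^ t j).det ≠ 0

/-- CRM: Cramer's rule. -/
def CRM : Prop := ∀ (n : ℕ) (u c : Fin n → ℂ) (t : Fin n → ℕ) (δ : ℝ), (∀ i, ‖u i‖ = 1) →
  (∀ j, ‖∑ i, c i * u i ^ t j‖ ≤ δ) →
  ∀ i, ‖c i‖ * ‖(Matrix.of fun j i : Fin n => u i ^ t j).det‖ ≤ n * n.factorial * δ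

/-- POSL: the dominant part of an ultimately positive exponential sum is nonnegative. -/
def POSL : Prop := ∀ (κ : Type) (I : Finset κ) (z c : κ → ℂ) (f : ℕ → ℝ) (R : ℝ), 0 < R →
  (∀ i ∈ I, ‖z i‖ ≤ R) → (∀ t, (f t : ℂ) = ∑ i ∈ I, c i * z i ^ t) →
  (∃ T, ∀ t, T ≤ t → 0 < f t) →
  ∀ t : ℕ, ∃ x : ℝ, 0 ≤ x ∧
    ∑ i ∈ I.filter (fun i => ‖z i‖ = R), c i * (z i / (R : ℂ)) ^ t = (x : ℂ)

/-- WIN: from windows to intervals. -/
def WIN : Prop := ∀ (P : ℕ → Prop) (X0 W Z : ℕ), 1 ≤ W → 1 ≤ X0 →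
  (∀ X, X0 ≤ X → ((Icc X (X + X / W)).filter P).card ≤ Z) →
  ∀ N : ℕ, ((range N).filter (fun t => X0 ≤ t ∧ P t)).card ≤ 2 * Z * W * (Nat.log 2 N + 1)

/-! ### B. The abstract counting theorem -/

/-- A positive nondegenerate exponential sum with controlled data. -/
structure Data (K : Type) [Field K] [NumberField K] (φ : K →+* ℂ) (I : Finset K) (γ : K → K)
    (v : NumberField.FinitePlace K) (p N' k B : ℕ) (f : ℕ → ℝ) : Prop where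
  ne : I.Nonempty
  card : I.card ≤ k
  B1 : 1 ≤ B
  deg : Module.finrank ℚ K ≤ B
  N1 : 1 ≤ N'
  NB : N' ≤ B
  pp : p.Prime
  p3 : 3 ≤ p
  vp : v (p : K) < 1
  nz : ∀ μ ∈ I, μ ≠ 0 ∧ γ μ ≠ 0
  hμ : ∀ μ ∈ I, Height.logHeight₁ μ ≤ B
  hγ : ∀ μ ∈ I, Height.logHeight₁ (γ μ) ≤ B
  vu : ∀ μ ∈ I, v μ = 1 ∧ v (μ ^ N' - 1) ≤ v (p : K)
  nd : ∀ μ ∈ I, ∀ ν ∈ I, μ ≠ ν → ∀ t : ℕ, 1 ≤ t → μ ^ t ≠ ν ^ t
  gap : ∀ μ ∈ I, ∀ ν ∈ I, ‖φ μ‖ < ‖φ ν‖ → ‖φ μ‖ ≤ ‖φ ν‖ * (1 - 1 / (B : ℝ))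
  rep : ∀ t, (f t : ℂ) = φ (∑ μ ∈ I, γ μ * μ ^ t)
  pos : ∃ T, ∀ t, T ≤ t → 0 < f t

/-- WND: few nonpositive values in a window. -/
def WND : Prop := ∀ (K : Type) [Field K] [NumberField K] (φ : K →+* ℂ) (I : Finset K)
  (γ : K → K) (v : NumberField.FinitePlace K) (p N' k B : ℕ) (f : ℕ → ℝ),
  Data K φ I γ v p N' k B f → ∀ X : ℕ, (B * (k + 1).factorial) ^ 6 ≤ X →
    ((Icc X (X + X / (B * (k + 1).factorial) ^ 4)).filter (fun t => f t ≤ 0)).card ≤ (B * (k + 1).factorial) ^ 8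

/-- ACT: few nonpositive values. -/
def ACT : Prop := ∀ (K : Type) [Field K] [NumberField K] (φ : K →+* ℂ) (I : Finset K)
  (γ : K → K) (v : NumberField.FinitePlace K) (p N' k B : ℕ) (f : ℕ → ℝ),
  Data K φ I γ v p N' k B f → ∀ N : ℕ,
    ((range N).filter (fun t => (B * (k + 1).factorial) ^ 6 ≤ t ∧ f t ≤ 0)).card ≤
      (B * (k + 1).factorial) ^ 13 * (Nat.log 2 N + 1)

/-! ### C. Recurrences -/

/-- The characteristic equation in a field of characteristic zero. -/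
def RootK (K : Type) [Field K] [CharZero K] (l : Rec) (α : K) : Prop :=
  α ^ l.length = ∑ i ∈ range l.length, ((coef l i : ℚ) : K) * α ^ (l.length - 1 - i)

/-- PD: a prime of good reduction. -/
def PD : Prop := ∃ C : ℕ, ∀ (l : Rec) (K : Type) [Field K] [NumberField K], 1 ≤ l.length →
  ∃ (v : NumberField.FinitePlace K) (p N' : ℕ), p.Prime ∧ 3 ≤ p ∧ v (p : K) < 1 ∧ 1 ≤ N' ∧
    N' ≤ 2 ^ (C * sz l ^ C) ∧
    ∀ α : K, α ≠ 0 → RootK K l α → v α = 1 ∧ v (α ^ N' - 1) ≤ v (p : K)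

/-- HB: heights of the coefficients of the closed form. -/
def HB : Prop := ∃ C : ℕ, ∀ (l : Rec) (K : Type) [Field K] [NumberField K] (φ : K →+* ℂ),
  1 ≤ l.length → Simple l → Module.finrank ℚ K ≤ l.length ^ l.length →
  (∀ z : ℂ, IsRoot l z → ∃ α : K, φ α = z) →
  ∃ (Λ : Finset K) (γ : K → K), Λ.card ≤ l.length ∧ (∀ α ∈ Λ, α ≠ 0 ∧ RootK K l α) ∧
    (∀ n, l.length ≤ n → ((seq l n : ℚ) : K) = ∑ α ∈ Λ, γ α * α ^ n) ∧
    ∀ α ∈ Λ, Height.logHeight₁ α ≤ (2 ^ (C * sz l ^ C) : ℕ) ∧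
      Height.logHeight₁ (γ α) ≤ (2 ^ (C * sz l ^ C) : ℕ)

/-- CLs: few large indices of nonpositive terms. -/
def CLs : Prop := ∃ C : ℕ, ∀ l : Rec, l ≠ [] → Simple l → UltPositive l → ∀ N : ℕ,
  ((range N).filter (fun n => 2 ^ (C * sz l ^ C) ≤ n ∧ seq l n ≤ 0)).card ≤
    2 ^ (C * sz l ^ C) * (Nat.log 2 N + 1)

/-! ### D. The universal set -/

/-- Integer instances: the list of the pairs `(A_{i+1}, U_i)`. -/
abbrev Z2 : Type := List (ℤ × ℤ)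

/-- The sequence of an integer instance. -/
def iseq (w : Z2) (n : ℕ) : ℤ :=
  if n < w.length then (w.getD n (0, 0)).2
  else ∑ i : Fin w.length, (w.getD i (0, 0)).1 * iseq w (n - 1 - i)
termination_by n
decreasing_by
  have h1 := i.2
  omega

/-- The size of an integer instance. -/
def isz (w : Z2) : ℕ := (w.map fun q => 1 + Nat.size q.1.natAbs + Nat.size q.2.natAbs).sum

/-- The number of nonpositive terms with index in `[T, n)`. -/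
noncomputable def cnt (w : Z2) (T n : ℕ) : ℕ :=
  ((range n).filter (fun m => T ≤ m ∧ iseq w m ≤ 0)).card

/-- The universal set. -/
def LS (A D : ℕ) : Set ℕ := {n | ∃ (s : ℕ) (w : Z2), isz w ≤ s ∧ 2 ^ (s ^ A) ≤ n ∧
  iseq w n ≤ 0 ∧ cnt w (2 ^ (s ^ A)) n ≤ 2 ^ (s ^ D) * (Nat.log 2 n + 1)}

/-- SCL: clearing denominators. -/
def SCL : Prop := ∀ l : Rec, l ≠ [] → ∃ w : Z2, w.length = l.length ∧ isz w ≤ 10 * sz l ^ 3 ∧
  ∀ n, (iseq w n ≤ 0 ↔ seq l n ≤ 0)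

/-- CNT: the universal set is sparse. -/
def CNT : Prop := ∀ (η : ℝ) (D : ℕ), 0 < η → ∃ A0 : ℕ, ∀ A, A0 ≤ A → ∃ N0 : ℕ, ∀ N : ℕ, N0 ≤ N →
  ((LS A D ∩ Set.Iio N).ncard : ℝ) ≤ Real.exp (Real.log N ^ η)

/-- CMP: the universal set is computable. -/
def CMP : Prop := ∀ A D : ℕ, 1 ≤ A → ComputablePred (fun n : ℕ => n ∈ LS A D)

end Pool.Agent.TH997.UP
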