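import Mathlib
import Pool.Agent.TH997.UP.Stm

/-!
# The dominant part of an ultimately positive exponential sum (job UP-POSL, helper416 for helper997)
-/

set_option autoImplicit false

namespace Pool.Agent.TH997.UP

open Finset Pool.Agent.H612.LR
open scoped Classical

namespace POSL

open Filter Topology

lemma recur {κ : Type} (J : Finset κ) (w : κ → ℂ) (hw : ∀ i ∈ J, ‖w i‖ = 1) :
    ∃ n : ℕ → ℕ, Tendsto n atTop atTop ∧
      ∀ i ∈ J, Tendsto (fun k => w i ^ n k) atTop (𝓝 1) := by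
  have hu : ∀ n : ℕ, (fun i : J => w i ^ n) ∈ Metric.closedBall (0 : J → ℂ) 1 := by
    intro n
    rw [mem_closedBall_zero_iff, pi_norm_le_iff_of_nonneg zero_le_one]
    intro i
    rw [norm_pow, hw i i.2, one_pow]
  obtain ⟨a, -, φ, hφ, hlim⟩ := (isCompact_closedBall (0 : J → ℂ) 1).tendsto_subseq hu
  rw [tendsto_pi_nhds] at hlim
  have hge : ∀ k, k ≤ φ (φ k + k) - φ k := by
    intro k
    have := hφ.le_apply (x := φ k + k)
    omega
  have hm : Tendsto (fun k => φ k + k) atTop atTop :=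
    tendsto_atTop_mono (fun k => Nat.le_add_left k (φ k)) tendsto_id
  refine ⟨fun k => φ (φ k + k) - φ k, tendsto_atTop_mono hge tendsto_id, fun i hi => ?_⟩
  have h1 : Tendsto (fun k => w i ^ φ k) atTop (𝓝 (a ⟨i, hi⟩)) := hlim ⟨i, hi⟩
  have h2 : Tendsto (fun k => w i ^ φ (φ k + k)) atTop (𝓝 (a ⟨i, hi⟩)) := h1.comp hm
  have hw0 : w i ≠ 0 := by
    intro h
    have := hw i hi
    rw [h, norm_zero] at this
    exact zero_ne_one this
  have ha : ‖a ⟨i, hi⟩‖ = 1 := by
    have h3 : Tendsto (fun k => ‖w i ^ φ k‖) atTop (𝓝 ‖a ⟨i, hi⟩‖) := h1.norm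
    have h4 : (fun k => ‖w i ^ φ k‖) = fun _ => (1 : ℝ) := by
      funext k
      rw [norm_pow, hw i hi, one_pow]
    rw [h4] at h3
    exact tendsto_nhds_unique h3 tendsto_const_nhds |>.symm ▸ rfl
  have ha0 : a ⟨i, hi⟩ ≠ 0 := by
    intro h
    rw [h, norm_zero] at ha
    exact zero_ne_one ha
  have h3 := h2.div h1 ha0
  rw [div_self ha0] at h3
  refine h3.congr fun k => ?_
  have h5 : φ k ≤ φ (φ k + k) := hφ.monotone (Nat.le_add_right _ _ |>.trans' (hφ.le_apply))
  simp only [Pi.div_apply]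
  rw [pow_sub₀ _ hw0 h5, div_eq_mul_inv]

end POSL

open Filter Topology in
theorem posl : POSL := by
  intro κ I z c f R hR hz hf hpos t
  obtain ⟨T, hT⟩ := hpos
  have hR' : (R : ℂ) ≠ 0 := by exact_mod_cast hR.ne'
  obtain ⟨n, hn, hlim⟩ := POSL.recur (I.filter (fun i => ‖z i‖ = R)) (fun i => z i / (R : ℂ))
    (fun i hi => by
      rw [norm_div, Complex.norm_real, Real.norm_eq_abs, abs_of_pos hR, (mem_filter.1 hi).2,
        div_self hR.ne'])
  have hnt : Tendsto (fun k => t + n k) atTop atTop :=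
    tendsto_atTop_mono (fun k => Nat.le_add_left (n k) t) hn
  have hG : Tendsto (fun k => ∑ i ∈ I, c i * (z i / (R : ℂ)) ^ (t + n k)) atTop
      (𝓝 (∑ i ∈ I.filter (fun i => ‖z i‖ = R), c i * (z i / (R : ℂ)) ^ t)) := by
    rw [sum_filter]
    refine tendsto_finsetSum _ fun i hi => ?_
    by_cases h : ‖z i‖ = R
    · rw [if_pos h]
      have h1 := (hlim i (mem_filter.2 ⟨hi, h⟩)).const_mul (c i * (z i / (R : ℂ)) ^ t)
      rw [mul_one] at h1
      refine h1.congr fun k => ?_
      rw [pow_add]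
      ring
    · rw [if_neg h]
      have h2 : ‖z i / (R : ℂ)‖ < 1 := by
        rw [norm_div, Complex.norm_real, Real.norm_eq_abs, abs_of_pos hR, div_lt_one hR]
        exact lt_of_le_of_ne (hz i hi) h
      have h3 := ((tendsto_pow_atTop_nhds_zero_of_norm_lt_one h2).comp hnt).const_mul (c i)
      rw [mul_zero] at h3
      exact h3
  have hval : ∀ k, ∑ i ∈ I, c i * (z i / (R : ℂ)) ^ (t + n k) =
      ((f (t + n k) / R ^ (t + n k) : ℝ) : ℂ) := by
    intro k
    rw [Complex.ofReal_div, hf, Complex.ofReal_pow, Finset.sum_div]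
    refine sum_congr rfl fun i _ => ?_
    rw [div_pow, mul_div_assoc]
  have hre : Tendsto (fun k => (f (t + n k) / R ^ (t + n k) : ℝ)) atTop
      (𝓝 (∑ i ∈ I.filter (fun i => ‖z i‖ = R), c i * (z i / (R : ℂ)) ^ t).re) := by
    have h1 := (Complex.continuous_re.tendsto _).comp hG
    refine h1.congr fun k => ?_
    simp only [Function.comp_apply]
    rw [hval, Complex.ofReal_re]
  have him : Tendsto (fun _ : ℕ => (0 : ℝ)) atTop
      (𝓝 (∑ i ∈ I.filter (fun i => ‖z i‖ = R), c i * (z i / (R : ℂ)) ^ t).im) := by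
    have h1 := (Complex.continuous_im.tendsto _).comp hG
    refine h1.congr fun k => ?_
    simp only [Function.comp_apply]
    rw [hval, Complex.ofReal_im]
  refine ⟨(∑ i ∈ I.filter (fun i => ‖z i‖ = R), c i * (z i / (R : ℂ)) ^ t).re, ?_, ?_⟩
  · refine ge_of_tendsto hre ?_
    filter_upwards [hnt.eventually_ge_atTop T] with k hk
    exact div_nonneg (hT _ hk).le (pow_nonneg hR.le _)
  · apply Complex.ext
    · rw [Complex.ofReal_re]
    · rw [Complex.ofReal_im]
      exact tendsto_nhds_unique him tendsto_const_nhds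

end Pool.Agent.TH997.UP
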