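import Pool.Agent.TH997.UP.Stm

/-!
# A nonzero generalised Vandermonde minor
(job UP-RKK of helper997, written by helper367)
-/

set_option autoImplicit false

namespace Pool.Agent.TH997.UP

open Finset Pool.Agent.H612.LR
open scoped Classical

namespace RKK

variable {K : Type} [Field K] {n : ℕ}

/-- the vectors of powers span everything -/
theorem span_top (e : Fin n → K) (S : Finset ℕ)
    (h : ∀ b : Fin n → K, (∀ t ∈ S, ∑ i, b i * e i ^ t = 0) → b = 0) :
    Submodule.span K ((fun t : ℕ => fun i : Fin n => e i ^ t) '' (S : Set ℕ)) = ⊤ := by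
  by_contra hne
  obtain ⟨f, hf0, hf⟩ := Submodule.exists_le_ker_of_lt_top _ (lt_top_iff_ne_top.2 hne)
  have hfa : ∀ v : Fin n → K, f v = ∑ y, f (Pi.single y 1) * v y := by
    intro v
    conv_lhs => rw [← Finset.univ_sum_single v]
    rw [map_sum]
    refine Finset.sum_congr rfl fun y _ => ?_
    have : (Pi.single y (v y) : Fin n → K) = v y • Pi.single y 1 := by
      rw [← Pi.single_smul, smul_eq_mul, mul_one]
    rw [this, map_smul, smul_eq_mul, mul_comm]
  have hb := h (fun y => f (Pi.single y 1)) (fun t ht => by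
    have h1 : f (fun i : Fin n => e i ^ t) = 0 := hf (Submodule.subset_span ⟨t, ht, rfl⟩)
    rw [hfa] at h1
    exact h1)
  apply hf0
  refine LinearMap.ext fun v => ?_
  rw [hfa, LinearMap.zero_apply]
  refine Finset.sum_eq_zero fun y _ => ?_
  have := congrFun hb y
  simp only [Pi.zero_apply] at this
  rw [this, zero_mul]

end RKK

theorem rkk : RKK := by
  intro K _ n e S h
  have htop := RKK.span_top e S h
  obtain ⟨b, hb1, hb2, hb3⟩ := exists_linearIndependent K
    ((fun t : ℕ => fun i : Fin n => e i ^ t) '' (S : Set ℕ))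
  rw [htop] at hb2
  have hfin : Finite b := hb3.finite
  have : Fintype b := Fintype.ofFinite b
  have hcard : Fintype.card b = Fintype.card (Fin n) := by
    have h1 : Module.finrank K (Submodule.span K (Set.range (Subtype.val : b → _))) =
        Fintype.card b := finrank_span_eq_card hb3
    rw [Subtype.range_coe, hb2, finrank_top, Module.finrank_fintype_fun_eq_card] at h1
    exact h1.symm
  let e' : Fin n ≃ b := (Fintype.equivOfCardEq hcard).symm
  have hch : ∀ x, ∃ t ∈ S, (fun i : Fin n => e i ^ t) = (e' x : Fin n → K) := by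
    intro x
    obtain ⟨t, ht, he⟩ := hb1 (e' x).2
    exact ⟨t, ht, he⟩
  choose t ht1 ht2 using hch
  refine ⟨t, ht1, ?_⟩
  set Mx : Matrix (Fin n) (Fin n) K := Matrix.of fun j i : Fin n => e i ^ t j with hM
  have hrow : Mx.row = (Subtype.val : b → _) ∘ e' := by
    funext x
    rw [Function.comp_apply, ← ht2]
    rfl
  have hLI : LinearIndependent K Mx.row := by
    rw [hrow]
    exact hb3.comp e' e'.injective
  have hu := Matrix.linearIndependent_rows_iff_isUnit.1 hLI
  rw [Matrix.isUnit_iff_isUnit_det] at hu
  exact hu.ne_zero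

end Pool.Agent.TH997.UP
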