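import Pool.Agent.TH997.UP.Stm

/-!
# UP-WIN: from windows to intervals (job 3595)
-/

set_option autoImplicit false

namespace Pool.Agent.TH997.UP

open Finset Pool.Agent.H612.LR
open scoped Classical

namespace WIN

/-- a dyadic block is covered by `W` windows -/
lemma block (P : ℕ → Prop) (X0 W Z : ℕ) (hW : 1 ≤ W)
    (h : ∀ X, X0 ≤ X → ((Icc X (X + X / W)).filter P).card ≤ Z) (Y : ℕ) (hY : X0 ≤ Y) :
    ((Ico Y (2 * Y + 1)).filter P).card ≤ W * Z := by
  have h1 : (Ico Y (2 * Y + 1)).filter P ⊆ (range W).biUnion (fun i =>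
      (Icc (Y + i * (Y / W + 1)) (Y + i * (Y / W + 1) + (Y + i * (Y / W + 1)) / W)).filter P) := by
    intro t ht
    rw [mem_filter, mem_Ico] at ht
    obtain ⟨⟨h1, h2⟩, h3⟩ := ht
    rw [mem_biUnion]
    have h4 := Nat.div_add_mod (t - Y) (Y / W + 1)
    have h5 : (t - Y) % (Y / W + 1) < Y / W + 1 := Nat.mod_lt _ (Nat.succ_pos _)
    have h6 : (t - Y) / (Y / W + 1) < W := by
      apply Nat.div_lt_of_lt_mul
      have h7 := Nat.div_add_mod Y W
      have h8 := Nat.mod_lt Y (show 0 < W by omega)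
      have h9 : (Y / W + 1) * W = W * (Y / W) + W := by ring
      omega
    refine ⟨(t - Y) / (Y / W + 1), mem_range.2 h6, ?_⟩
    rw [mem_filter, mem_Icc]
    have h7 : (Y / W + 1) * ((t - Y) / (Y / W + 1)) = (t - Y) / (Y / W + 1) * (Y / W + 1) :=
      mul_comm _ _
    have h8 : Y / W ≤ (Y + (t - Y) / (Y / W + 1) * (Y / W + 1)) / W :=
      Nat.div_le_div_right (Nat.le_add_right _ _)
    refine ⟨⟨by omega, by omega⟩, h3⟩
  refine (card_le_card h1).trans ?_
  refine (card_biUnion_le_card_mul _ _ Z fun i _ => h _ (hY.trans (Nat.le_add_right _ _))).trans ?_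
  rw [card_range]

lemma main (P : ℕ → Prop) (X0 W Z : ℕ) (hW : 1 ≤ W) (hX : 1 ≤ X0)
    (h : ∀ X, X0 ≤ X → ((Icc X (X + X / W)).filter P).card ≤ Z) :
    ∀ N : ℕ, ((range N).filter (fun t => X0 ≤ t ∧ P t)).card ≤ W * Z * (Nat.log 2 N + 1) := by
  intro N
  induction N using Nat.strong_induction_on with
  | _ N ih =>
    by_cases h1 : N / 2 < X0
    · have h2 : (range N).filter (fun t => X0 ≤ t ∧ P t) ⊆ (Ico X0 (2 * X0 + 1)).filter P := by
        intro t ht
        rw [mem_filter, mem_range] at ht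
        rw [mem_filter, mem_Ico]
        exact ⟨⟨ht.2.1, by omega⟩, ht.2.2⟩
      refine (card_le_card h2).trans ((block P X0 W Z hW h X0 le_rfl).trans ?_)
      exact Nat.le_mul_of_pos_right _ (Nat.succ_pos _)
    · have h2 : (range N).filter (fun t => X0 ≤ t ∧ P t) ⊆
          (range (N / 2)).filter (fun t => X0 ≤ t ∧ P t) ∪
            (Ico (N / 2) (2 * (N / 2) + 1)).filter P := by
        intro t ht
        rw [mem_filter, mem_range] at ht
        rw [mem_union, mem_filter, mem_filter, mem_range, mem_Ico]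
        by_cases h3 : t < N / 2
        · exact Or.inl ⟨h3, ht.2⟩
        · exact Or.inr ⟨⟨by omega, by omega⟩, ht.2.2⟩
      have h3 := ih (N / 2) (by omega)
      have h4 := block P X0 W Z hW h (N / 2) (by omega)
      have h5 : Nat.log 2 N = Nat.log 2 (N / 2) + 1 := by
        rw [Nat.log_div_base]
        have : 0 < Nat.log 2 N := Nat.log_pos (by norm_num) (by omega)
        omega
      calc _ ≤ _ := card_le_card h2
        _ ≤ _ := card_union_le _ _
        _ ≤ W * Z * (Nat.log 2 (N / 2) + 1) + W * Z := by omega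
        _ = W * Z * (Nat.log 2 N + 1) := by rw [h5]; ring

end WIN

theorem win : WIN := by
  intro P X0 W Z hW hX h N
  refine (WIN.main P X0 W Z hW hX h N).trans ?_
  have : 2 * Z * W = W * Z + W * Z := by ring
  rw [this]
  exact Nat.mul_le_mul_right _ (Nat.le_add_right _ _)

end Pool.Agent.TH997.UP
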