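import Pool.Agent.TH997.UP.Stm

/-!
# Few nonpositive values in a short window
-/

set_option autoImplicit false

namespace Pool.Agent.TH997.UP

open Finset Pool.Agent.H612.LR
open scoped Classical

namespace WND

theorem log_le_height {K : Type} [Field K] [NumberField K] (φ : K →+* ℂ) (x : K) :
    Real.log ‖φ x‖ ≤ Height.logHeight₁ x := by
  rw [NumberField.logHeight₁_eq]
  have h1 : 0 ≤ ∑ᶠ v : NumberField.FinitePlace K, Real.posLog (v x) :=
    finsum_nonneg fun v => Real.posLog_nonneg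
  have h2 : ((NumberField.InfinitePlace.mk φ).mult : ℝ) *
      Real.posLog ((NumberField.InfinitePlace.mk φ) x) ≤
      ∑ v : NumberField.InfinitePlace K, (v.mult : ℝ) * Real.posLog (v x) :=
    Finset.single_le_sum (f := fun v : NumberField.InfinitePlace K =>
      (v.mult : ℝ) * Real.posLog (v x))
      (fun v _ => mul_nonneg (Nat.cast_nonneg _) Real.posLog_nonneg)
      (Finset.mem_univ (NumberField.InfinitePlace.mk φ))
  have h3 : (1 : ℝ) ≤ ((NumberField.InfinitePlace.mk φ).mult : ℝ) := by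
    exact_mod_cast NumberField.InfinitePlace.mult_pos
  have h4 : Real.log ‖φ x‖ ≤ Real.posLog ((NumberField.InfinitePlace.mk φ) x) := by
    rw [NumberField.InfinitePlace.apply]
    exact le_max_right _ _
  have h5 : 0 ≤ Real.posLog ((NumberField.InfinitePlace.mk φ) x) := Real.posLog_nonneg
  nlinarith

theorem le_exp {K : Type} [Field K] [NumberField K] (φ : K →+* ℂ) (x : K) (A : ℝ)
    (hA : Height.logHeight₁ x ≤ A) : ‖φ x‖ ≤ Real.exp A := by
  rcases eq_or_ne (φ x) 0 with h | h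
  · rw [h, norm_zero]; positivity
  · rw [← Real.log_le_iff_le_exp (norm_pos_iff.2 h)]
    exact (log_le_height φ x).trans hA

theorem exp_le {K : Type} [Field K] [NumberField K] (φ : K →+* ℂ) (x : K) (hx : x ≠ 0) (A : ℝ)
    (hA : Height.logHeight₁ x ≤ A) : Real.exp (-A) ≤ ‖φ x‖ := by
  have h1 : φ x ≠ 0 := (map_ne_zero φ).2 hx
  have h2 := le_exp φ x⁻¹ A (by rw [Height.logHeight₁_inv]; exact hA)
  rw [map_inv₀, norm_inv] at h2
  rw [Real.exp_neg]
  exact inv_le_of_inv_le₀ (norm_pos_iff.2 h1) h2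

theorem pow_le (B : ℕ) (hB : 1 ≤ B) (X : ℕ) :
    (1 - 1 / (B : ℝ)) ^ X ≤ Real.exp (-(X / B : ℝ)) := by
  have hB' : (1 : ℝ) ≤ B := by exact_mod_cast hB
  have h0 : 0 ≤ 1 - 1 / (B : ℝ) := by
    rw [sub_nonneg, div_le_one (by linarith)]; exact hB'
  have h1 : 1 - 1 / (B : ℝ) ≤ Real.exp (-(1 / B : ℝ)) := by
    have := Real.add_one_le_exp (-(1 / B : ℝ))
    linarith
  calc (1 - 1 / (B : ℝ)) ^ X ≤ Real.exp (-(1 / B : ℝ)) ^ X := pow_le_pow_left₀ h0 h1 X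
    _ = Real.exp (-(X / B : ℝ)) := by
      rw [← Real.exp_nat_mul]
      congr 1
      ring

/-- the final arithmetic -/
theorem arith (B k Q X Y n : ℕ) (hB : 1 ≤ B) (hk : 1 ≤ k) (hQ : Q = B * (k + 1).factorial)
    (hX : Q ^ 6 ≤ X) (hY : Y * Q ^ 4 ≤ X) (hn : n ≤ k)
    (h : Real.exp (-(B : ℝ)) * (Real.exp (-((Q : ℝ) * Y + Q)) * Real.exp (-((B : ℝ) * n * Y))) ≤
      n * n.factorial * (k * Real.exp B * Real.exp (-(X / B : ℝ)))) : False := by
  have hf2 : 2 ≤ (k + 1).factorial := by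
    calc 2 = (1 + 1).factorial := rfl
      _ ≤ (k + 1).factorial := Nat.factorial_le (by omega)
  have hkf : k + 1 ≤ (k + 1).factorial := Nat.self_le_factorial _
  have hBQ : 2 * B ≤ Q := by rw [hQ]; nlinarith
  have hQ2 : 2 ≤ Q := by omega
  have hkQ : B * (k + 1) ≤ Q := by rw [hQ]; exact Nat.mul_le_mul_left _ hkf
  have hk1 : k ≤ Q := by nlinarith
  have hnf : n * n.factorial ≤ Q := by
    calc n * n.factorial ≤ (k + 1) * k.factorial :=
          Nat.mul_le_mul (by omega) (Nat.factorial_le hn)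
      _ = (k + 1).factorial := by rw [Nat.factorial_succ]
      _ ≤ Q := by rw [hQ]; exact Nat.le_mul_of_pos_left _ hB
  have hQR : (2 : ℝ) ≤ Q := by exact_mod_cast hQ2
  have hQe : (Q : ℝ) ≤ Real.exp Q := by
    have := Real.add_one_le_exp (Q : ℝ)
    linarith
  have h1 : (n : ℝ) * n.factorial * (k * Real.exp B * Real.exp (-(X / B : ℝ))) ≤
      Real.exp (2 * Q + B - X / B) := by
    have h2 : (n : ℝ) * n.factorial ≤ Real.exp Q :=
      le_trans (by exact_mod_cast hnf) hQe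
    have h3 : (k : ℝ) ≤ Real.exp Q := le_trans (by exact_mod_cast hk1) hQe
    calc (n : ℝ) * n.factorial * (k * Real.exp B * Real.exp (-(X / B : ℝ))) ≤
        Real.exp Q * (Real.exp Q * Real.exp B * Real.exp (-(X / B : ℝ))) := by gcongr
      _ = Real.exp (2 * Q + B - X / B) := by
        rw [← Real.exp_add, ← Real.exp_add, ← Real.exp_add]
        congr 1; ring
  have h2 := h.trans h1
  rw [← Real.exp_add, ← Real.exp_add, Real.exp_le_exp] at h2
  have hBpos : (0 : ℝ) < B := by exact_mod_cast hB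
  have hBR : 2 * (B : ℝ) ≤ Q := by exact_mod_cast hBQ
  -- X / B ≤ 4 Q + 2 Q Y
  have hBn : (B : ℝ) * n ≤ Q := by
    have : B * n ≤ Q := le_trans (Nat.mul_le_mul_left _ (by omega)) hkQ
    exact_mod_cast this
  have hYR : (0 : ℝ) ≤ Y := Nat.cast_nonneg _
  have h3 : (X : ℝ) / B ≤ 4 * Q + 2 * Q * Y := by
    have : (B : ℝ) * n * Y ≤ Q * Y := mul_le_mul_of_nonneg_right hBn hYR
    nlinarith
  rw [div_le_iff₀ hBpos] at h3
  have h4 : (X : ℝ) ≤ (4 * Q + 2 * Q * Y) * (Q / 2) := by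
    refine h3.trans (mul_le_mul_of_nonneg_left (by linarith) (by positivity))
  have h5 : (X : ℝ) ≤ 2 * Q ^ 2 + Q ^ 2 * Y := by nlinarith
  have hYX : (Y : ℝ) * Q ^ 4 ≤ X := by exact_mod_cast hY
  have hXR : (Q : ℝ) ^ 6 ≤ X := by exact_mod_cast hX
  have hQ2p : (4 : ℝ) ≤ (Q : ℝ) ^ 2 := by nlinarith
  have hQ4p : (16 : ℝ) ≤ (Q : ℝ) ^ 4 := by nlinarith
  -- Q ^ 2 * X ≤ 2 Q ^ 4 + Y Q ^ 4 ≤ 2 Q ^ 4 + X
  have h6 : (Q : ℝ) ^ 2 * X ≤ 2 * Q ^ 4 + X := by
    calc (Q : ℝ) ^ 2 * X ≤ Q ^ 2 * (2 * Q ^ 2 + Q ^ 2 * Y) :=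
          mul_le_mul_of_nonneg_left h5 (by positivity)
      _ = 2 * Q ^ 4 + Y * Q ^ 4 := by ring
      _ ≤ _ := by linarith
  have hX0 : (0 : ℝ) ≤ X := Nat.cast_nonneg _
  have h7 : 3 * (X : ℝ) ≤ 2 * Q ^ 4 := by nlinarith
  have h8 : (Q : ℝ) ^ 6 = Q ^ 2 * Q ^ 4 := by ring
  nlinarith

theorem arith2 (B k N' : ℕ) (hB : 1 ≤ B) (hk : 1 ≤ k) (hN : N' ≤ B) :
    N' * (8 * k.factorial * (k ^ 2 * N' * B + B) + 4) ≤ (B * (k + 1).factorial) ^ 8 := by
  set Q := B * (k + 1).factorial with hQ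
  have hf2 : 2 ≤ (k + 1).factorial := by
    calc 2 = (1 + 1).factorial := rfl
      _ ≤ (k + 1).factorial := Nat.factorial_le (by omega)
  have hkf : k + 1 ≤ (k + 1).factorial := Nat.self_le_factorial _
  have hBQ : 2 * B ≤ Q := by rw [hQ]; nlinarith
  have hQ2 : 2 ≤ Q := by omega
  have hkQ : B * (k + 1) ≤ Q := by rw [hQ]; exact Nat.mul_le_mul_left _ hkf
  have hfac : 2 * k.factorial ≤ Q := by
    rw [hQ, Nat.factorial_succ]
    calc 2 * k.factorial ≤ (k + 1) * k.factorial := Nat.mul_le_mul_right _ (by omega)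
      _ ≤ B * ((k + 1) * k.factorial) := Nat.le_mul_of_pos_left _ hB
  have h1 : k ^ 2 * N' * B + B ≤ Q ^ 2 := by
    calc k ^ 2 * N' * B + B ≤ k ^ 2 * B * B + B * B := by
          have : B ≤ B * B := Nat.le_mul_of_pos_left _ hB
          have h2 : k ^ 2 * N' * B ≤ k ^ 2 * B * B :=
            Nat.mul_le_mul_right _ (Nat.mul_le_mul_left _ hN)
          omega
      _ ≤ (B * (k + 1)) ^ 2 := by nlinarith
      _ ≤ Q ^ 2 := Nat.pow_le_pow_left hkQ 2
  have h2 : 8 * k.factorial * (k ^ 2 * N' * B + B) + 4 ≤ 4 * Q ^ 3 + 4 := by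
    have : 8 * k.factorial * (k ^ 2 * N' * B + B) ≤ 4 * Q * Q ^ 2 :=
      Nat.mul_le_mul (by omega) h1
    calc _ ≤ 4 * Q * Q ^ 2 + 4 := by omega
      _ = _ := by ring
  calc N' * (8 * k.factorial * (k ^ 2 * N' * B + B) + 4) ≤ Q * (4 * Q ^ 3 + 4) :=
        Nat.mul_le_mul (by omega) h2
    _ = 4 * Q ^ 4 + 4 * Q := by ring
    _ ≤ Q ^ 8 := by
      have h3 : 16 ≤ Q ^ 4 := by
        calc 16 = 2 ^ 4 := by norm_num
          _ ≤ Q ^ 4 := Nat.pow_le_pow_left hQ2 4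
      have h4 : Q ≤ Q ^ 4 := Nat.le_self_pow (by norm_num) Q
      have h5 : Q ^ 8 = Q ^ 4 * Q ^ 4 := by ring
      nlinarith

theorem sum_equiv {K E : Type} [AddCommMonoid E] (M : Finset K) (g : K → E) :
    ∑ i : Fin M.card, g (M.equivFin.symm i : K) = ∑ μ ∈ M, g μ := by
  rw [← Finset.sum_coe_sort M g]
  exact Equiv.sum_comp M.equivFin.symm (fun x : M => g x)

theorem minor (hZ : ZBK) (hR : RKK) (K : Type) [Field K] [NumberField K]
    (v : NumberField.FinitePlace K) (p N' k B : ℕ) (M : Finset K) (S : Finset ℕ)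
    (hp : p.Prime) (hp3 : 3 ≤ p) (hvp : v (p : K) < 1) (hN1 : 1 ≤ N') (hB1 : 1 ≤ B)
    (hMk : M.card ≤ k) (hdeg : Module.finrank ℚ K ≤ B)
    (hM : ∀ μ ∈ M, v μ = 1 ∧ v (μ ^ N' - 1) ≤ v (p : K) ∧ Height.logHeight₁ μ ≤ B)
    (hnd : ∀ μ ∈ M, ∀ ν ∈ M, μ ≠ ν → ∀ t : ℕ, 1 ≤ t → μ ^ t ≠ ν ^ t)
    (hS : N' * (8 * k.factorial * (k ^ 2 * N' * B + B) + 4) < S.card) :
    ∃ t : Fin M.card → ℕ, (∀ j, t j ∈ S) ∧
      (Matrix.of fun j i : Fin M.card => (M.equivFin.symm i : K) ^ t j).det ≠ 0 := by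
  apply hR
  intro b hb
  by_contra hne
  obtain ⟨i0, hi0⟩ := Function.ne_iff.1 hne
  obtain ⟨b', hb'⟩ : ∃ b' : K → K, ∀ i : Fin M.card, b' (M.equivFin.symm i : K) = b i :=
    ⟨fun μ : K => if h : μ ∈ M then b (M.equivFin ⟨μ, h⟩) else 0, fun i => by simp⟩
  have hsum : ∀ t ∈ S, ∑ μ ∈ M, b' μ * μ ^ t = 0 := by
    intro t ht
    rw [← sum_equiv M (fun μ => b' μ * μ ^ t), ← hb t ht]
    refine Finset.sum_congr rfl fun i _ => ?_
    rw [← hb' i]
  have := hZ K v p N' k B M b' S hp hp3 hvp hN1 hB1 hMk hdeg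
    hM hnd ⟨_, (M.equivFin.symm i0).2, by rw [hb']; exact hi0⟩ hsum
  omega

theorem det_shift {F : Type} [Field F] (n X : ℕ) (e : Fin n → F) (t s : Fin n → ℕ)
    (h : ∀ j, t j = X + s j) :
    (Matrix.of fun j i : Fin n => e i ^ t j).det =
      (∏ i, e i ^ X) * (Matrix.of fun j i : Fin n => e i ^ s j).det := by
  rw [← Matrix.det_mul_row]
  congr 1
  ext j i
  simp only [Matrix.of_apply]
  rw [h, pow_add]

theorem det_scale {K : Type} [Field K] (φ : K →+* ℂ) (n : ℕ) (r : ℂ) (e : Fin n → K)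
    (s : Fin n → ℕ) :
    (Matrix.of fun j i : Fin n => (φ (e i) / r) ^ s j).det =
      (∏ j, (1 / r) ^ s j) * φ (Matrix.of fun j i : Fin n => e i ^ s j).det := by
  rw [RingHom.map_det, ← Matrix.det_mul_column]
  congr 1
  ext j i
  simp only [Matrix.of_apply, RingHom.mapMatrix_apply, Matrix.map_apply, map_pow]
  rw [← mul_pow]
  congr 1
  ring

theorem norm_det {K : Type} [Field K] (φ : K →+* ℂ) (n X Y B : ℕ) (R H : ℝ) (hR : 0 < R)
    (hRB : R ≤ Real.exp B) (e : Fin n → K) (he : ∀ i, ‖φ (e i)‖ = R) (t s : Fin n → ℕ)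
    (h : ∀ j, t j = X + s j) (hs : ∀ j, s j ≤ Y)
    (hH : Real.exp (-H) ≤ ‖φ (Matrix.of fun j i : Fin n => e i ^ s j).det‖) :
    Real.exp (-H) * Real.exp (-((B : ℝ) * n * Y)) ≤
      ‖(Matrix.of fun j i : Fin n => (φ (e i) / (R : ℂ)) ^ t j).det‖ := by
  rw [det_shift n X (fun i => φ (e i) / (R : ℂ)) t s h, det_scale φ n (R : ℂ) e s, norm_mul,
    norm_mul, norm_prod, norm_prod]
  have h1 : ∏ i : Fin n, ‖(φ (e i) / (R : ℂ)) ^ X‖ = 1 := by
    refine Finset.prod_eq_one fun i _ => ?_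
    rw [norm_pow, norm_div, he, Complex.norm_real, Real.norm_of_nonneg hR.le, div_self hR.ne',
      one_pow]
  rw [h1, one_mul]
  have h2 : Real.exp (-((B : ℝ) * n * Y)) ≤ ∏ j : Fin n, ‖((1 : ℂ) / (R : ℂ)) ^ s j‖ := by
    have h3 : ∀ j : Fin n, Real.exp (-((B : ℝ) * Y)) ≤ ‖((1 : ℂ) / (R : ℂ)) ^ s j‖ := by
      intro j
      rw [norm_pow, norm_div, norm_one, Complex.norm_real, Real.norm_of_nonneg hR.le]
      have h4 : Real.exp (-(B : ℝ)) ≤ 1 / R := by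
        rw [Real.exp_neg, one_div]
        exact inv_anti₀ hR hRB
      calc Real.exp (-((B : ℝ) * Y)) ≤ Real.exp (-((B : ℝ) * s j)) := by
            apply Real.exp_le_exp.2
            have : (s j : ℝ) ≤ Y := by exact_mod_cast hs j
            have hB0 : (0 : ℝ) ≤ B := Nat.cast_nonneg _
            nlinarith
        _ = Real.exp (-(B : ℝ)) ^ s j := by
            rw [← Real.exp_nat_mul]
            congr 1
            ring
        _ ≤ (1 / R) ^ s j := pow_le_pow_left₀ (Real.exp_nonneg _) h4 _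
    calc Real.exp (-((B : ℝ) * n * Y)) = ∏ _j : Fin n, Real.exp (-((B : ℝ) * Y)) := by
          rw [Finset.prod_const, Finset.card_univ, Fintype.card_fin, ← Real.exp_nat_mul]
          congr 1
          ring
      _ ≤ _ := Finset.prod_le_prod (fun _ _ => Real.exp_nonneg _) (fun j _ => h3 j)
  rw [mul_comm]
  exact mul_le_mul h2 hH (Real.exp_nonneg _) (Finset.prod_nonneg fun _ _ => norm_nonneg _)

/-- the dominant part is small where the sum is nonpositive -/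
theorem dom_small {K : Type} [Field K] (φ : K →+* ℂ) (I : Finset K) (γ : K → K) (k B X t : ℕ)
    (f : ℕ → ℝ) (R : ℝ) (hR : 0 < R) (hB : 1 ≤ B) (hk : I.card ≤ k)
    (hγ : ∀ μ ∈ I, ‖φ (γ μ)‖ ≤ Real.exp B)
    (hgap : ∀ μ ∈ I, ‖φ μ‖ ≠ R → ‖φ μ‖ ≤ R * (1 - 1 / (B : ℝ)))
    (hrep : (f t : ℂ) = φ (∑ μ ∈ I, γ μ * μ ^ t)) (hf : f t ≤ 0) (hXt : X ≤ t)
    (hx : ∃ x : ℝ, 0 ≤ x ∧
      ∑ i ∈ I.filter (fun i => ‖φ i‖ = R), φ (γ i) * (φ i / (R : ℂ)) ^ t = (x : ℂ)) :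
    ‖∑ i ∈ I.filter (fun i => ‖φ i‖ = R), φ (γ i) * (φ i / (R : ℂ)) ^ t‖ ≤
      k * Real.exp B * Real.exp (-(X / B : ℝ)) := by
  obtain ⟨x, hx0, hx⟩ := hx
  have hRC : (R : ℂ) ≠ 0 := by exact_mod_cast hR.ne'
  have h1 : ((f t / R ^ t : ℝ) : ℂ) = ∑ μ ∈ I, φ (γ μ) * (φ μ / (R : ℂ)) ^ t := by
    push_cast
    rw [hrep, map_sum, Finset.sum_div]
    refine Finset.sum_congr rfl fun μ _ => ?_
    rw [map_mul, map_pow, div_pow]
    ring
  rw [← Finset.sum_filter_add_sum_filter_not I (fun i => ‖φ i‖ = R), hx] at h1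
  have h2 : ∑ μ ∈ I.filter (fun i => ¬ ‖φ i‖ = R), φ (γ μ) * (φ μ / (R : ℂ)) ^ t =
      ((f t / R ^ t - x : ℝ) : ℂ) := by
    have : ((f t / R ^ t - x : ℝ) : ℂ) = ((f t / R ^ t : ℝ) : ℂ) - (x : ℂ) := by push_cast; ring
    rw [this, h1]
    ring
  have h3 : f t / R ^ t ≤ 0 := div_nonpos_of_nonpos_of_nonneg hf (pow_nonneg hR.le _)
  have h4 : x ≤ ‖∑ μ ∈ I.filter (fun i => ¬ ‖φ i‖ = R), φ (γ μ) * (φ μ / (R : ℂ)) ^ t‖ := by
    rw [h2, Complex.norm_real, Real.norm_eq_abs, abs_of_nonpos (by linarith)]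
    linarith
  rw [hx, Complex.norm_real, Real.norm_of_nonneg hx0]
  refine h4.trans ((norm_sum_le _ _).trans ?_)
  have hB' : (1 : ℝ) ≤ B := by exact_mod_cast hB
  have h0 : 0 ≤ 1 - 1 / (B : ℝ) := by
    rw [sub_nonneg, div_le_one (by linarith)]; exact hB'
  have h01 : 1 - 1 / (B : ℝ) ≤ 1 := by
    have : 0 ≤ 1 / (B : ℝ) := by positivity
    linarith
  have h5 : ∀ μ ∈ I.filter (fun i => ¬ ‖φ i‖ = R), ‖φ (γ μ) * (φ μ / (R : ℂ)) ^ t‖ ≤
      Real.exp B * Real.exp (-(X / B : ℝ)) := by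
    intro μ hμ
    rw [Finset.mem_filter] at hμ
    rw [norm_mul, norm_pow, norm_div, Complex.norm_real, Real.norm_of_nonneg hR.le]
    have h6 : ‖φ μ‖ / R ≤ 1 - 1 / (B : ℝ) := by
      rw [div_le_iff₀ hR]
      have := hgap μ hμ.1 hμ.2
      linarith
    have h7 : (‖φ μ‖ / R) ^ t ≤ Real.exp (-(X / B : ℝ)) :=
      calc (‖φ μ‖ / R) ^ t ≤ (1 - 1 / (B : ℝ)) ^ t :=
            pow_le_pow_left₀ (by positivity) h6 t
        _ ≤ (1 - 1 / (B : ℝ)) ^ X := pow_le_pow_of_le_one h0 h01 hXt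
        _ ≤ _ := pow_le B hB X
    exact mul_le_mul (hγ μ hμ.1) h7 (by positivity) (Real.exp_nonneg _)
  calc ∑ μ ∈ I.filter (fun i => ¬ ‖φ i‖ = R), ‖φ (γ μ) * (φ μ / (R : ℂ)) ^ t‖ ≤
        ∑ _μ ∈ I.filter (fun i => ¬ ‖φ i‖ = R), Real.exp B * Real.exp (-(X / B : ℝ)) :=
        Finset.sum_le_sum h5
    _ = ((I.filter (fun i => ¬ ‖φ i‖ = R)).card : ℝ) *
        (Real.exp B * Real.exp (-(X / B : ℝ))) := by
        rw [Finset.sum_const, nsmul_eq_mul]
    _ ≤ (k : ℝ) * (Real.exp B * Real.exp (-(X / B : ℝ))) := by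
        refine mul_le_mul_of_nonneg_right ?_ (by positivity)
        have : (I.filter (fun i => ¬ ‖φ i‖ = R)).card ≤ k :=
          (Finset.card_filter_le _ _).trans hk
        exact_mod_cast this
    _ = _ := by ring

theorem height_arith (n k Y B : ℕ) (hn : n ≤ k) :
    (n.factorial : ℝ) * (n * Y * B + B) ≤
      ((B * (k + 1).factorial : ℕ) : ℝ) * Y + ((B * (k + 1).factorial : ℕ) : ℝ) := by
  have h1 : n * n.factorial ≤ (k + 1).factorial := by
    calc n * n.factorial ≤ (k + 1) * k.factorial :=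
          Nat.mul_le_mul (by omega) (Nat.factorial_le hn)
      _ = (k + 1).factorial := by rw [Nat.factorial_succ]
  have h2 : n.factorial ≤ (k + 1).factorial := Nat.factorial_le (by omega)
  have h3 : n.factorial * (n * Y * B + B) ≤ B * (k + 1).factorial * Y + B * (k + 1).factorial := by
    calc n.factorial * (n * Y * B + B) = (n * n.factorial) * (B * Y) + n.factorial * B := by ring
      _ ≤ (k + 1).factorial * (B * Y) + (k + 1).factorial * B :=
          Nat.add_le_add (Nat.mul_le_mul_right _ h1) (Nat.mul_le_mul_right _ h2)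
      _ = _ := by ring
  exact_mod_cast h3

end WND

theorem wnd : ZBK → DETH → RKK → CRM → POSL → WND := by
  intro hZ hD hR hC hP K _ _ φ I γ v p N' k B f hdat X hX
  by_contra hcard
  rw [not_le] at hcard
  set Q := B * (k + 1).factorial with hQ
  set Y := X / Q ^ 4 with hY
  set S := (Icc X (X + Y)).filter (fun t => f t ≤ 0) with hS
  have hk1 : 1 ≤ k := (Finset.card_pos.2 hdat.ne).trans_le hdat.card
  obtain ⟨μ0, hμ0, hmax⟩ := I.exists_max_image (fun μ => ‖φ μ‖) hdat.ne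
  obtain ⟨R, hRdef⟩ : ∃ R : ℝ, R = ‖φ μ0‖ := ⟨_, rfl⟩
  have hRpos : 0 < R := by
    rw [hRdef]
    exact norm_pos_iff.2 ((map_ne_zero φ).2 (hdat.nz μ0 hμ0).1)
  have hRB : R ≤ Real.exp B := by
    rw [hRdef]
    exact WND.le_exp φ μ0 B (hdat.hμ μ0 hμ0)
  obtain ⟨M, hMdef⟩ : ∃ M : Finset K, M = I.filter (fun μ => ‖φ μ‖ = R) := ⟨_, rfl⟩
  have hMI : ∀ μ ∈ M, μ ∈ I := by
    intro μ hμ
    rw [hMdef] at hμ
    exact Finset.mem_of_mem_filter μ hμ
  have hMR : ∀ μ ∈ M, ‖φ μ‖ = R := by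
    intro μ hμ
    rw [hMdef, Finset.mem_filter] at hμ
    exact hμ.2
  have hμ0M : μ0 ∈ M := by
    rw [hMdef, Finset.mem_filter]
    exact ⟨hμ0, hRdef.symm⟩
  have hMk : M.card ≤ k := by
    refine le_trans ?_ hdat.card
    rw [hMdef]
    exact Finset.card_filter_le _ _
  obtain ⟨t, htS, hdet⟩ := WND.minor hZ hR K v p N' k B M S hdat.pp hdat.p3 hdat.vp hdat.N1
    hdat.B1 hMk hdat.deg
    (fun μ hμ => ⟨(hdat.vu μ (hMI μ hμ)).1, (hdat.vu μ (hMI μ hμ)).2, hdat.hμ μ (hMI μ hμ)⟩)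
    (fun μ hμ ν hν => hdat.nd μ (hMI μ hμ) ν (hMI ν hν))
    (lt_of_le_of_lt (WND.arith2 B k N' hdat.B1 hk1 hdat.NB) hcard)
  have htS' : ∀ j, X ≤ t j ∧ t j ≤ X + Y ∧ f (t j) ≤ 0 := by
    intro j
    have := htS j
    rw [hS, Finset.mem_filter, Finset.mem_Icc] at this
    exact ⟨this.1.1, this.1.2, this.2⟩
  have hts : ∀ j, t j = X + (t j - X) := fun j => by have := (htS' j).1; omega
  have hsY : ∀ j, t j - X ≤ Y := fun j => tsub_le_iff_left.2 (htS' j).2.1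
  rw [WND.det_shift M.card X (fun i => (M.equivFin.symm i : K)) t (fun j => t j - X) hts] at hdet
  have hΔ := right_ne_zero_of_mul hdet
  have hht := hD K M.card B Y (fun i => (M.equivFin.symm i : K)) (fun j => t j - X) hdat.deg
    (fun i => hdat.hμ _ (hMI _ (M.equivFin.symm i).2)) hsY
  have hH := WND.exp_le φ _ hΔ _ (hht.trans (WND.height_arith M.card k Y B hMk))
  have hnd := WND.norm_det φ M.card X Y B R _ hRpos hRB (fun i => (M.equivFin.symm i : K))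
    (fun i => hMR _ (M.equivFin.symm i).2) t (fun j => t j - X) hts hsY hH
  have hpos := hP K I (fun μ => φ μ) (fun μ => φ (γ μ)) f R hRpos
    (fun i hi => by rw [hRdef]; exact hmax i hi)
    (fun t => by
      rw [hdat.rep t, map_sum]
      exact Finset.sum_congr rfl fun μ _ => by rw [map_mul, map_pow])
    hdat.pos
  have hc := hC M.card (fun i => φ (M.equivFin.symm i : K) / (R : ℂ))
    (fun i => φ (γ (M.equivFin.symm i : K))) t
    (k * Real.exp B * Real.exp (-(X / B : ℝ)))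
    (fun i => by
      rw [norm_div, hMR _ (M.equivFin.symm i).2, Complex.norm_real,
        Real.norm_of_nonneg hRpos.le, div_self hRpos.ne'])
    (fun j => by
      rw [WND.sum_equiv M (fun μ => φ (γ μ) * (φ μ / (R : ℂ)) ^ t j), hMdef]
      exact WND.dom_small φ I γ k B X (t j) f R hRpos hdat.B1 hdat.card
        (fun μ hμ => WND.le_exp φ _ B (hdat.hγ μ hμ))
        (fun μ hμ hne => by
          rw [hRdef] at hne ⊢
          exact hdat.gap μ hμ μ0 hμ0 (lt_of_le_of_ne (hmax μ hμ) hne))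
        (hdat.rep (t j)) (htS' j).2.2 (htS' j).1 (hpos (t j)))
  have hc0 := hc (M.equivFin ⟨μ0, hμ0M⟩)
  have hγ0 : Real.exp (-(B : ℝ)) ≤
      ‖φ (γ (M.equivFin.symm (M.equivFin ⟨μ0, hμ0M⟩) : K))‖ := by
    rw [Equiv.symm_apply_apply]
    exact WND.exp_le φ _ (hdat.nz μ0 hμ0).2 B (hdat.hγ μ0 hμ0)
  refine WND.arith B k Q X Y M.card hdat.B1 hk1 hQ hX (Nat.div_mul_le_self _ _) hMk ?_
  refine le_trans ?_ hc0
  exact mul_le_mul hγ0 hnd (by positivity) (norm_nonneg _)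

end Pool.Agent.TH997.UP

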