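import Pool.Agent.TH997.UP.Stm

/-!
# ZBK: number of zeros of a nondegenerate exponential sum with arbitrary coefficients
-/

set_option autoImplicit false

namespace Pool.Agent.TH997.UP

open Finset Pool.Agent.H612.LR
open scoped Classical

namespace ZBK

variable {K : Type} [Field K] [NumberField K]

theorem log_le_height (v : NumberField.FinitePlace K) (x : K) (hx : x ≠ 0) :
    Real.log (v x) ≤ Height.logHeight₁ x := by
  rw [NumberField.logHeight₁_eq]
  have h1 : 0 ≤ ∑ v : NumberField.InfinitePlace K, (v.mult : ℝ) * Real.posLog (v x) :=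
    Finset.sum_nonneg fun v _ => mul_nonneg (Nat.cast_nonneg _) Real.posLog_nonneg
  have hfin : (Function.support fun v : NumberField.FinitePlace K => Real.posLog (v x)).Finite := by
    refine Set.Finite.subset (NumberField.FinitePlace.hasFiniteMulSupport hx) ?_
    intro w hw hw1
    apply hw
    have hw2 : w x = 1 := hw1
    show Real.posLog (w x) = 0
    rw [hw2]
    simp
  have h2 : Real.posLog (v x) ≤ ∑ᶠ v : NumberField.FinitePlace K, Real.posLog (v x) :=
    single_le_finsum v hfin (fun _ => Real.posLog_nonneg)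
  have h3 : Real.log (v x) ≤ Real.posLog (v x) := le_max_right _ _
  linarith

theorem exp_le (v : NumberField.FinitePlace K) (x : K) (hx : x ≠ 0) (A : ℝ)
    (hA : Height.logHeight₁ x ≤ A) : Real.exp (-A) ≤ v x := by
  have h1 : 0 < v x := NumberField.FinitePlace.pos_iff.mpr hx
  have h2 := log_le_height v x⁻¹ (inv_ne_zero hx)
  rw [Height.logHeight₁_inv, map_inv₀, Real.log_inv] at h2
  rw [← Real.le_log_iff_exp_le h1]
  linarith

theorem vp_le (v : NumberField.FinitePlace K) (p : ℕ) (hp : p.Prime) (h : v (p : K) < 1) :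
    v (p : K) ≤ 1 / 2 := by
  have hx : (p : NumberField.RingOfIntegers K) ≠ 0 := by exact_mod_cast hp.ne_zero
  have h1 := NumberField.FinitePlace.apply_mul_absNorm_pow_eq_one v hx
  have e : ((p : NumberField.RingOfIntegers K) : K) = (p : K) := by
    exact map_natCast (algebraMap (NumberField.RingOfIntegers K) K) p
  rw [e] at h1
  set k := multiplicity v.maximalIdeal.asIdeal (Ideal.span {(p : NumberField.RingOfIntegers K)})
    with hk
  have hN : 1 < (Ideal.absNorm v.maximalIdeal.asIdeal) :=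
    NumberField.HeightOneSpectrum.one_lt_absNorm _
  have hN2 : (2 : ℝ) ≤ (Ideal.absNorm v.maximalIdeal.asIdeal : ℝ) := by exact_mod_cast hN
  have hv0 : 0 ≤ v (p : K) := apply_nonneg v _
  rcases Nat.eq_zero_or_pos k with h0 | h0
  · rw [h0, pow_zero, mul_one] at h1
    linarith
  · have h2 : (2 : ℝ) ≤ (Ideal.absNorm v.maximalIdeal.asIdeal : ℝ) ^ k := by
      calc (2 : ℝ) = 2 ^ 1 := by norm_num
        _ ≤ 2 ^ k := pow_le_pow_right₀ (by norm_num) h0
        _ ≤ _ := pow_le_pow_left₀ (by norm_num) hN2 k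
    nlinarith

/-- the ring of the elements with `v x ≤ 1` -/
def OO (v : NumberField.FinitePlace K) : Subring K where
  carrier := {x | v x ≤ 1}
  mul_mem' := by
    intro a b ha hb
    show v (a * b) ≤ 1
    rw [map_mul]
    exact mul_le_one₀ ha (apply_nonneg v _) hb
  one_mem' := by
    show v 1 ≤ 1
    rw [map_one]
  add_mem' := by
    intro a b ha hb
    exact (NumberField.FinitePlace.add_le v a b).trans (max_le ha hb)
  zero_mem' := by
    show v 0 ≤ 1
    rw [map_zero]
    exact zero_le_one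
  neg_mem' := by
    intro a ha
    show v (-a) ≤ 1
    rw [map_neg_eq_map]
    exact ha

theorem adj_le {n : ℕ} (v : NumberField.FinitePlace K) (M : Matrix (Fin n) (Fin n) K)
    (hM : ∀ i j, v (M i j) ≤ 1) (i j : Fin n) : v (M.adjugate i j) ≤ 1 := by
  let M' : Matrix (Fin n) (Fin n) (OO v) := Matrix.of fun i j => ⟨M i j, hM i j⟩
  have h : M = (OO v).subtype.mapMatrix M' := rfl
  rw [h, ← RingHom.map_adjugate]
  exact (M'.adjugate i j).2

theorem sum_le {ι : Type*} (v : NumberField.FinitePlace K) (s : Finset ι) (a : ι → K) (C : ℝ)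
    (hC : 0 ≤ C) (h : ∀ i ∈ s, v (a i) ≤ C) : v (∑ i ∈ s, a i) ≤ C := by
  induction s using Finset.induction_on with
  | empty => simpa using hC
  | insert i s hi ih =>
    rw [Finset.sum_insert hi]
    exact (NumberField.FinitePlace.add_le v _ _).trans
      (max_le (h i (Finset.mem_insert_self _ _)) (ih fun j hj => h j (Finset.mem_insert_of_mem hj)))

/-- one residue class -/
theorem one_res (hC : C9K) (hD : DETH) (v : NumberField.FinitePlace K)
    (p N' m B : ℕ) (I : Finset K) (b : K → K) (hp : p.Prime) (hp3 : 3 ≤ p) (hvp : v (p : K) < 1)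
    (hN : 1 ≤ N') (hm : I.card ≤ m) (hdeg : Module.finrank ℚ K ≤ B)
    (hI : ∀ μ ∈ I, v μ = 1 ∧ v (μ ^ N' - 1) ≤ v (p : K) ∧ Height.logHeight₁ μ ≤ B)
    (hnd : ∀ μ ∈ I, ∀ ν ∈ I, μ ≠ ν → ∀ t : ℕ, 1 ≤ t → μ ^ t ≠ ν ^ t)
    (hb : ∃ μ ∈ I, b μ ≠ 0) (r : ℕ) (L : Finset ℕ)
    (hL : ∀ l ∈ L, ∑ μ ∈ I, b μ * μ ^ (r + N' * l) = 0) :
    L.card ≤ 8 * m.factorial * (m ^ 2 * N' * B + B) + 4 := by
  obtain ⟨μ₁, hμ₁, hbμ₁⟩ := hb
  obtain ⟨μ₀, hμ₀, hmax⟩ := Finset.exists_max_image I (fun μ => v (b μ)) ⟨μ₁, hμ₁⟩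
  set A : ℝ := v (b μ₀) with hA
  have hApos : 0 < A := by
    have h1 : 0 < v (b μ₁) := NumberField.FinitePlace.pos_iff.mpr hbμ₁
    exact lt_of_lt_of_le h1 (hmax μ₁ hμ₁)
  have hvr : ∀ μ ∈ I, v (b μ * μ ^ r) = v (b μ) := by
    intro μ hμ
    rw [map_mul, map_pow, (hI μ hμ).1, one_pow, mul_one]
  set f : ℕ → K := fun l => ∑ μ ∈ I, (b μ * μ ^ r) * (1 + (μ ^ N' - 1)) ^ l with hf
  have hfe : ∀ l, f l = ∑ μ ∈ I, b μ * μ ^ (r + N' * l) := by
    intro l
    simp only [hf]
    refine Finset.sum_congr rfl fun μ _ => ?_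
    rw [add_sub_cancel, ← pow_mul, mul_assoc, ← pow_add]
  have hvf : ∀ l : ℕ, v (f l) ≤ A * v (p : K) ^ (L.card / 2) := by
    refine hC K v p I (fun μ => b μ * μ ^ r) (fun μ => μ ^ N' - 1) L A hp hp3 hvp hApos.le ?_ ?_
    · intro μ hμ
      refine ⟨?_, (hI μ hμ).2.1⟩
      show v (b μ * μ ^ r) ≤ A
      rw [hvr μ hμ]
      exact hmax μ hμ
    · intro l hl
      have h1 := hfe l
      simp only [hf] at h1
      rw [h1]
      exact hL l hl
  -- enumeration
  set n := I.card with hn
  set e : Fin n → K := fun i => ((I.equivFin.symm i : I) : K) with he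
  have heI : ∀ i, e i ∈ I := fun i => (I.equivFin.symm i).2
  have heinj : Function.Injective e := by
    intro i j hij
    exact I.equivFin.symm.injective (Subtype.ext hij)
  have hsum : ∀ g : K → K, ∑ μ ∈ I, g μ = ∑ i, g (e i) := by
    intro g
    rw [← Finset.sum_coe_sort I g]
    exact (Equiv.sum_comp I.equivFin.symm (fun x : I => g (x : K))).symm
  set V : Matrix (Fin n) (Fin n) K := Matrix.of fun j i : Fin n => e i ^ (N' * (j : ℕ)) with hV
  have hVle : ∀ i j, v (V i j) ≤ 1 := by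
    intro i j
    show v (e j ^ (N' * (i : ℕ))) ≤ 1
    rw [map_pow, (hI _ (heI j)).1, one_pow]
  have hVt : V = (Matrix.vandermonde fun i => e i ^ N').transpose := by
    ext j i
    rw [Matrix.transpose_apply, Matrix.vandermonde_apply, ← pow_mul]
    rfl
  have hdet : V.det ≠ 0 := by
    rw [hVt, Matrix.det_transpose, Matrix.det_vandermonde_ne_zero_iff]
    intro i j hij
    by_contra hne
    exact hnd (e i) (heI i) (e j) (heI j) (fun h => hne (heinj h)) N' hN hij
  set c : Fin n → K := fun i => b (e i) * e i ^ r with hc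
  have hVc : V.mulVec c = fun j : Fin n => f j := by
    funext j
    rw [hfe, hsum]
    simp only [Matrix.mulVec, dotProduct, hV, Matrix.of_apply, hc]
    refine Finset.sum_congr rfl fun i _ => ?_
    rw [pow_add]
    ring
  have hcr : ∀ i, V.det * c i = ∑ j, V.adjugate i j * f j := by
    intro i
    have h1 : V.adjugate.mulVec (V.mulVec c) = V.det • c := by
      rw [Matrix.mulVec_mulVec, Matrix.adjugate_mul, Matrix.smul_mulVec, Matrix.one_mulVec]
    rw [hVc] at h1
    have h2 := congrFun h1 i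
    simp only [Matrix.mulVec, dotProduct, Pi.smul_apply, smul_eq_mul] at h2
    exact h2.symm
  -- the index of `μ₀`
  set i₀ : Fin n := I.equivFin ⟨μ₀, hμ₀⟩ with hi₀
  have hei₀ : e i₀ = μ₀ := by
    simp only [he, hi₀, Equiv.symm_apply_apply]
  have hvc : v (c i₀) = A := by
    simp only [hc]
    rw [hvr _ (heI i₀), hei₀]
  have hvp0 : 0 ≤ v (p : K) := apply_nonneg v _
  have hbd : v V.det * A ≤ A * v (p : K) ^ (L.card / 2) := by
    rw [← hvc, ← map_mul, hcr i₀, hvc]
    refine sum_le v _ _ _ (mul_nonneg hApos.le (pow_nonneg hvp0 _)) fun j _ => ?_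
    rw [map_mul]
    calc v (V.adjugate i₀ j) * v (f j) ≤ 1 * v (f j) :=
          mul_le_mul_of_nonneg_right (adj_le v V hVle i₀ j) (apply_nonneg v _)
      _ = v (f j) := one_mul _
      _ ≤ _ := hvf j
  have hbd2 : v V.det ≤ v (p : K) ^ (L.card / 2) := by
    have : A * v V.det ≤ A * v (p : K) ^ (L.card / 2) := by linarith [hbd, mul_comm A (v V.det)]
    exact le_of_mul_le_mul_left this hApos
  have hbd3 : v V.det ≤ (1 / 2 : ℝ) ^ (L.card / 2) :=
    hbd2.trans (pow_le_pow_left₀ hvp0 (vp_le v p hp hvp) _)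
  -- the height of the determinant
  have hH : Height.logHeight₁ V.det ≤ n.factorial * (n * ((N' * n : ℕ) : ℝ) * B + B) := by
    refine hD K n B (N' * n) e (fun j => N' * (j : ℕ)) hdeg (fun i => (hI _ (heI i)).2.2) ?_
    intro j
    exact Nat.mul_le_mul_left _ j.2.le
  set H : ℝ := n.factorial * (n * ((N' * n : ℕ) : ℝ) * B + B) with hHdef
  have h1 := (exp_le v V.det hdet H hH).trans hbd3
  have h2 : Real.exp (-H) ≤ Real.exp (-(((L.card / 2 : ℕ) : ℝ) * Real.log 2)) := by
    refine h1.trans (le_of_eq ?_)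
    rw [Real.exp_neg, mul_comm, Real.exp_mul, Real.exp_log (by norm_num), Real.rpow_natCast,
      one_div, inv_pow]
  rw [Real.exp_le_exp] at h2
  have h3 : ((L.card / 2 : ℕ) : ℝ) ≤ 2 * H := by
    have hl : (1 / 2 : ℝ) ≤ Real.log 2 := by
      have := Real.log_two_gt_d9
      linarith
    have : (0 : ℝ) ≤ ((L.card / 2 : ℕ) : ℝ) := Nat.cast_nonneg _
    nlinarith
  have h4 : L.card / 2 ≤ 2 * (n.factorial * (n * (N' * n) * B + B)) := by
    have h5 : ((L.card / 2 : ℕ) : ℝ) ≤ ((2 * (n.factorial * (n * (N' * n) * B + B)) : ℕ) : ℝ) := by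
      refine h3.trans (le_of_eq ?_)
      rw [hHdef]
      push_cast
      ring
    exact_mod_cast h5
  have h6 : n.factorial * (n * (N' * n) * B + B) ≤ m.factorial * (m ^ 2 * N' * B + B) := by
    refine Nat.mul_le_mul (Nat.factorial_le hm) ?_
    have h7 : n * (N' * n) ≤ m ^ 2 * N' := by
      calc n * (N' * n) ≤ m * (N' * m) := Nat.mul_le_mul hm (Nat.mul_le_mul_left _ hm)
        _ = m ^ 2 * N' := by ring
    exact Nat.add_le_add_right (Nat.mul_le_mul_right _ h7) _
  have h8 : 8 * m.factorial * (m ^ 2 * N' * B + B) = 8 * (m.factorial * (m ^ 2 * N' * B + B)) := by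
    ring
  rw [h8]
  omega

end ZBK

open ZBK in
theorem zbk : C9K → DETH → ZBK := by
  intro hC hD K _ _ v p N' m B I b S hp hp3 hvp hN hB hm hdeg hI hnd hb hS
  have hmaps : ∀ t ∈ S, t % N' ∈ Finset.range N' := fun t _ =>
    Finset.mem_range.mpr (Nat.mod_lt _ hN)
  rw [Finset.card_eq_sum_card_fiberwise hmaps]
  have hone : ∀ r ∈ Finset.range N', (S.filter fun t => t % N' = r).card ≤
      8 * m.factorial * (m ^ 2 * N' * B + B) + 4 := by
    intro r hr
    have hinj : Set.InjOn (fun t => t / N') (S.filter fun t => t % N' = r : Finset ℕ) := by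
      intro s hs t ht hst
      have h1 := (Finset.mem_filter.mp (Finset.mem_coe.mp hs)).2
      have h2 := (Finset.mem_filter.mp (Finset.mem_coe.mp ht)).2
      have h3 : s / N' = t / N' := hst
      rw [← Nat.div_add_mod s N', ← Nat.div_add_mod t N', h1, h2, h3]
    rw [← Finset.card_image_of_injOn hinj]
    refine one_res hC hD v p N' m B I b hp hp3 hvp hN hm hdeg hI hnd hb r _ ?_
    intro l hl
    obtain ⟨t, ht, rfl⟩ := Finset.mem_image.mp hl
    obtain ⟨ht1, ht2⟩ := Finset.mem_filter.mp ht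
    have h3 : r + N' * (t / N') = t := by
      rw [← ht2]
      exact Nat.mod_add_div t N'
    rw [h3]
    exact hS t ht1
  calc ∑ r ∈ Finset.range N', (S.filter fun t => t % N' = r).card
      ≤ ∑ _r ∈ Finset.range N', (8 * m.factorial * (m ^ 2 * N' * B + B) + 4) :=
        Finset.sum_le_sum hone
    _ = N' * (8 * m.factorial * (m ^ 2 * N' * B + B) + 4) := by
        rw [Finset.sum_const, Finset.card_range, smul_eq_mul]

end Pool.Agent.TH997.UP
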