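import Pool.Agent.TH997.UP.Stm
import Pool.Agent.H612.LR.MainP
import Pool.Agent.TH286.GT.Main
import Pool.Agent.TH286.GT.All

/-!
# Positivity of simple linear recurrences up to a universal sparse set of indices: assembly
-/

set_option autoImplicit false

namespace Pool.Agent.TH997.UP

open Pool.Agent.NPC Pool.Agent.NPC.ER Pool.Agent.NPC.H612 Pool.Agent.H612.PG Pool.Agent.H612.LR
open Finset
open scoped Classical

namespace Fin

theorem upoly_Nb (A : ℕ) : UPoly (fun l : Rec => (10 * Pool.Agent.H612.LR.sz l ^ 3) ^ A) := by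
  have h := UPoly.eval (Pool.Agent.NPC.H612.LRP.upoly_sz Pool.Agent.NPC.Poly.id)
    ((Polynomial.C 10 * Polynomial.X ^ 3) ^ A)
  simpa only [Polynomial.eval_mul, Polynomial.eval_C, Polynomial.eval_pow, Polynomial.eval_X]
    using h

theorem sz_pos (l : Rec) (hl : l ≠ []) : 1 ≤ Pool.Agent.H612.LR.sz l :=
  le_trans (Nat.succ_le_of_lt (List.length_pos_iff.2 hl)) (TOR.len_le_sz l)

end Fin

/-- The typed reduction. -/
theorem main_typed (hCL : CLs) (hSCL : SCL) (hCNT : CNT) (hCMP : CMP) (η : ℝ) (hη : 0 < η) :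
    ∃ (L : Set ℕ) (g : Rec → Fm), ComputablePred (fun n : ℕ => n ∈ L) ∧
      (∃ N0 : ℕ, ∀ N : ℕ, N0 ≤ N → ((L ∩ Set.Iio N).ncard : ℝ) ≤ Real.exp (Real.log N ^ η)) ∧
      Pool.Agent.NPC.Poly g ∧ ∀ l : Rec, l ≠ [] →
        (ETR (g l) → ¬ Positive l) ∧
        (Simple l → (¬ UltPositive l ∨ ∃ n, n ∉ L ∧ seq l n ≤ 0) → ETR (g l)) ∧
        (NonTight0 l → ¬ Positive l → ETR (g l)) := by
  obtain ⟨C, hC⟩ := hCL
  obtain ⟨A0, hA0⟩ := hCNT η C hη
  set A := max A0 (C + 1) with hA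
  obtain ⟨gu, hgu, hu⟩ := Pool.Agent.TH286.GT.Main.main_up Pool.Agent.TH286.GT.growth
  obtain ⟨gp, hgp, hp⟩ := main_pos
  refine ⟨LS A C, fun l => disj [gu l, gp l, tmFm l ((10 * Pool.Agent.H612.LR.sz l ^ 3) ^ A), smFm l],
    hCMP A C (by omega), hA0 A (le_max_left _ _), ?_, fun l hl => ?_⟩
  · exact poly_disj (Pool.Agent.NPC.Poly.cons hgu (Pool.Agent.NPC.Poly.cons hgp
      (Pool.Agent.NPC.Poly.cons (t_PLP.2.2.1 _ (Fin.upoly_Nb A)) (Pool.Agent.NPC.Poly.cons
        t_PLP.2.2.2 (Pool.Agent.NPC.Poly.const [])))))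
  · have hk : 1 ≤ l.length := List.length_pos_iff.2 hl
    obtain ⟨h1, h2⟩ := hu l hl
    obtain ⟨h3, h4⟩ := hp l hl
    have hT := t_TM t_RPE t_RPU l ((10 * Pool.Agent.H612.LR.sz l ^ 3) ^ A) hk
    have hS := t_SM l
    rw [etr_disj]
    simp only [List.mem_cons, List.not_mem_nil, or_false, exists_eq_or_imp, exists_eq_left]
    refine ⟨?_, fun hsim hor => ?_, fun hnt hnp => Or.inr (Or.inl (h4 hnt hnp))⟩
    · rintro (h | h | h | h)
      · intro hpos
        exact h1 h ⟨0, fun n _ => hpos n⟩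
      · exact h3 h
      · obtain ⟨n, _, _, hn⟩ := hT.1 h
        intro hpos
        exact absurd (hpos n) (not_lt.2 hn)
      · obtain ⟨n, _, hn⟩ := hS.1 h
        intro hpos
        exact absurd (hpos n) (not_lt.2 hn)
    · by_cases hup : UltPositive l
      · obtain ⟨n, hnL, hn⟩ := hor.resolve_left (not_not.2 hup)
        by_cases hnk : n < l.length
        · exact Or.inr (Or.inr (Or.inr (hS.2 ⟨n, hnk, hn⟩)))
        · refine Or.inr (Or.inr (Or.inl (hT.2 ⟨n, not_lt.1 hnk, ?_, hn⟩)))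
          by_contra hcon
          rw [not_lt] at hcon
          apply hnL
          obtain ⟨w, hw1, hw2, hw3⟩ := hSCL l hl
          have hz := Fin.sz_pos l hl
          set s := 10 * Pool.Agent.H612.LR.sz l ^ 3 with hs
          have hs1 : Pool.Agent.H612.LR.sz l ≤ s := by
            have : Pool.Agent.H612.LR.sz l ≤ Pool.Agent.H612.LR.sz l ^ 3 := Nat.le_self_pow (by norm_num) _
            omega
          have hs10 : 10 ≤ s := by
            have : 1 ≤ Pool.Agent.H612.LR.sz l ^ 3 := Nat.one_le_pow _ _ hz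
            omega
          have hCs : C * Pool.Agent.H612.LR.sz l ^ C ≤ s ^ C := by
            have e1 : C ≤ 10 ^ C := (Nat.lt_pow_self (by norm_num)).le
            calc C * Pool.Agent.H612.LR.sz l ^ C ≤ 10 ^ C * (Pool.Agent.H612.LR.sz l ^ 3) ^ C :=
                  Nat.mul_le_mul e1 (Nat.pow_le_pow_left (Nat.le_self_pow (by norm_num) _) _)
              _ = s ^ C := by rw [hs, mul_pow]
          have hCA : s ^ C ≤ s ^ A := Nat.pow_le_pow_right (by omega)
            ((Nat.le_succ C).trans (le_max_right _ _))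
          refine ⟨s, w, hw2, hcon, (hw3 n).2 hn, ?_⟩
          have h5 := hC l hl hsim hup n
          have h6 : 2 ^ (C * Pool.Agent.H612.LR.sz l ^ C) ≤ 2 ^ (s ^ C) := Nat.pow_le_pow_right (by norm_num) hCs
          refine le_trans (le_trans (Finset.card_le_card ?_) h5) (Nat.mul_le_mul_right _ h6)
          intro m hm
          rw [Finset.mem_filter] at hm ⊢
          refine ⟨hm.1, le_trans ?_ hm.2.1, (hw3 m).1 hm.2.2⟩
          exact Nat.pow_le_pow_right (by norm_num) (hCs.trans hCA)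
      · exact Or.inl (h2 (Or.inr (Pool.Agent.TH286.GT.Main.small_of_simple l hsim)) hup)

/-- From typed reductions to functions on strings. -/
theorem main_str (hCL : CLs) (hSCL : SCL) (hCNT : CNT) (hCMP : CMP) (η : ℝ) (hη : 0 < η) :
    ∃ (L : Set ℕ) (f : List Bool → Fm), ComputablePred (fun n : ℕ => n ∈ L) ∧
      (∃ N0 : ℕ, ∀ N : ℕ, N0 ≤ N → ((L ∩ Set.Iio N).ncard : ℝ) ≤ Real.exp (Real.log N ^ η)) ∧
      PolyTime (fun w => bits (f w)) ∧ ∀ l : Rec, l ≠ [] →
        (ETR (f (bits l)) → ¬ Positive l) ∧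
        (Simple l → (¬ UltPositive l ∨ ∃ n, n ∉ L ∧ seq l n ≤ 0) → ETR (f (bits l))) ∧
        (NonTight0 l → ¬ Positive l → ETR (f (bits l))) := by
  obtain ⟨L, g, hL, hc, hg, h⟩ := main_typed hCL hSCL hCNT hCMP η hη
  obtain ⟨f, hf, h'⟩ := toStr hg
  refine ⟨L, f, hL, hc, hf, fun l hl => ?_⟩
  rw [h']
  exact h l hl

end Pool.Agent.TH997.UP
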